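import Pool.Agent.Y143.Par.FixDefs

/-!
# Characteristic polynomials on subspaces
-/

namespace Pool.Agent.Y143.Par

universe u v

open Module Polynomial

/-- The subspace `U` is stable under `F`, and the characteristic polynomial of `F` on it is `p`. -/
def HasCharpoly {Ω : Type u} [Field Ω] {V : Type v} [AddCommGroup V] [Module Ω V]
    [Module.Finite Ω V] (F : Module.End Ω V) (U : Submodule Ω V) (p : Polynomial Ω) : Prop :=
  ∃ h : ∀ x ∈ U, F x ∈ U, (F.restrict h).charpoly = p

section

variable {Ω : Type u} [Field Ω] [CharZero Ω]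

lemma charpoly_exact {U U' : Type*} [AddCommGroup U] [Module Ω U] [Module.Finite Ω U]
    [AddCommGroup U'] [Module Ω U'] [Module.Finite Ω U'] (f : U →ₗ[Ω] U')
    (hf : Function.Surjective f) (F : Module.End Ω U) (F' : Module.End Ω U')
    (hF : ∀ x, f (F x) = F' (f x)) (h : ∀ x ∈ LinearMap.ker f, F x ∈ LinearMap.ker f) :
    F.charpoly = (F.restrict h).charpoly * F'.charpoly := by
  apply Polynomial.funext
  intro t
  rw [Polynomial.eval_mul, LinearMap.eval_charpoly, LinearMap.eval_charpoly,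
    LinearMap.eval_charpoly]
  have he : LinearMap.ker f ≤ (LinearMap.ker f).comap (algebraMap Ω (Module.End Ω U) t - F) := by
    intro x hx
    rw [Submodule.mem_comap, LinearMap.sub_apply, Module.algebraMap_end_apply]
    exact sub_mem (Submodule.smul_mem _ _ hx) (h x hx)
  rw [LinearMap.det_eq_det_mul_det (LinearMap.ker f) _ he]
  congr 1
  have h1 : algebraMap Ω (Module.End Ω U') t - F' =
      (f.quotKerEquivOfSurjective hf).conj ((LinearMap.ker f).mapQ (LinearMap.ker f)
        (algebraMap Ω (Module.End Ω U) t - F) he) := by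
    refine LinearMap.ext fun y => ?_
    obtain ⟨x, rfl⟩ := hf y
    have h2 : (f.quotKerEquivOfSurjective hf).symm (f x) = (LinearMap.ker f).mkQ x := by
      rw [LinearEquiv.symm_apply_eq]
      rfl
    rw [LinearEquiv.conj_apply_apply, h2, Submodule.mkQ_apply, Submodule.mapQ_apply]
    change _ = f ((algebraMap Ω (Module.End Ω U) t - F) x)
    rw [LinearMap.sub_apply, LinearMap.sub_apply, map_sub, hF, Module.algebraMap_end_apply,
      Module.algebraMap_end_apply, map_smul]
  rw [h1]
  exact (LinearMap.det_conj _ (f.quotKerEquivOfSurjective hf)).symm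

variable {V : Type v} [AddCommGroup V] [Module Ω V] [Module.Finite Ω V] {V' : Type*}
  [AddCommGroup V'] [Module Ω V'] [Module.Finite Ω V']

/-- The characteristic polynomial of an extension. -/
theorem HasCharpoly.exact (f : V →ₗ[Ω] V') {F : Module.End Ω V} {F' : Module.End Ω V'}
    {U K : Submodule Ω V} {U' : Submodule Ω V'} {p r p' : Polynomial Ω} (hU : HasCharpoly F U p)
    (hK : HasCharpoly F K r) (hU' : HasCharpoly F' U' p') (hmap : ∀ x ∈ U, f x ∈ U')
    (hsurj : ∀ y ∈ U', ∃ x ∈ U, f x = y) (hker : ∀ x ∈ U, f x = 0 → x ∈ K)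
    (hK' : ∀ x ∈ K, x ∈ U ∧ f x = 0) (hF : ∀ x ∈ U, f (F x) = F' (f x)) : p = r * p' := by
  obtain ⟨h1, rfl⟩ := hU
  obtain ⟨h2, rfl⟩ := hK
  obtain ⟨h3, rfl⟩ := hU'
  let g : U →ₗ[Ω] U' := f.restrict hmap
  have hg : Function.Surjective g := by
    rintro ⟨y, hy⟩
    obtain ⟨x, hx, rfl⟩ := hsurj y hy
    exact ⟨⟨x, hx⟩, rfl⟩
  have hstab : ∀ x ∈ LinearMap.ker g, (F.restrict h1) x ∈ LinearMap.ker g := by
    intro x hx
    rw [LinearMap.mem_ker] at hx ⊢
    apply Subtype.ext
    have h4 : f x = 0 := congrArg Subtype.val hx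
    change f (F x) = 0
    rw [hF x x.2, h4, map_zero]
  rw [charpoly_exact g hg (F.restrict h1) (F'.restrict h3)
    (fun x => Subtype.ext (hF x x.2)) hstab]
  congr 1
  let e : LinearMap.ker g ≃ₗ[Ω] K :=
    { toFun := fun x => ⟨x.1.1, hker _ x.1.2 (congrArg Subtype.val x.2)⟩
      map_add' := fun _ _ => rfl
      map_smul' := fun _ _ => rfl
      invFun := fun x => ⟨⟨x.1, (hK' x.1 x.2).1⟩, Subtype.ext (hK' x.1 x.2).2⟩
      left_inv := fun _ => rfl
      right_inv := fun _ => rfl }
  have h5 : F.restrict h2 = e.conj ((F.restrict h1).restrict hstab) := by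
    refine LinearMap.ext fun x => ?_
    rfl
  rw [h5, LinearEquiv.charpoly_conj]

/-- The characteristic polynomial of `F` on `U` if `U` is stable under `F`. -/
noncomputable def cp (F : Module.End Ω V) (U : Submodule Ω V) : Polynomial Ω := by
  classical
  exact if h : ∀ x ∈ U, F x ∈ U then (F.restrict h).charpoly else 1

omit [CharZero Ω] in
lemma hasCharpoly_cp {F : Module.End Ω V} {U : Submodule Ω V} (h : ∀ x ∈ U, F x ∈ U) :
    HasCharpoly F U (cp F U) := by
  classical
  refine ⟨h, ?_⟩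
  rw [cp, dif_pos h]

omit [CharZero Ω] in
lemma HasCharpoly.eq_cp {F : Module.End Ω V} {U : Submodule Ω V} {p : Polynomial Ω}
    (h : HasCharpoly F U p) : p = cp F U := by
  classical
  obtain ⟨h, rfl⟩ := h
  rw [cp, dif_pos h]

omit [CharZero Ω] in
lemma HasCharpoly.monic {F : Module.End Ω V} {U : Submodule Ω V} {p : Polynomial Ω}
    (h : HasCharpoly F U p) : p.Monic := by
  obtain ⟨h, rfl⟩ := h
  exact LinearMap.charpoly_monic _

omit [CharZero Ω] in
lemma cp_monic (F : Module.End Ω V) (U : Submodule Ω V) : (cp F U).Monic := by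
  classical
  rw [cp]
  split_ifs with h
  · exact LinearMap.charpoly_monic _
  · exact monic_one

omit [CharZero Ω] in
lemma cp_bot (F : Module.End Ω V) : cp F (⊥ : Submodule Ω V) = 1 := by
  classical
  rw [cp, dif_pos (fun x hx => by
    rw [Submodule.mem_bot] at hx ⊢
    rw [hx, map_zero])]
  have h1 := LinearMap.charpoly_natDegree (F.restrict (p := (⊥ : Submodule Ω V))
    (q := (⊥ : Submodule Ω V)) (fun x hx => by
      rw [Submodule.mem_bot] at hx ⊢
      rw [hx, map_zero]))
  rw [finrank_bot] at h1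
  exact (LinearMap.charpoly_monic _).natDegree_eq_zero.1 h1

/-- The characteristic polynomial of an extension. -/
theorem cp_exact (f : V →ₗ[Ω] V') {F : Module.End Ω V} {F' : Module.End Ω V'}
    {U K : Submodule Ω V} {U' : Submodule Ω V'} (hU : ∀ x ∈ U, F x ∈ U) (hK : ∀ x ∈ K, F x ∈ K)
    (hU' : ∀ x ∈ U', F' x ∈ U') (hmap : ∀ x ∈ U, f x ∈ U')
    (hsurj : ∀ y ∈ U', ∃ x ∈ U, f x = y) (hker : ∀ x ∈ U, f x = 0 → x ∈ K)
    (hK' : ∀ x ∈ K, x ∈ U ∧ f x = 0) (hF : ∀ x ∈ U, f (F x) = F' (f x)) :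
    cp F U = cp F K * cp F' U' :=
  (hasCharpoly_cp hU).exact f (hasCharpoly_cp hK) (hasCharpoly_cp hU') hmap hsurj hker hK' hF

/-- The characteristic polynomial of a multiple. -/
lemma cp_smul {c : Ω} (hc : c ≠ 0) {F : Module.End Ω V} {U : Submodule Ω V}
    (hU : ∀ x ∈ U, F x ∈ U) : cp (c • F) U = (cp F U).scaleRoots c := by
  classical
  have hU' : ∀ x ∈ U, (c • F) x ∈ U := fun x hx => U.smul_mem c (hU x hx)
  rw [cp, cp, dif_pos hU', dif_pos hU]
  apply Polynomial.funext
  intro t
  rw [show t = c * (c⁻¹ * t) by rw [← mul_assoc, mul_inv_cancel₀ hc, one_mul],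
    scaleRoots_eval_mul, LinearMap.eval_charpoly, LinearMap.eval_charpoly,
    LinearMap.charpoly_natDegree, ← LinearMap.det_smul]
  congr 1
  refine LinearMap.ext fun x => ?_
  rw [LinearMap.smul_apply, LinearMap.sub_apply, LinearMap.sub_apply, Module.algebraMap_end_apply,
    Module.algebraMap_end_apply, smul_sub, smul_smul]
  rfl

end

end Pool.Agent.Y143.Par
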