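import Pool.Agent.Y143.Par.Pure

/-!
# The weight filtration is the monodromy filtration
-/

namespace Pool.Agent.Y143.Par

universe u v

open Module

variable {Ω : Type u} [Field Ω] {V C : Type v} [AddCommGroup V] [Module Ω V] [AddCommGroup C]
  [Module Ω C] {W : ℤ → Submodule Ω V} {S : ℤ → Submodule Ω (V × C)} {Z B : ℤ → Submodule Ω C}
  {N : Module.End Ω V} {N' : ℤ → Module.End Ω C} {m : ℤ}

/-- The weight filtration is the monodromy filtration. -/
theorem isMonodromyFiltration_of_page
    (hG : HasGraded W S (fun w => Z (w - m)) (fun w => B (w - m)))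
    (hN : ∀ w v x, (v, x) ∈ S w → (N v, N' (w - m) x) ∈ S (w - 2))
    (hinj : ∀ a : ℕ, 1 ≤ a → ∀ x ∈ Z a, itN N' a a x ∈ B (-a) → x ∈ B a)
    (hsurj : ∀ a : ℕ, 1 ≤ a → ∀ y ∈ Z (-a), ∃ x ∈ Z a, y - itN N' a a x ∈ B (-a)) :
    IsMonodromyFiltration N (fun a => W (m + a)) := by
  refine ⟨fun a b hab => hG.W_mono (by omega), ?_, ?_, ?_, ?_, ?_⟩
  · obtain ⟨w, hw⟩ := hG.W_bot
    refine ⟨w - m, ?_⟩
    show W (m + (w - m)) = ⊥
    rw [show m + (w - m) = w by ring, hw]
  · obtain ⟨w, hw⟩ := hG.W_top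
    refine ⟨w - m, ?_⟩
    show W (m + (w - m)) = ⊤
    rw [show m + (w - m) = w by ring, hw]
  · intro a v hv
    obtain ⟨x, hx⟩ := hG.sp_left _ v hv
    exact W_cast (by ring) (hG.sp_mem _ _ _ (hN _ _ _ hx)).1
  · intro a v hv hNv
    obtain ⟨x, hx⟩ := hG.sp_left _ v hv
    rcases Nat.eq_zero_or_pos a with rfl | ha
    · rw [pow_zero] at hNv
      exact W_cast (by push_cast; ring) hNv
    · have h1 := pow_S hN hx a
      have h2 := (hG.sp_ker _ _ _ h1).1 (W_cast (by ring) hNv)
      have h3 := (hG.sp_mem _ _ _ hx).2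
      try simp only at h2 h3
      rw [show m + (a : ℤ) - 2 * a - m = -a by ring] at h2
      rw [show m + (a : ℤ) - m = a by ring] at h3
      have h5 := hinj a ha x h3 h2
      refine W_cast (by ring) ((hG.sp_ker _ _ _ hx).2 ?_)
      rwa [show m + (a : ℤ) - m = a by ring]
  · intro a v hv
    obtain ⟨y, hy⟩ := hG.sp_left _ v hv
    rcases Nat.eq_zero_or_pos a with rfl | ha
    · refine ⟨v, W_cast (by push_cast; ring) hv, ?_⟩
      rw [pow_zero, Module.End.one_apply, sub_self]
      exact Submodule.zero_mem _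
    · have h1 := (hG.sp_mem _ _ _ hy).2
      try simp only at h1
      rw [show m + -(a : ℤ) - m = -a by ring] at h1
      obtain ⟨x, hx, hxy⟩ := hsurj a ha y h1
      obtain ⟨v', hv'⟩ := hG.sp_right (m + a) x (by
        rwa [show m + (a : ℤ) - m = a by ring])
      refine ⟨v', (hG.sp_mem _ _ _ hv').1, ?_⟩
      have h2 := pow_S hN hv' a
      have h3 : (v - (N ^ a) v', y - itN N' a a x) ∈ S (m + -(a : ℤ)) :=
        Submodule.sub_mem _ hy (S_cast (show m + (a : ℤ) - 2 * a = m + -a by ring) h2)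
      have h6 := (hG.sp_ker _ _ _ h3).2 (by
        try simp only
        rwa [show m + -(a : ℤ) - m = -a by ring])
      exact W_cast (by ring) h6

/-- The weight filtration of the parabolic cohomology is its monodromy filtration. -/
theorem ParabolicCohomology.isMonodromyFiltration {Ω : Type u} [Field Ω] [CharZero Ω] {R : Type}
    [Field R] [LinearOrder R] [IsStrictOrderedRing R] [Algebra R Ω] {q : ℕ}
    (P : ParabolicCohomology.{u, v} Ω R q) :
    IsMonodromyFiltration P.N (fun a => P.W (P.page.k + 1 + a)) :=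
  isMonodromyFiltration_of_page (Z := P.page.cocycles) (B := P.page.coboundaries)
    (N' := P.page.NC) P.graded P.compatible.sp_N
    (fun a ha x hx hN => WeightPage.it_inj P.isGood a ha x hx hN)
    (fun a ha y hy => WeightPage.it_surj P.isGood a ha y hy)

end Pool.Agent.Y143.Par
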