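import Pool.Agent.Y143.Par.Cpf
import Pool.Agent.Y143.Par.MonPage

/-!
# Characteristic polynomials on the graded pieces of the weight filtration
-/

namespace Pool.Agent.Y143.Par

universe u v

open Module Polynomial

variable {Ω : Type u} [Field Ω] [CharZero Ω] {V : Type v} [AddCommGroup V] [Module Ω V]
  [Module.Finite Ω V] {C : Type v} [AddCommGroup C] [Module Ω C] [Module.Finite Ω C]
  {W : ℤ → Submodule Ω V} {S : ℤ → Submodule Ω (V × C)} {Z B : ℤ → Submodule Ω C}

/-- The characteristic polynomials on two consecutive pieces of the weight filtration. -/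
theorem cpf_graded (hG : HasGraded W S Z B) {F π : Module.End Ω V} {F' π' : Module.End Ω C}
    {w : ℤ} (hBZ : B w ≤ Z w) (hW : Good F π (W w)) (hW' : Good F π (W (w - 1)))
    (hZ : Good F' π' (Z w)) (hB : Good F' π' (B w))
    (hS : ∀ v x, (v, x) ∈ S w → (F v, F' x) ∈ S w)
    (hS' : ∀ v x, (v, x) ∈ S w → (π v, π' x) ∈ S w) :
    cpf F π (W w) * cpf F' π' (B w) = cpf F' π' (Z w) * cpf F π (W (w - 1)) := by
  let S' : Submodule Ω (V × C) :=
    { carrier := {p | ∃ x', (p.1, x') ∈ S w ∧ p.2 - x' ∈ B w}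
      add_mem' := by
        rintro ⟨v, x⟩ ⟨v', y⟩ ⟨x', h1, h2⟩ ⟨y', h3, h4⟩
        refine ⟨x' + y', (S w).add_mem h1 h3, ?_⟩
        change (x + y) - (x' + y') ∈ B w
        rw [add_sub_add_comm]
        exact add_mem h2 h4
      zero_mem' := ⟨0, zero_mem _, by simp⟩
      smul_mem' := by
        rintro c ⟨v, x⟩ ⟨x', h1, h2⟩
        refine ⟨c • x', (S w).smul_mem c h1, ?_⟩
        change c • x - c • x' ∈ B w
        rw [← smul_sub]
        exact Submodule.smul_mem _ _ h2 }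
  have hmem : ∀ v x, (v, x) ∈ S' ↔ ∃ x', (v, x') ∈ S w ∧ x - x' ∈ B w := fun _ _ => Iff.rfl
  have hS'W : ∀ v x, (v, x) ∈ S' → v ∈ W w ∧ x ∈ Z w := by
    rintro v x ⟨x', h1, h2⟩
    obtain ⟨h3, h4⟩ := hG.sp_mem _ _ _ h1
    refine ⟨h3, ?_⟩
    rw [show x = (x - x') + x' by abel]
    exact add_mem (hBZ h2) h4
  have hgood : Good (F.prodMap F') (π.prodMap π') S' := by
    refine ⟨?_, ?_, ?_, ?_⟩
    · rintro ⟨v, x⟩ ⟨x', h1, h2⟩
      refine ⟨F' x', hS _ _ h1, ?_⟩
      change F' x - F' x' ∈ B w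
      rw [← map_sub]
      exact hB.stab _ h2
    · rintro ⟨v, x⟩ ⟨x', h1, h2⟩
      refine ⟨π' x', hS' _ _ h1, ?_⟩
      change π' x - π' x' ∈ B w
      rw [← map_sub]
      exact hB.stab' _ h2
    · rintro ⟨v, x⟩ hx
      obtain ⟨h1, h2⟩ := hS'W v x hx
      exact Prod.ext (hW.idem v h1) (hZ.idem x h2)
    · rintro ⟨v, x⟩ hx
      obtain ⟨h1, h2⟩ := hS'W v x hx
      exact Prod.ext (hW.comm v h1) (hZ.comm x h2)
  have e1 : cpf (F.prodMap F') (π.prodMap π') S' =
      cpf (F.prodMap F') (π.prodMap π') ((⊥ : Submodule Ω V).prod (B w)) * cpf F π (W w) := by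
    refine cpf_exact (LinearMap.fst Ω V C) hgood hW (fun x hx => (hS'W x.1 x.2 hx).1) ?_
      (fun _ _ => rfl) (fun _ _ => rfl) ?_
    · intro v hv
      obtain ⟨x, hx⟩ := hG.sp_left _ v hv
      exact ⟨(v, x), ⟨x, hx, by simp⟩, rfl⟩
    · rintro ⟨v, x⟩
      constructor
      · rintro ⟨h1, h2⟩
        have h3 : v = 0 := h1
        subst h3
        exact ⟨⟨0, zero_mem _, by simpa using h2⟩, rfl⟩
      · rintro ⟨⟨x', h1, h2⟩, h3⟩
        have h4 : v = 0 := h3
        subst h4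
        refine ⟨rfl, ?_⟩
        have h5 := (hG.sp_ker _ _ _ h1).1 (zero_mem _)
        change x ∈ B w
        rw [show x = (x - x') + x' by abel]
        exact add_mem h2 h5
  have e2 : cpf (F.prodMap F') (π.prodMap π') S' =
      cpf (F.prodMap F') (π.prodMap π') ((W (w - 1)).prod (⊥ : Submodule Ω C)) *
        cpf F' π' (Z w) := by
    refine cpf_exact (LinearMap.snd Ω V C) hgood hZ (fun x hx => (hS'W x.1 x.2 hx).2) ?_
      (fun _ _ => rfl) (fun _ _ => rfl) ?_
    · intro x hx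
      obtain ⟨v, hv⟩ := hG.sp_right _ x hx
      exact ⟨(v, x), ⟨x, hv, by simp⟩, rfl⟩
    · rintro ⟨v, x⟩
      constructor
      · rintro ⟨h1, h2⟩
        have h3 : x = 0 := h2
        subst h3
        obtain ⟨x', hx'⟩ := hG.sp_left w v (hG.W_mono (show w - 1 ≤ w by omega) h1)
        refine ⟨⟨x', hx', ?_⟩, rfl⟩
        change 0 - x' ∈ B w
        rw [zero_sub]
        exact neg_mem ((hG.sp_ker _ _ _ hx').1 h1)
      · rintro ⟨⟨x', h1, h2⟩, h3⟩
        have h4 : x = 0 := h3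
        subst h4
        refine ⟨?_, rfl⟩
        apply (hG.sp_ker _ _ _ h1).2
        change 0 - x' ∈ B w at h2
        rw [zero_sub] at h2
        exact neg_mem_iff.1 h2
  rw [cpf_prod Good.bot hB, cpf_bot, one_mul] at e1
  rw [cpf_prod hW' Good.bot, cpf_bot, mul_one] at e2
  rw [mul_comm, ← e1, e2, mul_comm]

/-- The kernel of `N`. -/
theorem cpf_ker {N : Module.End Ω V} {M : ℤ → Submodule Ω V} (hM : IsMonodromyFiltration N M)
    {F π : Module.End Ω V} {c : Ω} (hN : ∀ x, N (F x) = c • F (N x)) (hπ : ∀ x, N (π x) = π (N x))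
    (h0 : Good F π (M 0)) (h2 : Good F π (M (-2))) (hc : c ≠ 0) :
    cpf F π (M 0) = cpf F π (LinearMap.ker N) * (cpf F π (M (-2))).scaleRoots c := by
  rw [← cpf_smul hc h2]
  refine cpf_exact N h0 (h2.smul c) ?_ ?_ (fun x _ => hN x) (fun x _ => hπ x) ?_
  · intro x hx
    simpa using hM.map 0 x hx
  · intro y hy
    obtain ⟨x, hx, hxy⟩ := hM.on.surj_exact 2 y (by simpa using hy)
    refine ⟨N x, ?_, ?_⟩
    · have := hM.map _ x hx
      simpa using this
    · rw [← hxy, pow_two]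
      rfl
  · intro x
    constructor
    · intro hx
      exact ⟨by simpa using hM.on.ker_le 0 (y := x) trivial (by simpa using hx), hx⟩
    · exact fun h => h.2

end Pool.Agent.Y143.Par
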