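import Pool.Agent.Y143.Par.Cpf

/-!
# Characteristic polynomials on finite direct sums
-/

namespace Pool.Agent.Y143.Par

universe u v

open Module Polynomial

variable {Ω : Type u} [Field Ω] [CharZero Ω] {ι : Type} {H : ι → Type v}
  [∀ i, AddCommGroup (H i)] [∀ i, Module Ω (H i)]

/-- The sum of endomorphisms. -/
def piEnd (F : ∀ i, Module.End Ω (H i)) : Module.End Ω (∀ i, H i) :=
  LinearMap.pi fun i => F i ∘ₗ LinearMap.proj i

omit [CharZero Ω] in
lemma piEnd_apply (F : ∀ i, Module.End Ω (H i)) (x : ∀ i, H i) (i : ι) :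
    piEnd F x i = F i (x i) := rfl

/-- The elements with `x i ∈ U i` for all `i`, and `x i = 0` for `i ∉ s`. -/
def piSub (U : ∀ i, Submodule Ω (H i)) (s : Finset ι) : Submodule Ω (∀ i, H i) where
  carrier := {x | (∀ i, x i ∈ U i) ∧ ∀ i, i ∉ s → x i = 0}
  add_mem' := fun {x y} hx hy => ⟨fun i => add_mem (hx.1 i) (hy.1 i), fun i hi => by
    rw [Pi.add_apply, hx.2 i hi, hy.2 i hi, add_zero]⟩
  zero_mem' := ⟨fun i => zero_mem _, fun i _ => rfl⟩
  smul_mem' := fun c x hx => ⟨fun i => (U i).smul_mem c (hx.1 i), fun i hi => by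
    rw [Pi.smul_apply, hx.2 i hi, smul_zero]⟩

omit [CharZero Ω] in
lemma Good.pi {F π : ∀ i, Module.End Ω (H i)} {U : ∀ i, Submodule Ω (H i)}
    (h : ∀ i, Good (F i) (π i) (U i)) (s : Finset ι) :
    Good (piEnd F) (piEnd π) (piSub U s) := by
  refine ⟨?_, ?_, ?_, ?_⟩
  · rintro x ⟨hx, hs⟩
    exact ⟨fun i => (h i).stab _ (hx i), fun i hi => by rw [piEnd_apply, hs i hi, map_zero]⟩
  · rintro x ⟨hx, hs⟩
    exact ⟨fun i => (h i).stab' _ (hx i), fun i hi => by rw [piEnd_apply, hs i hi, map_zero]⟩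
  · rintro x ⟨hx, hs⟩
    exact funext fun i => (h i).idem _ (hx i)
  · rintro x ⟨hx, hs⟩
    exact funext fun i => (h i).comm _ (hx i)

variable [Finite ι] [∀ i, Module.Finite Ω (H i)]

theorem cpf_piSub {F π : ∀ i, Module.End Ω (H i)} {U : ∀ i, Submodule Ω (H i)}
    (h : ∀ i, Good (F i) (π i) (U i)) (s : Finset ι) :
    cpf (piEnd F) (piEnd π) (piSub U s) = ∏ i ∈ s, cpf (F i) (π i) (U i) := by
  classical
  induction s using Finset.induction_on with
  | empty =>
    have : piSub U ∅ = ⊥ := by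
      rw [eq_bot_iff]
      rintro x ⟨-, hx⟩
      rw [Submodule.mem_bot]
      exact funext fun i => hx i (Finset.notMem_empty i)
    rw [this, cpf_bot, Finset.prod_empty]
  | insert a s ha ih =>
    rw [Finset.prod_insert ha, ← ih, mul_comm]
    refine cpf_exact (LinearMap.proj a) (Good.pi h _) (h a) (fun x hx => hx.1 a) ?_
      (fun _ _ => rfl) (fun _ _ => rfl) ?_
    · intro y hy
      refine ⟨Pi.single a y, ⟨fun i => ?_, fun i hi => ?_⟩, ?_⟩
      · by_cases hi : i = a
        · subst hi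
          rwa [Pi.single_eq_same]
        · rw [Pi.single_eq_of_ne hi]
          exact zero_mem _
      · rw [Pi.single_eq_of_ne]
        rintro rfl
        exact hi (Finset.mem_insert_self _ _)
      · rw [LinearMap.proj_apply, Pi.single_eq_same]
    · intro x
      constructor
      · rintro ⟨h1, h2⟩
        exact ⟨⟨h1, fun i hi => h2 i fun his => hi (Finset.mem_insert_of_mem his)⟩, h2 a ha⟩
      · rintro ⟨⟨h1, h2⟩, h3⟩
        refine ⟨h1, fun i hi => ?_⟩
        by_cases hia : i = a
        · subst hia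
          exact h3
        · exact h2 i fun hc => (Finset.mem_insert.1 hc).elim hia hi

end Pool.Agent.Y143.Par
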