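import Pool.Agent.Y143.Par.Cp

/-!
# Characteristic polynomials on the image of a projector
-/

namespace Pool.Agent.Y143.Par

universe u v

open Module Polynomial

variable {Ω : Type u} [Field Ω] [CharZero Ω] {V : Type v} [AddCommGroup V] [Module Ω V]
  [Module.Finite Ω V] {V' : Type*} [AddCommGroup V'] [Module Ω V'] [Module.Finite Ω V']

/-- `U` is stable under `F` and `π`, and `π` is idempotent and commutes with `F`. -/
structure Good (F π : Module.End Ω V) (U : Submodule Ω V) : Prop where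
  stab : ∀ x ∈ U, F x ∈ U
  stab' : ∀ x ∈ U, π x ∈ U
  idem : ∀ x ∈ U, π (π x) = π x
  comm : ∀ x ∈ U, π (F x) = F (π x)

/-- The characteristic polynomial of `F` on the part of `U` fixed by `π`. -/
noncomputable def cpf (F π : Module.End Ω V) (U : Submodule Ω V) : Polynomial Ω :=
  cp F (fixed π U)

omit [CharZero Ω] [Module.Finite Ω V] in
lemma mem_fixed {π : Module.End Ω V} {U : Submodule Ω V} {x : V} :
    x ∈ fixed π U ↔ x ∈ U ∧ π x = x := Iff.rfl

omit [CharZero Ω] [Module.Finite Ω V] in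
lemma Good.fixed_stab {F π : Module.End Ω V} {U : Submodule Ω V} (h : Good F π U) :
    ∀ x ∈ fixed π U, F x ∈ fixed π U := by
  intro x hx
  exact ⟨h.stab x hx.1, by rw [h.comm x hx.1, hx.2]⟩

omit [CharZero Ω] [Module.Finite Ω V] in
lemma Good.mono {F π : Module.End Ω V} {U U' : Submodule Ω V} (h : Good F π U) (hle : U' ≤ U)
    (h1 : ∀ x ∈ U', F x ∈ U') (h2 : ∀ x ∈ U', π x ∈ U') : Good F π U' :=
  ⟨h1, h2, fun x hx => h.idem x (hle hx), fun x hx => h.comm x (hle hx)⟩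

omit [CharZero Ω] [Module.Finite Ω V] in
lemma Good.bot {F π : Module.End Ω V} : Good F π ⊥ := by
  refine ⟨?_, ?_, ?_, ?_⟩ <;>
  · intro x hx
    rw [Submodule.mem_bot] at hx
    subst hx
    simp

omit [CharZero Ω] in
lemma cpf_monic (F π : Module.End Ω V) (U : Submodule Ω V) : (cpf F π U).Monic := cp_monic _ _

omit [CharZero Ω] in
lemma cpf_bot (F π : Module.End Ω V) : cpf F π (⊥ : Submodule Ω V) = 1 := by
  have : fixed π (⊥ : Submodule Ω V) = ⊥ := by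
    rw [eq_bot_iff]
    intro x hx
    exact hx.1
  rw [cpf, this, cp_bot]

omit [CharZero Ω] in
lemma Good.hasCharpoly {F π : Module.End Ω V} {U : Submodule Ω V} (h : Good F π U) :
    HasCharpoly F (fixed π U) (cpf F π U) := hasCharpoly_cp h.fixed_stab

lemma cpf_smul {c : Ω} (hc : c ≠ 0) {F π : Module.End Ω V} {U : Submodule Ω V}
    (h : Good F π U) : cpf (c • F) π U = (cpf F π U).scaleRoots c := cp_smul hc h.fixed_stab

omit [CharZero Ω] [Module.Finite Ω V] in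
lemma Good.smul {F π : Module.End Ω V} {U : Submodule Ω V} (h : Good F π U) (c : Ω) :
    Good (c • F) π U := by
  refine ⟨fun x hx => U.smul_mem c (h.stab x hx), h.stab', h.idem, fun x hx => ?_⟩
  rw [LinearMap.smul_apply, LinearMap.smul_apply, map_smul, h.comm x hx]

/-- The characteristic polynomial of an extension. -/
theorem cpf_exact (f : V →ₗ[Ω] V') {F π : Module.End Ω V} {F' π' : Module.End Ω V'}
    {U K : Submodule Ω V} {U' : Submodule Ω V'} (hU : Good F π U) (hU' : Good F' π' U')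
    (hmap : ∀ x ∈ U, f x ∈ U') (hsurj : ∀ y ∈ U', ∃ x ∈ U, f x = y)
    (hF : ∀ x ∈ U, f (F x) = F' (f x)) (hπ : ∀ x ∈ U, f (π x) = π' (f x))
    (hK : ∀ x, x ∈ K ↔ x ∈ U ∧ f x = 0) : cpf F π U = cpf F π K * cpf F' π' U' := by
  have hKg : Good F π K := by
    refine hU.mono (fun x hx => ((hK x).1 hx).1) ?_ ?_
    · intro x hx
      obtain ⟨h1, h2⟩ := (hK x).1 hx
      exact (hK _).2 ⟨hU.stab x h1, by rw [hF x h1, h2, map_zero]⟩
    · intro x hx
      obtain ⟨h1, h2⟩ := (hK x).1 hx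
      exact (hK _).2 ⟨hU.stab' x h1, by rw [hπ x h1, h2, map_zero]⟩
  apply cp_exact f hU.fixed_stab hKg.fixed_stab hU'.fixed_stab
  · intro x hx
    exact ⟨hmap x hx.1, by rw [← hπ x hx.1, hx.2]⟩
  · rintro y ⟨hy, hy'⟩
    obtain ⟨x, hx, rfl⟩ := hsurj y hy
    exact ⟨π x, ⟨hU.stab' x hx, hU.idem x hx⟩, by rw [hπ x hx, hy']⟩
  · intro x hx h0
    exact ⟨(hK x).2 ⟨hx.1, h0⟩, hx.2⟩
  · intro x hx
    obtain ⟨h1, h2⟩ := (hK x).1 hx.1
    exact ⟨⟨h1, hx.2⟩, h2⟩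
  · intro x hx
    exact hF x hx.1

/-- The characteristic polynomial is invariant under isomorphisms. -/
theorem cpf_iso (f : V →ₗ[Ω] V') {F π : Module.End Ω V} {F' π' : Module.End Ω V'}
    {U : Submodule Ω V} {U' : Submodule Ω V'} (hU : Good F π U) (hU' : Good F' π' U')
    (hmap : ∀ x ∈ U, f x ∈ U') (hsurj : ∀ y ∈ U', ∃ x ∈ U, f x = y)
    (hF : ∀ x ∈ U, f (F x) = F' (f x)) (hπ : ∀ x ∈ U, f (π x) = π' (f x))
    (hinj : ∀ x ∈ U, f x = 0 → x = 0) : cpf F π U = cpf F' π' U' := by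
  rw [cpf_exact (K := ⊥) f hU hU' hmap hsurj hF hπ, cpf_bot, one_mul]
  intro x
  rw [Submodule.mem_bot]
  refine ⟨?_, fun h => hinj x h.1 h.2⟩
  rintro rfl
  exact ⟨zero_mem _, map_zero f⟩

omit [CharZero Ω] [Module.Finite Ω V] [Module.Finite Ω V'] in
lemma Good.prod {F π : Module.End Ω V} {F' π' : Module.End Ω V'} {U : Submodule Ω V}
    {U' : Submodule Ω V'} (h : Good F π U) (h' : Good F' π' U') :
    Good (F.prodMap F') (π.prodMap π') (U.prod U') := by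
  refine ⟨?_, ?_, ?_, ?_⟩
  · rintro ⟨x, y⟩ ⟨hx, hy⟩
    exact ⟨h.stab x hx, h'.stab y hy⟩
  · rintro ⟨x, y⟩ ⟨hx, hy⟩
    exact ⟨h.stab' x hx, h'.stab' y hy⟩
  · rintro ⟨x, y⟩ ⟨hx, hy⟩
    exact Prod.ext (h.idem x hx) (h'.idem y hy)
  · rintro ⟨x, y⟩ ⟨hx, hy⟩
    exact Prod.ext (h.comm x hx) (h'.comm y hy)

theorem cpf_prod {F π : Module.End Ω V} {F' π' : Module.End Ω V'} {U : Submodule Ω V}
    {U' : Submodule Ω V'} (h : Good F π U) (h' : Good F' π' U') :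
    cpf (F.prodMap F') (π.prodMap π') (U.prod U') = cpf F π U * cpf F' π' U' := by
  rw [cpf_exact (K := U.prod ⊥) (LinearMap.snd Ω V V') (h.prod h') h' (fun x hx => hx.2)
    (fun y hy => ⟨(0, y), ⟨zero_mem _, hy⟩, rfl⟩) (fun _ _ => rfl) (fun _ _ => rfl)]
  · congr 1
    refine cpf_iso (LinearMap.fst Ω V V') (h.prod Good.bot) h (fun x hx => hx.1)
      (fun y hy => ⟨(y, 0), ⟨hy, zero_mem _⟩, rfl⟩) (fun _ _ => rfl) (fun _ _ => rfl) ?_
    rintro ⟨x, y⟩ ⟨hx, hy⟩ h0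
    exact Prod.ext h0 hy
  · rintro ⟨x, y⟩
    constructor
    · rintro ⟨h1, h2⟩
      have h3 : y = 0 := h2
      subst h3
      exact ⟨⟨h1, zero_mem _⟩, rfl⟩
    · rintro ⟨⟨h1, h2⟩, h3⟩
      exact ⟨h1, h3⟩

end Pool.Agent.Y143.Par
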