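import Pool.Agent.Y143.Par.Mat

/-!
# Families of vectors
-/

namespace Pool.Agent.Y143.Par

universe u v

open Matrix

variable {κ : Type} (I J : κ → Type) (T : κ → Type v)

/-- Families of vectors `x c i ∈ T c`, for `i ∈ I c`. -/
def Fam : Type v := ∀ c, I c → T c

instance instGroupFam [∀ c, AddCommGroup (T c)] : AddCommGroup (Fam I T) :=
  (Pi.addCommGroup : AddCommGroup (∀ c, I c → T c))

variable (Ω : Type u) [Field Ω] [∀ c, AddCommGroup (T c)] [∀ c, Module Ω (T c)]

instance instModuleFam : Module Ω (Fam I T) := (Pi.module _ _ _ : Module Ω (∀ c, I c → T c))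

instance instFiniteFam [Finite κ] [∀ c, Finite (I c)] [∀ c, Module.Finite Ω (T c)] :
    Module.Finite Ω (Fam I T) := inferInstanceAs (Module.Finite Ω (∀ c, I c → T c))

variable {I J}

/-- The action of matrices on families. -/
def famMat {R : Type*} [CommRing R] [Algebra R Ω] [∀ c, Fintype (I c)] [∀ c, Fintype (J c)]
    (M : ∀ c, Matrix (J c) (I c) R) : Fam I T →ₗ[Ω] Fam J T :=
  LinearMap.pi fun c => matMap Ω (T c) (M c) ∘ₗ LinearMap.proj c

/-- The action of endomorphisms on families. -/
def famEnd (F : ∀ c, Module.End Ω (T c)) : Module.End Ω (Fam I T) :=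
  LinearMap.pi fun c => LinearMap.pi fun i => F c ∘ₗ LinearMap.proj i ∘ₗ LinearMap.proj c

end Pool.Agent.Y143.Par
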