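import Pool.Agent.Y143.Defs
import Pool.Agent.Y143.Par.Fam

/-!
# The weight spectral sequence of a local system on a curve over a local field: definitions

`O` is a henselian discrete valuation ring with finite residue field with `q` elements, `C` is a
smooth projective curve over the fraction field `K` with a strictly semistable model `𝒞` over `O`
and a finite set of cusps which extend to disjoint sections of the smooth locus of `𝒞`. We consider
`H^1(C_{\bar K}, j_* S)` for the sheaf `S = Sym^k R^1 f_* Ω` of an elliptic curve `f` over the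
complement `j : U → C` of the cusps, which has semistable reduction over `𝒞` and constant level
`N`-structure for some `N ≥ 3` (or for a similar sheaf). A component `C_v` of the special fibre of
`𝒞` is called

* multiplicative, if the elliptic curve has multiplicative reduction at the generic point of `C_v`;
* constant, if it has good reduction over `C_v` and is constant there;
* varying otherwise; in this case `H^0(C_v, S) = 0` if `k ≥ 1`, as the geometric monodromy is open
  in `SL_2`.
-/

namespace Pool.Agent.Y143.Par

universe u v

open Module Matrix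

/-- A finite graph: each edge has two ends; an end is a vertex or `none` (an open end). -/
structure Graph where
  Vert : Type
  Edge : Type
  [fintypeVert : Fintype Vert]
  [fintypeEdge : Fintype Edge]
  fst : Edge → Option Vert
  snd : Edge → Option Vert

attribute [instance] Graph.fintypeVert Graph.fintypeEdge

open Classical in
/-- The incidence matrix of a graph: the entry at `(e, v)` is `1` if `v` is the first end of `e`,
and `-1` if `v` is the second end of `e`. -/
noncomputable def Graph.inc (G : Graph) (R : Type*) [Ring R] : Matrix G.Edge G.Vert R := fun e v =>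
  (if G.fst e = some v then 1 else 0) - (if G.snd e = some v then 1 else 0)

/-- The value at an end of an edge of a function on the vertices, extended by zero. -/
def Graph.endVal {R : Type*} [Zero R] {G : Graph} (f : G.Vert → R) : Option G.Vert → R
  | none => 0
  | some v => f v

/-- The terms of the contribution of the multiplicative components. The connected families of
multiplicative components are numbered by `Cl`; `graph c` is the graph with a vertex for each
component of the family and an edge for each double point on it (an end of an edge is open if it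
corresponds to a component which is not multiplicative), `T c` is the part of monodromy weight `-k`
of `S` on the family (one-dimensional), and `val c v > 0` is the valuation of the `q`-parameter of
the elliptic curve along the component `v`. In the monodromy weights `κ` with `|κ| ≤ k - 1` the terms
of the weight spectral sequence are identified with each other by `N`: they are

`H^0(gr_(κ + 1) S) = ⨁_v T ⟶ mid = ⨁ (contributions of the double points and of the cusps) ⟶
  H^2(gr_(κ - 1) S) = ⨁_v T`.

In the monodromy weights `-(k + 1)` and `k + 1` they are `⨁_v T ⟶ ⨁_e T` and `⨁_e T ⟶ ⨁_v T`. The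
operators `frob` and `frobMid` give the action of the Frobenius up to Tate twists. -/
structure MultiplicativeTerms (Ω : Type u) [Field Ω] (R : Type) where
  Cl : Type
  [fintypeCl : Fintype Cl]
  graph : Cl → Graph
  val : ∀ c, (graph c).Vert → R
  T : Cl → Type v
  [addCommGroupT : ∀ c, AddCommGroup (T c)]
  [moduleT : ∀ c, Module Ω (T c)]
  [finiteT : ∀ c, Module.Finite Ω (T c)]
  frob : ∀ c, Module.End Ω (T c)
  mid : Type v
  [addCommGroupMid : AddCommGroup mid]
  [moduleMid : Module Ω mid]
  [finiteMid : Module.Finite Ω mid]
  frobMid : Module.End Ω mid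

attribute [instance] MultiplicativeTerms.fintypeCl MultiplicativeTerms.addCommGroupT
  MultiplicativeTerms.moduleT MultiplicativeTerms.finiteT MultiplicativeTerms.addCommGroupMid
  MultiplicativeTerms.moduleMid MultiplicativeTerms.finiteMid

namespace MultiplicativeTerms

variable {Ω : Type u} [Field Ω] {R : Type} (P : MultiplicativeTerms.{u, v} Ω R)

/-- `⨁_v T`, the sum over the components. -/
def A : Type v := Fam (fun c => (P.graph c).Vert) P.T

/-- `⨁_e T`, the sum over the double points. -/
def B : Type v := Fam (fun c => (P.graph c).Edge) P.T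

instance : AddCommGroup P.A := instGroupFam (fun c => (P.graph c).Vert) P.T

instance : Module Ω P.A := instModuleFam (fun c => (P.graph c).Vert) P.T Ω

instance : AddCommGroup P.B := instGroupFam (fun c => (P.graph c).Edge) P.T

instance : Module Ω P.B := instModuleFam (fun c => (P.graph c).Edge) P.T Ω

instance : Module.Finite Ω P.B := instFiniteFam (fun c => (P.graph c).Edge) P.T Ω

/-- The action of the Frobenius on `⨁_v T`. -/
def frobA : Module.End Ω P.A := famEnd P.T Ω P.frob

/-- The action of the Frobenius on `⨁_e T`. -/
def frobB : Module.End Ω P.B := famEnd P.T Ω P.frob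

/-- The map `⨁_v T ⟶ ⨁_e T`: the difference of the values at the two ends. -/
noncomputable def d [CommRing R] [Algebra R Ω] : P.A →ₗ[Ω] P.B :=
  famMat P.T Ω fun c => (P.graph c).inc R

/-- The map `⨁_e T ⟶ ⨁_v T`, the transpose of the preceding one. -/
noncomputable def d' [CommRing R] [Algebra R Ω] : P.B →ₗ[Ω] P.A :=
  famMat P.T Ω fun c => ((P.graph c).inc R)ᵀ

/-- The length of an edge: `∑_(i + j = k) a ^ i b ^ j`, where `a` and `b` are the valuations of the
`q`-parameter along the two components through the double point. -/
def len [CommRing R] (k : ℕ) (c : P.Cl) (e : (P.graph c).Edge) : R :=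
  ∑ i ∈ Finset.range (k + 1), Graph.endVal (P.val c) ((P.graph c).fst e) ^ i *
    Graph.endVal (P.val c) ((P.graph c).snd e) ^ (k - i)

/-- The multiplication by `len`. -/
def mulLen [CommRing R] [Algebra R Ω] (k : ℕ) (x : P.B) : P.B :=
  fun c e => algebraMap R Ω (P.len k c e) • x c e

end MultiplicativeTerms

/-- The contribution of the multiplicative components, with the maps `toMid` and `fromMid` (the
differentials) and `up` and `down` (the action of `N` between the terms of monodromy weight
`±(k + 1)` and the middle terms). -/
structure MultiplicativePart (Ω : Type u) [Field Ω] (R : Type) extends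
    MultiplicativeTerms.{u, v} Ω R where
  toMid : toMultiplicativeTerms.A →ₗ[Ω] mid
  fromMid : mid →ₗ[Ω] toMultiplicativeTerms.A
  down : mid →ₗ[Ω] toMultiplicativeTerms.B
  up : toMultiplicativeTerms.B →ₗ[Ω] mid

section

variable {Ω : Type u} [Field Ω] {R : Type} [Field R] [LinearOrder R] [Algebra R Ω]

/-- The valuations are positive, and each double point lies on a multiplicative component. -/
structure MultiplicativeTerms.IsPositive (P : MultiplicativeTerms.{u, v} Ω R) : Prop where
  val_pos : ∀ c v, 0 < P.val c v
  not_open : ∀ c e, ¬ ((P.graph c).fst e = none ∧ (P.graph c).snd e = none)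

/-- The eigenvalues of the Frobenius are Weil numbers (of weight `0`, up to Tate twists). -/
structure MultiplicativeTerms.IsPure (P : MultiplicativeTerms.{u, v} Ω R) [CharZero Ω] (q : ℕ) :
    Prop where
  weil : ∀ c (α : Ω) x, x ≠ 0 → P.frob c x = α • x → IsWeilNumber q 0 α
  weil_mid : ∀ (α : Ω) x, x ≠ 0 → P.frobMid x = α • x → IsWeilNumber q 0 α

/-- The middle terms form a complex, and the differentials are compatible with `N`. -/
structure MultiplicativePart.IsComplex (P : MultiplicativePart.{u, v} Ω R) : Prop where
  from_to : ∀ x, P.fromMid (P.toMid x) = 0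
  down_to : ∀ x, P.down (P.toMid x) = P.d x
  from_up : ∀ x, P.fromMid (P.up x) = P.d' x

/-- The properties of the contribution of the multiplicative components: moreover, `N ^ (k + 1)` is
the multiplication by `len`, and the differentials are compatible with the Frobenius. -/
structure MultiplicativePart.IsGood (P : MultiplicativePart.{u, v} Ω R) [CharZero Ω] (q k : ℕ) :
    Prop where
  positive : P.IsPositive
  isPure : P.IsPure q
  complex : P.IsComplex
  down_up : ∀ x, P.down (P.up x) = P.mulLen k x
  frob_to : ∀ x, P.frobMid (P.toMid x) = P.toMid (P.frobA x)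

end

/-- The contribution of the components and double points with good reduction to the columns
`-1` and `1` of the weight spectral sequence. The terms in the column `1` are

`⨁_v H^0(C_v, S) = ⨁_τ (L'_τ ⊗ T_τ) ⟶ ⨁_e S_e = ⨁_τ (L_τ ⊗ T_τ)`,

where the sums are over the components `v` and the double points `e` with good reduction, the `T_τ`
are representations of the Frobenius of weight `k`, `L'_τ` and `L_τ` are vector spaces over the
ordered field `R` with bases `Vert τ` and `Edge τ`, and the map is given by a linear map
`L'_τ → L_τ` with matrix `res τ`. The terms in the column `-1` are dual to these; the map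

`⨁_e S_e(-1) = ⨁_τ (L_τ ⊗ T_τ)(-1) ⟶ ⨁_v H^2(C_v, S) = ⨁_τ (L'_τ ⊗ T_τ)(-1)`

is the adjoint for the positive definite form `form τ` on `L_τ`. For `S = Sym^k R^1 f_* Ω` the `τ`
are the connected families of constant components, with `T_τ = Sym^k H^1(E_τ)`, `res τ` the incidence
matrix of the graph of the family, and `form τ = 1`; and the remaining double points (without
vertices). -/
structure GoodPart (Ω : Type u) [Field Ω] (R : Type) [Field R] [LinearOrder R] [Algebra R Ω] where
  Ty : Type
  [fintypeTy : Fintype Ty]
  Vert : Ty → Type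
  Edge : Ty → Type
  [fintypeVert : ∀ τ, Fintype (Vert τ)]
  [fintypeEdge : ∀ τ, Fintype (Edge τ)]
  res : ∀ τ, Matrix (Edge τ) (Vert τ) R
  form : ∀ τ, Matrix (Edge τ) (Edge τ) R
  T : Ty → Type v
  [addCommGroupT : ∀ τ, AddCommGroup (T τ)]
  [moduleT : ∀ τ, Module Ω (T τ)]
  [finiteT : ∀ τ, Module.Finite Ω (T τ)]
  frob : ∀ τ, Module.End Ω (T τ)

attribute [instance] GoodPart.fintypeTy GoodPart.fintypeVert GoodPart.fintypeEdge
  GoodPart.addCommGroupT GoodPart.moduleT GoodPart.finiteT

namespace GoodPart

variable {Ω : Type u} [Field Ω] {R : Type} [Field R] [LinearOrder R] [Algebra R Ω]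
  (P : GoodPart.{u, v} Ω R)

/-- `⨁_τ (L'_τ ⊗ T_τ)`. -/
def A : Type v := Fam P.Vert P.T

/-- `⨁_τ (L_τ ⊗ T_τ)`. -/
def B : Type v := Fam P.Edge P.T

instance : AddCommGroup P.A := instGroupFam P.Vert P.T

instance : Module Ω P.A := instModuleFam P.Vert P.T Ω

instance : AddCommGroup P.B := instGroupFam P.Edge P.T

instance : Module Ω P.B := instModuleFam P.Edge P.T Ω

instance : Module.Finite Ω P.B := instFiniteFam P.Edge P.T Ω

/-- The action of the Frobenius on `⨁_τ (L_τ ⊗ T_τ)`. -/
def frobB : Module.End Ω P.B := famEnd P.T Ω P.frob

/-- The map `⨁_v H^0(C_v, S) ⟶ ⨁_e S_e`. -/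
def d : P.A →ₗ[Ω] P.B := famMat P.T Ω P.res

/-- The map `⨁_e S_e(-1) ⟶ ⨁_v H^2(C_v, S)`. -/
def d' : P.B →ₗ[Ω] P.A := famMat P.T Ω fun τ => (P.res τ)ᵀ * P.form τ

/-- The forms are positive definite and the eigenvalues of the Frobenius are Weil numbers of weight
`k`. -/
structure IsGood [CharZero Ω] (q k : ℕ) : Prop where
  posDef : ∀ τ, IsPosDef (P.form τ)
  weil : ∀ τ (α : Ω) x, x ≠ 0 → P.frob τ x = α • x → IsWeilNumber q k α

end GoodPart

/-- The sum of the `H^1(C_v, j_* gr_κ S)`, where `gr_κ S` is the graded piece of monodromy weight `κ`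
of `S` on `C_v`. -/
structure PurePart (Ω : Type u) [Field Ω] where
  M : Type v
  [addCommGroup : AddCommGroup M]
  [module : Module Ω M]
  [finite : Module.Finite Ω M]
  gr : ℤ → Submodule Ω M
  N : Module.End Ω M
  frob : Module.End Ω M

attribute [instance] PurePart.addCommGroup PurePart.module PurePart.finite

/-- `N ^ a` is an isomorphism from the part of monodromy weight `a` to the part of monodromy weight
`-a`, and the eigenvalues of the Frobenius on the part of monodromy weight `κ` are Weil numbers of
weight `k + 1 + κ`. -/
structure PurePart.IsGood {Ω : Type u} [Field Ω] (P : PurePart.{u, v} Ω) [CharZero Ω] (q k : ℕ) :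
    Prop where
  inj : ∀ (a : ℕ) x, x ∈ P.gr a → (P.N ^ a) x = 0 → x = 0
  surj : ∀ (a : ℕ) y, y ∈ P.gr (-a) → ∃ x ∈ P.gr a, (P.N ^ a) x = y
  weil : ∀ κ (α : Ω) x, x ∈ P.gr κ → x ≠ 0 → P.frob x = α • x → IsWeilNumber q (k + 1 + κ) α

/-- The weight spectral sequence of `H^1(C_{\bar K}, j_* S)`, where `S` has weight `k`. -/
structure WeightPage (Ω : Type u) [Field Ω] (R : Type) [Field R] [LinearOrder R]
    [Algebra R Ω] where
  k : ℕ
  mult : MultiplicativePart.{u, v} Ω R
  good : GoodPart.{u, v} Ω R
  pure : PurePart.{u, v} Ω

/-- The sum of the terms of the weight spectral sequence: `B₁` and `X` are the terms of the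
multiplicative part, `B₂` those of the good part, and `M` those of the pure part. -/
def Terms (B₁ X B₂ M : Type v) : Type v := (B₁ × X) × (B₂ × M)

section Terms

variable (Ω : Type u) [Field Ω] (B₁ X B₂ M : Type v) [AddCommGroup B₁] [AddCommGroup X]
  [AddCommGroup B₂] [AddCommGroup M]

instance instGroupTerms : AddCommGroup (Terms B₁ X B₂ M) :=
  (Prod.instAddCommGroup : AddCommGroup ((B₁ × X) × (B₂ × M)))

variable [Module Ω B₁] [Module Ω X] [Module Ω B₂] [Module Ω M]

instance instModuleTerms : Module Ω (Terms B₁ X B₂ M) := (Prod.instModule : Module Ω ((B₁ × X) × (B₂ × M)))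

instance instFiniteTerms [Module.Finite Ω B₁] [Module.Finite Ω X] [Module.Finite Ω B₂]
    [Module.Finite Ω M] : Module.Finite Ω (Terms B₁ X B₂ M) := inferInstanceAs (Module.Finite Ω ((B₁ × X) × (B₂ × M)))

variable {Ω B₁ X B₂ M}

/-- The sum of subspaces. -/
def Terms.sub (Z₁ : Submodule Ω B₁) (Z₂ : Submodule Ω X) (Z₃ : Submodule Ω B₂)
    (Z₄ : Submodule Ω M) : Submodule Ω (Terms B₁ X B₂ M) := (Z₁.prod Z₂).prod (Z₃.prod Z₄)

/-- The sum of endomorphisms. -/
def Terms.diag (F₁ : Module.End Ω B₁) (F₂ : Module.End Ω X) (F₃ : Module.End Ω B₂)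
    (F₄ : Module.End Ω M) : Module.End Ω (Terms B₁ X B₂ M) :=
  (F₁.prodMap F₂).prodMap (F₃.prodMap F₄)

/-- The endomorphism `(e, x, g, y) ↦ (δ x, υ e + F₂ x, F₃ g, F₄ y)`. -/
def Terms.mono (δ : X →ₗ[Ω] B₁) (υ : B₁ →ₗ[Ω] X) (F₂ : Module.End Ω X) (F₃ : Module.End Ω B₂)
    (F₄ : Module.End Ω M) : Module.End Ω (Terms B₁ X B₂ M) :=
  (LinearMap.prod (δ ∘ₗ LinearMap.snd Ω B₁ X)
    (υ ∘ₗ LinearMap.fst Ω B₁ X + F₂ ∘ₗ LinearMap.snd Ω B₁ X)).prodMap (F₃.prodMap F₄)

end Terms

namespace WeightPage

variable {Ω : Type u} [Field Ω] {R : Type} [Field R] [LinearOrder R] [Algebra R Ω]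
  (P : WeightPage.{u, v} Ω R)

/-- The sum of the terms. -/
def C : Type v := Terms P.mult.B P.mult.mid P.good.B P.pure.M

instance : AddCommGroup P.C := instGroupTerms P.mult.B P.mult.mid P.good.B P.pure.M

instance : Module Ω P.C := instModuleTerms Ω P.mult.B P.mult.mid P.good.B P.pure.M

instance : Module.Finite Ω P.C := instFiniteTerms Ω P.mult.B P.mult.mid P.good.B P.pure.M

/-- The monodromy weights of the middle terms of the multiplicative part. -/
def InMid (κ : ℤ) : Prop := |κ| < P.k ∧ 2 ∣ P.k + 1 + κ

instance (κ : ℤ) : Decidable (P.InMid κ) := inferInstanceAs (Decidable (_ ∧ _))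

/-- The cocycles of monodromy weight `κ`. -/
noncomputable def cocycles (κ : ℤ) : Submodule Ω P.C :=
  Terms.sub (if κ = P.k + 1 then LinearMap.ker P.mult.d' else if κ = -(P.k + 1) then ⊤ else ⊥)
    (if P.InMid κ then LinearMap.ker P.mult.fromMid else ⊥)
    (if κ = 1 then LinearMap.ker P.good.d' else if κ = -1 then ⊤ else ⊥) (P.pure.gr κ)

/-- The coboundaries of monodromy weight `κ`. -/
noncomputable def coboundaries (κ : ℤ) : Submodule Ω P.C :=
  Terms.sub (if κ = -(P.k + 1) then LinearMap.range P.mult.d else ⊥)
    (if P.InMid κ then LinearMap.range P.mult.toMid else ⊥)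
    (if κ = -1 then LinearMap.range P.good.d else ⊥) ⊥

/-- The action of the Frobenius on the terms of monodromy weight `κ`. -/
def frobC (q : ℕ) (κ : ℤ) : Module.End Ω P.C :=
  Terms.diag (((q : Ω) ^ ((P.k + 1 + κ) / 2)) • P.mult.frobB)
    (((q : Ω) ^ ((P.k + 1 + κ) / 2)) • P.mult.frobMid)
    (((q : Ω) ^ ((κ + 1) / 2)) • P.good.frobB) P.pure.frob

/-- The action of `N` on the terms of monodromy weight `κ`: on the multiplicative part, it is given
by `up`, the identity of `mid`, and `down`; on the good part by the identity for `κ = 1`. -/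
def NC (κ : ℤ) : Module.End Ω P.C :=
  Terms.mono (if κ = 1 - P.k then P.mult.down else 0) (if κ = P.k + 1 then P.mult.up else 0)
    (if κ = 1 - P.k then 0 else 1) (if κ = 1 then 1 else 0) P.pure.N

/-- The properties of the terms of the weight spectral sequence; there is no multiplicative part for
`k = 0`. -/
structure IsGood [CharZero Ω] (q : ℕ) : Prop where
  isEmpty : P.k = 0 → IsEmpty P.mult.Cl
  mult : P.mult.IsGood q P.k
  good : P.good.IsGood q P.k
  pure : P.pure.IsGood q P.k

end WeightPage

/-- The data given by `H^1(C_{\bar K}, j_* S)`: the action `frob` of a geometric Frobenius element,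
the logarithm `N` of the monodromy, the weight filtration `W` and the identification `sp` of its
graded pieces with the terms of the weight spectral sequence (given by its graph). -/
structure ParabolicData (Ω : Type u) [Field Ω] (R : Type) [Field R] [LinearOrder R]
    [Algebra R Ω] where
  page : WeightPage.{u, v} Ω R
  H : Type v
  [addCommGroup : AddCommGroup H]
  [module : Module Ω H]
  frob : Module.End Ω H
  N : Module.End Ω H
  W : ℤ → Submodule Ω H
  sp : ℤ → Submodule Ω (H × page.C)

attribute [instance] ParabolicData.addCommGroup ParabolicData.module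

/-- The parabolic cohomology `H^1(C_{\bar K}, j_* S)` with its weight spectral sequence: the graded
piece of weight `w` is the `E_2`-term of monodromy weight `κ = w - (k + 1)`. -/
structure ParabolicCohomology (Ω : Type u) [Field Ω] [CharZero Ω] (R : Type) [Field R]
    [LinearOrder R] [Algebra R Ω] (q : ℕ) extends ParabolicData.{u, v} Ω R where
  isGood : page.IsGood q
  graded : HasGraded W sp (fun w => page.cocycles (w - (page.k + 1)))
    (fun w => page.coboundaries (w - (page.k + 1)))
  compatible : IsCompatible (Γ := Unit) sp (fun _ => frob)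
    (fun w _ => page.frobC q (w - (page.k + 1))) N (fun w => page.NC (w - (page.k + 1)))

/-- The weight `k` of the sheaf `S`. -/
def ParabolicCohomology.k {Ω : Type u} [Field Ω] [CharZero Ω] {R : Type} [Field R]
    [LinearOrder R] [Algebra R Ω] {q : ℕ} (P : ParabolicCohomology.{u, v} Ω R q) : ℕ := P.page.k

end Pool.Agent.Y143.Par
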