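import Pool.Agent.Y143.Par.FixDefs
import Pool.Agent.Y143.Par.Defs

/-!
# Operators on the weight spectral sequence of the parabolic cohomology

If the family has semistable reduction only over a finite Galois extension `L` of the local field
`K`, the structure `ParabolicCohomology` describes a geometric Frobenius element of `L` and the
logarithm of the monodromy. Here we consider operators on `H` and on the terms (given by elements of
the Weil group of `K`, which may permute the components, or by algebraic correspondences).
-/

namespace Pool.Agent.Y143.Par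

universe u v

open Module

section Page

variable {Ω : Type u} [Field Ω] {R : Type} [Field R] [LinearOrder R] [Algebra R Ω]

instance (P : MultiplicativeTerms.{u, v} Ω R) : Module.Finite Ω P.A :=
  instFiniteFam (fun c => (P.graph c).Vert) P.T Ω

instance (P : GoodPart.{u, v} Ω R) : Module.Finite Ω P.A := instFiniteFam P.Vert P.T Ω

/-- An operator on the terms of the weight spectral sequence: the sums `A` over the components and
the sums `B` over the double points, the middle terms `mid`, and the pure part `M`. -/
structure Operator (P : WeightPage.{u, v} Ω R) where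
  A : Module.End Ω P.mult.A
  B : Module.End Ω P.mult.B
  mid : Module.End Ω P.mult.mid
  goodA : Module.End Ω P.good.A
  goodB : Module.End Ω P.good.B
  M : Module.End Ω P.pure.M

/-- The sum of the endomorphisms `c • F₁`, `c • F₂`, `c' • F₃` and `F₄`. -/
def Terms.twist {B₁ X B₂ M : Type v} [AddCommGroup B₁] [AddCommGroup X] [AddCommGroup B₂]
    [AddCommGroup M] [Module Ω B₁] [Module Ω X] [Module Ω B₂] [Module Ω M] (c c' : Ω)
    (F₁ : Module.End Ω B₁) (F₂ : Module.End Ω X) (F₃ : Module.End Ω B₂) (F₄ : Module.End Ω M) :
    Module.End Ω (Terms B₁ X B₂ M) := Terms.diag (c • F₁) (c • F₂) (c' • F₃) F₄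

variable {P : WeightPage.{u, v} Ω R}

/-- The action on the terms of monodromy weight `κ` of an operator of degree `lam` (the terms are
Tate twists of `B`, `mid` and `goodB`). -/
def Operator.act (T : Operator P) (lam : Ω) (κ : ℤ) : Module.End Ω P.C :=
  Terms.twist (lam ^ ((P.k + 1 + κ) / 2)) (lam ^ ((κ + 1) / 2)) T.B T.mid T.goodB T.M

/-- The operator `T` is compatible with the differentials. -/
structure Operator.IsCompatible (T : Operator P) : Prop where
  d : Commutes P.mult.d T.A T.B
  toMid : Commutes P.mult.toMid T.A T.mid
  fromMid : Commutes P.mult.fromMid T.mid T.A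
  good : Commutes P.good.d T.goodA T.goodB
  pure : ∀ κ, IsStable T.M (P.pure.gr κ)

/-- `π` is a projector commuting with `T`. -/
structure Operator.IsProjector (π T : Operator P) : Prop where
  A : IsProj π.A T.A
  B : IsProj π.B T.B
  mid : IsProj π.mid T.mid
  goodA : IsProj π.goodA T.goodA
  goodB : IsProj π.goodB T.goodB
  M : IsProj π.M T.M

end Page

/-- Polynomials with coefficients in the ring `𝒪`: the characteristic polynomials on the terms of the
weight spectral sequence and on the kernel `goodKer` of the map `goodA ⟶ goodB`. -/
structure EulerData (𝒪 : Type) [CommRing 𝒪] where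
  k : ℕ
  A : Polynomial 𝒪
  B : Polynomial 𝒪
  mid : Polynomial 𝒪
  goodA : Polynomial 𝒪
  goodB : Polynomial 𝒪
  goodKer : Polynomial 𝒪
  M : ℤ → Polynomial 𝒪

section

variable {Ω : Type u} [Field Ω] {R : Type} [Field R] [LinearOrder R] [Algebra R Ω]

/-- The characteristic polynomials of `T` on the parts fixed by `π` of the terms of the weight
spectral sequence are given by the polynomials `S` with coefficients in `𝒪`. The pure part has only
monodromy weights `≥ - k`. -/
structure EulerData.Describes {𝒪 : Type} [CommRing 𝒪] [Algebra 𝒪 Ω] (S : EulerData 𝒪)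
    {P : WeightPage.{u, v} Ω R} (T π : Operator P) : Prop where
  k : P.k = S.k
  A : HasPoly T.A π.A ⊤ S.A
  B : HasPoly T.B π.B ⊤ S.B
  mid : HasPoly T.mid π.mid ⊤ S.mid
  goodA : HasPoly T.goodA π.goodA ⊤ S.goodA
  goodB : HasPoly T.goodB π.goodB ⊤ S.goodB
  goodKer : HasPoly T.goodA π.goodA (LinearMap.ker P.good.d) S.goodKer
  M : ∀ κ, HasPoly T.M π.M (P.pure.gr κ) (S.M κ)
  bound : ∀ κ < -(S.k : ℤ), S.M κ = 1

variable [CharZero Ω] {q₀ : ℕ}

/-- The operator `F` on `H` has degree `lam`: `N F = lam F N`, and it acts as `T` on the graded
pieces of the weight filtration. -/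
structure ParabolicCohomology.Lifts (P : ParabolicCohomology.{u, v} Ω R q₀) (F : Module.End Ω P.H)
    (T : Operator P.page) (lam : Ω) : Prop where
  compatible : T.IsCompatible
  N : Commutes P.N F (lam • F)
  sp : ∀ w, Acts (P.sp w) F (T.act lam (w - (P.page.k + 1)))

/-- A realization over the field `Ω` of the data `S`: a parabolic cohomology group (with the Frobenius
of the residue field of `L` with `q₀` elements), with an operator `F` of degree `q` (given by a
geometric Frobenius element of `K`) and a projector `π` commuting with `F`. The injectivity of `d`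
means that each family of multiplicative components has an open end (it holds if the family of
elliptic curves is not isotrivial). -/
structure Realization {𝒪 : Type} [CommRing 𝒪] (S : EulerData 𝒪) (Ω : Type u) [Field Ω] [CharZero Ω]
    [Algebra 𝒪 Ω] (R : Type) [Field R] [LinearOrder R] [Algebra R Ω] (q₀ q : ℕ) where
  P : ParabolicCohomology.{u, v} Ω R q₀
  [finite : Module.Finite Ω P.H]
  F : Module.End Ω P.H
  π : Module.End Ω P.H
  T : Operator P.page
  T' : Operator P.page
  isProj : IsProj π F
  isProjector : T'.IsProjector T
  lifts : P.Lifts F T (q : Ω)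
  lifts' : P.Lifts π T' 1
  describes : S.Describes T T'
  injective : Function.Injective P.page.mult.d

attribute [instance] Realization.finite

end

end Pool.Agent.Y143.Par
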