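import Pool.Agent.Y143.Par.CpGraded
import Pool.Agent.Y143.Par.EulerDefs

/-!
# The local Euler factor of the parabolic cohomology
-/

namespace Pool.Agent.Y143.Par

universe u v

open Module Polynomial

/-! ### Sums -/

section Sums

variable {Ω : Type u} [Field Ω] [CharZero Ω] {B₁ X B₂ M : Type v} [AddCommGroup B₁]
  [AddCommGroup X] [AddCommGroup B₂] [AddCommGroup M] [Module Ω B₁] [Module Ω X] [Module Ω B₂]
  [Module Ω M] {F₁ π₁ : Module.End Ω B₁} {F₂ π₂ : Module.End Ω X} {F₃ π₃ : Module.End Ω B₂}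
  {F₄ π₄ : Module.End Ω M} {U₁ : Submodule Ω B₁} {U₂ : Submodule Ω X} {U₃ : Submodule Ω B₂}
  {U₄ : Submodule Ω M}

omit [CharZero Ω] in
lemma good_terms (h1 : Good F₁ π₁ U₁) (h2 : Good F₂ π₂ U₂) (h3 : Good F₃ π₃ U₃)
    (h4 : Good F₄ π₄ U₄) : Good (V := Terms B₁ X B₂ M) (Terms.diag F₁ F₂ F₃ F₄)
      (Terms.diag π₁ π₂ π₃ π₄) (Terms.sub U₁ U₂ U₃ U₄) :=
  (h1.prod h2).prod (h3.prod h4)

lemma cpf_terms [Module.Finite Ω B₁] [Module.Finite Ω X] [Module.Finite Ω B₂] [Module.Finite Ω M]
    (h1 : Good F₁ π₁ U₁) (h2 : Good F₂ π₂ U₂) (h3 : Good F₃ π₃ U₃) (h4 : Good F₄ π₄ U₄) :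
    cpf (V := Terms B₁ X B₂ M) (Terms.diag F₁ F₂ F₃ F₄) (Terms.diag π₁ π₂ π₃ π₄)
      (Terms.sub U₁ U₂ U₃ U₄) =
      (cpf F₁ π₁ U₁ * cpf F₂ π₂ U₂) * (cpf F₃ π₃ U₃ * cpf F₄ π₄ U₄) := by
  have h := cpf_prod (h1.prod h2) (h3.prod h4)
  rw [cpf_prod h1 h2, cpf_prod h3 h4] at h
  exact h

end Sums

/-! ### The polynomials -/

namespace EulerData

variable {𝒪 : Type} [CommRing 𝒪] (S : EulerData 𝒪) (q : ℕ)

/-- The exponent of the Tate twist. -/
def e (κ : ℤ) : ℕ := ((S.k + 1 + κ) / 2).toNat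

/-- The characteristic polynomial on the cocycles. -/
noncomputable def z (κ : ℤ) : Polynomial 𝒪 :=
  ((if κ = -(S.k + 1) then S.B else 1) *
    (if |κ| < S.k ∧ 2 ∣ S.k + 1 + κ then (S.mid /ₘ S.A).scaleRoots ((q : 𝒪) ^ S.e κ) else 1)) *
    ((if κ = -1 then S.goodB else 1) * S.M κ)

/-- The characteristic polynomial on the coboundaries. -/
noncomputable def b (κ : ℤ) : Polynomial 𝒪 :=
  ((if κ = -(S.k + 1) then S.A else 1) *
    (if |κ| < S.k ∧ 2 ∣ S.k + 1 + κ then S.A.scaleRoots ((q : 𝒪) ^ S.e κ) else 1)) *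
    ((if κ = -1 then S.goodA /ₘ S.goodKer else 1) * 1)

/-- The characteristic polynomial on the part of weight `≤ - (k + 2) + j` of the weight
filtration. -/
noncomputable def D : ℕ → Polynomial 𝒪
  | 0 => 1
  | j + 1 => (S.z q (-(S.k + 1) + j) * D j) /ₘ S.b q (-(S.k + 1) + j)

/-- The characteristic polynomial on the kernel of `N`. -/
noncomputable def G : Polynomial 𝒪 := S.D q (S.k + 2) /ₘ (S.D q S.k).scaleRoots (q : 𝒪)

end EulerData

section Basic

variable {Ω : Type u} [Field Ω] {𝒪 : Type} [CommRing 𝒪] [Algebra 𝒪 Ω]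

lemma HasPoly.eq_cpf {V : Type v} [AddCommGroup V] [Module Ω V] [Module.Finite Ω V]
    {F π : Module.End Ω V} {U : Submodule Ω V} {p : Polynomial 𝒪} (h : HasPoly F π U p) :
    p.map (algebraMap 𝒪 Ω) = cpf F π U :=
  HasCharpoly.eq_cp (F := F) (U := fixed π U) h

lemma HasPoly.monic {V : Type v} [AddCommGroup V] [Module Ω V] [Module.Finite Ω V]
    {F π : Module.End Ω V} {U : Submodule Ω V} {p : Polynomial 𝒪} (h : HasPoly F π U p) :
    (p.map (algebraMap 𝒪 Ω)).Monic :=
  HasCharpoly.monic (F := F) (U := fixed π U) h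

lemma hasPoly_of_cpf {V : Type v} [AddCommGroup V] [Module Ω V] [Module.Finite Ω V]
    {F π : Module.End Ω V} {U : Submodule Ω V} {p : Polynomial 𝒪} (h : Good F π U)
    (hp : p.map (algebraMap 𝒪 Ω) = cpf F π U) : HasPoly F π U p := by
  have h1 := h.hasCharpoly
  rw [← hp] at h1
  exact h1

lemma map_quot (hinj : Function.Injective (algebraMap 𝒪 Ω)) {f g : Polynomial 𝒪}
    {r : Polynomial Ω} (hg : (g.map (algebraMap 𝒪 Ω)).Monic)
    (h : f.map (algebraMap 𝒪 Ω) = g.map (algebraMap 𝒪 Ω) * r) :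
    (f /ₘ g).map (algebraMap 𝒪 Ω) = r := by
  have hg' : g.Monic := Polynomial.monic_of_injective hinj hg
  rw [Polynomial.map_divByMonic _ hg', h, Polynomial.mul_divByMonic_cancel_left _ hg]

lemma map_scale (hinj : Function.Injective (algebraMap 𝒪 Ω)) {f : Polynomial 𝒪}
    (hf : (f.map (algebraMap 𝒪 Ω)).Monic) (c : 𝒪) :
    (f.scaleRoots c).map (algebraMap 𝒪 Ω) =
      (f.map (algebraMap 𝒪 Ω)).scaleRoots (algebraMap 𝒪 Ω c) := by
  apply Polynomial.map_scaleRoots
  have hf' : f.Monic := Polynomial.monic_of_injective hinj hf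
  rw [hf'.leadingCoeff, map_one]
  exact one_ne_zero

lemma goodTerm {V : Type v} [AddCommGroup V] [Module Ω V] {F p : Module.End Ω V}
    (h : IsProj p F) : Good F p ⊤ :=
  ⟨fun _ _ => trivial, fun _ _ => trivial, fun x _ => h.1 x, fun x _ => h.2 x⟩

variable {V V' : Type v} [AddCommGroup V] [Module Ω V] [AddCommGroup V'] [Module Ω V']
  {F' p' : Module.End Ω V'} {F p : Module.End Ω V}

lemma goodTerm_range (h' : IsProj p' F') (d : V →ₗ[Ω] V') (hF : Commutes d F F')
    (hp : Commutes d p p') : Good F' p' (LinearMap.range d) := by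
  refine (goodTerm h').mono le_top ?_ ?_
  · rintro _ ⟨x, rfl⟩
    exact ⟨F x, hF x⟩
  · rintro _ ⟨x, rfl⟩
    exact ⟨p x, hp x⟩

lemma goodTerm_ker (h : IsProj p F) (d : V →ₗ[Ω] V') (hF : Commutes d F F')
    (hp : Commutes d p p') : Good F p (LinearMap.ker d) := by
  refine (goodTerm h).mono le_top ?_ ?_
  · intro x hx
    rw [LinearMap.mem_ker] at hx ⊢
    rw [hF, hx, map_zero]
  · intro x hx
    rw [LinearMap.mem_ker] at hx ⊢
    rw [hp, hx, map_zero]

lemma cpf_map [CharZero Ω] [Module.Finite Ω V] [Module.Finite Ω V'] (h : IsProj p F)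
    (h' : IsProj p' F') (d : V →ₗ[Ω] V') (hF : Commutes d F F') (hp : Commutes d p p') :
    cpf F p ⊤ = cpf F p (LinearMap.ker d) * cpf F' p' (LinearMap.range d) := by
  refine cpf_exact d (goodTerm h) (goodTerm_range h' d hF hp) (fun x _ => ⟨x, rfl⟩) ?_
    (fun x _ => hF x) (fun x _ => hp x) ?_
  · rintro _ ⟨x, rfl⟩
    exact ⟨x, trivial, rfl⟩
  · intro x
    exact ⟨fun hx => ⟨trivial, hx⟩, fun hx => hx.2⟩

lemma ker_eq_bot' (d : V →ₗ[Ω] V') (h : Function.Injective d) : LinearMap.ker d = ⊥ :=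
  LinearMap.ker_eq_bot.2 h

end Basic

/-! ### The injectivity of `d` -/

section Injective

variable {Ω : Type u} [Field Ω] {R : Type} [Field R] [Algebra R Ω]

/-- If the matrix `M` is injective on families in `T`, the transpose is surjective. -/
lemma transpose_surjective {E V : Type} [Fintype E] [Fintype V] {T : Type v} [AddCommGroup T]
    [Module Ω T] (M : Matrix E V R) (h : Function.Injective (matMap Ω T M)) :
    Function.Surjective (matMap Ω T M.transpose) := by
  classical
  intro y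
  by_cases hT : ∃ t : T, t ≠ 0
  · obtain ⟨t, ht⟩ := hT
    have hinj : Function.Injective M.mulVecLin := by
      rw [← LinearMap.ker_eq_bot, LinearMap.ker_eq_bot']
      intro f hf
      have h1 : matMap Ω T M (fun v => algebraMap R Ω (f v) • t) = 0 := by
        funext e
        rw [matMap_apply]
        have h2 : ∑ v, M e v * f v = 0 := congrFun hf e
        simp only [smul_smul, ← map_mul]
        rw [← Finset.sum_smul, ← map_sum, h2, map_zero, zero_smul]
        rfl
      have h3 := h (h1.trans (map_zero _).symm)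
      funext v
      have h4 : algebraMap R Ω (f v) • t = 0 := congrFun h3 v
      have h5 := (smul_eq_zero.1 h4).resolve_right ht
      exact (map_eq_zero (algebraMap R Ω)).1 h5
    obtain ⟨g, hg⟩ := LinearMap.exists_leftInverse_of_injective M.mulVecLin
      (LinearMap.ker_eq_bot.2 hinj)
    have hL : LinearMap.toMatrix' g * M = 1 := by
      have h6 : LinearMap.toMatrix' (g ∘ₗ M.mulVecLin) = 1 := by
        rw [hg, LinearMap.toMatrix'_id]
      rw [LinearMap.toMatrix'_comp] at h6
      have h7 : LinearMap.toMatrix' M.mulVecLin = M := LinearMap.toMatrix'_toLin' M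
      rwa [h7] at h6
    have hL' : M.transpose * (LinearMap.toMatrix' g).transpose = 1 := by
      rw [← Matrix.transpose_mul, hL, Matrix.transpose_one]
    refine ⟨matMap Ω T (LinearMap.toMatrix' g).transpose y, ?_⟩
    rw [← matMap_mul, hL']
    funext v
    rw [matMap_apply, Finset.sum_eq_single v]
    · rw [Matrix.one_apply_eq, map_one, one_smul]
    · intro b _ hb
      rw [Matrix.one_apply_ne hb.symm, map_zero, zero_smul]
    · intro hv
      exact absurd (Finset.mem_univ v) hv
  · push Not at hT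
    exact ⟨0, funext fun v => by rw [hT (y v)]; exact hT _⟩

variable [LinearOrder R]

lemma toMid_injective {P : MultiplicativePart.{u, v} Ω R} (hC : P.IsComplex)
    (hd : Function.Injective P.d) : Function.Injective P.toMid := by
  intro x y h
  apply hd
  rw [← hC.down_to, ← hC.down_to, h]

lemma fromMid_surjective {P : MultiplicativePart.{u, v} Ω R} (hC : P.IsComplex)
    (hd : Function.Injective P.d) : Function.Surjective P.fromMid := by
  classical
  have hc : ∀ c, Function.Injective (matMap Ω (P.T c) ((P.graph c).inc R)) := by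
    intro c
    rw [← LinearMap.ker_eq_bot, LinearMap.ker_eq_bot']
    intro f hf
    set x : ∀ c, (P.graph c).Vert → P.T c := Pi.single c f with hx
    have h1 : P.d x = 0 := by
      funext c'
      change matMap Ω (P.T c') ((P.graph c').inc R) (x c') = 0
      by_cases h : c' = c
      · subst h
        rw [hx, Pi.single_eq_same]
        exact hf
      · rw [hx, Pi.single_eq_of_ne h]
        exact map_zero _
    have h2 : x = 0 := hd (h1.trans (map_zero _).symm)
    have h3 := congrFun h2 c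
    rw [hx, Pi.single_eq_same] at h3
    exact h3
  intro y
  have h4 : ∀ c, ∃ z : (P.graph c).Edge → P.T c,
      matMap Ω (P.T c) ((P.graph c).inc R).transpose z = y c :=
    fun c => transpose_surjective _ (hc c) (y c)
  choose z hz using h4
  refine ⟨P.up z, ?_⟩
  rw [hC.from_up]
  exact funext fun c => hz c

end Injective


section Page

variable {Ω : Type u} [Field Ω] [CharZero Ω] {R : Type} [Field R] [LinearOrder R] [Algebra R Ω]
  {q : ℕ} {P : WeightPage.{u, v} Ω R} {T π : Operator P} {𝒪 : Type} [CommRing 𝒪] [Algebra 𝒪 Ω]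
  {S : EulerData 𝒪}

lemma goodRange (hT : T.IsCompatible) (hπ : π.IsCompatible) (hp : π.IsProjector T)
    (hS : S.Describes T π) (hinj : Function.Injective (algebraMap 𝒪 Ω)) :
    cpf T.goodB π.goodB (LinearMap.range P.good.d) =
      (S.goodA /ₘ S.goodKer).map (algebraMap 𝒪 Ω) := by
  have h1 := cpf_map hp.goodA hp.goodB P.good.d hT.good hπ.good
  exact (map_quot hinj hS.goodKer.monic (by
    rw [hS.goodA.eq_cpf, hS.goodKer.eq_cpf, h1])).symm

lemma rangeD (hT : T.IsCompatible) (hπ : π.IsCompatible) (hp : π.IsProjector T)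
    (hS : S.Describes T π) (hd : Function.Injective P.mult.d) :
    cpf T.B π.B (LinearMap.range P.mult.d) = S.A.map (algebraMap 𝒪 Ω) := by
  have h1 := cpf_map hp.A hp.B P.mult.d hT.d hπ.d
  rw [ker_eq_bot' _ hd, cpf_bot, one_mul] at h1
  rw [hS.A.eq_cpf, h1]

lemma midRange (hT : T.IsCompatible) (hπ : π.IsCompatible) (hp : π.IsProjector T)
    (hS : S.Describes T π) (hC : P.mult.IsComplex) (hd : Function.Injective P.mult.d) :
    cpf T.mid π.mid (LinearMap.range P.mult.toMid) = S.A.map (algebraMap 𝒪 Ω) := by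
  have h1 := cpf_map hp.A hp.mid P.mult.toMid hT.toMid hπ.toMid
  rw [ker_eq_bot' _ (toMid_injective hC hd), cpf_bot, one_mul] at h1
  rw [hS.A.eq_cpf, h1]

lemma midKer (hT : T.IsCompatible) (hπ : π.IsCompatible) (hp : π.IsProjector T)
    (hS : S.Describes T π) (hinj : Function.Injective (algebraMap 𝒪 Ω)) (hC : P.mult.IsComplex)
    (hd : Function.Injective P.mult.d) :
    cpf T.mid π.mid (LinearMap.ker P.mult.fromMid) = (S.mid /ₘ S.A).map (algebraMap 𝒪 Ω) := by
  have h1 := cpf_map hp.mid hp.A P.mult.fromMid hT.fromMid hπ.fromMid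
  rw [LinearMap.range_eq_top.2 (fromMid_surjective hC hd)] at h1
  exact (map_quot hinj hS.A.monic (by rw [hS.mid.eq_cpf, hS.A.eq_cpf, h1, mul_comm])).symm

omit [CharZero Ω] in
lemma act_one (κ : ℤ) : π.act 1 κ = Terms.diag π.B π.mid π.goodB π.M := by
  rw [Operator.act, Terms.twist, one_zpow, one_zpow, one_smul, one_smul, one_smul]

omit [CharZero Ω] in
lemma cast_e {κ : ℤ} (hκ : -(P.k + 1) ≤ κ) (hk : P.k = S.k) :
    (q : Ω) ^ ((P.k + 1 + κ) / 2) = algebraMap 𝒪 Ω ((q : 𝒪) ^ S.e κ) := by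
  have h1 : (P.k + 1 + κ) / 2 = ((S.e κ : ℕ) : ℤ) := by
    rw [EulerData.e, ← hk]
    omega
  rw [h1, zpow_natCast, map_pow, map_natCast]

omit [CharZero Ω] in
lemma cocycles_eq {κ : ℤ} (hκ : κ ≤ 0) : P.cocycles κ =
    Terms.sub (if κ = -(P.k + 1) then ⊤ else ⊥)
      (if P.InMid κ then LinearMap.ker P.mult.fromMid else ⊥)
      (if κ = -1 then ⊤ else ⊥) (P.pure.gr κ) := by
  rw [WeightPage.cocycles, if_neg (show ¬ κ = P.k + 1 by omega), if_neg (show ¬ κ = 1 by omega)]

omit [CharZero Ω] in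
lemma good1 (hp : π.IsProjector T) (κ : ℤ) :
    Good T.B π.B (if κ = -(P.k + 1) then ⊤ else ⊥) := by
  split_ifs
  · exact goodTerm hp.B
  · exact Good.bot

omit [CharZero Ω] in
lemma good1' (hT : T.IsCompatible) (hπ : π.IsCompatible) (hp : π.IsProjector T) (κ : ℤ) :
    Good T.B π.B (if κ = -(P.k + 1) then LinearMap.range P.mult.d else ⊥) := by
  split_ifs
  · exact goodTerm_range hp.B _ hT.d hπ.d
  · exact Good.bot

omit [CharZero Ω] in
lemma good2 (hT : T.IsCompatible) (hπ : π.IsCompatible) (hp : π.IsProjector T) (κ : ℤ) :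
    Good T.mid π.mid (if P.InMid κ then LinearMap.ker P.mult.fromMid else ⊥) := by
  split_ifs
  · exact goodTerm_ker hp.mid _ hT.fromMid hπ.fromMid
  · exact Good.bot

omit [CharZero Ω] in
lemma good2' (hT : T.IsCompatible) (hπ : π.IsCompatible) (hp : π.IsProjector T) (κ : ℤ) :
    Good T.mid π.mid (if P.InMid κ then LinearMap.range P.mult.toMid else ⊥) := by
  split_ifs
  · exact goodTerm_range hp.mid _ hT.toMid hπ.toMid
  · exact Good.bot

omit [CharZero Ω] in
lemma good3 (hp : π.IsProjector T) (κ : ℤ) :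
    Good T.goodB π.goodB (if κ = -1 then ⊤ else ⊥) := by
  split_ifs
  · exact goodTerm hp.goodB
  · exact Good.bot

omit [CharZero Ω] in
lemma good3' (hT : T.IsCompatible) (hπ : π.IsCompatible) (hp : π.IsProjector T) (κ : ℤ) :
    Good T.goodB π.goodB (if κ = -1 then LinearMap.range P.good.d else ⊥) := by
  split_ifs
  · exact goodTerm_range hp.goodB _ hT.good hπ.good
  · exact Good.bot

omit [CharZero Ω] in
lemma good4 (hT : T.IsCompatible) (hπ : π.IsCompatible) (hp : π.IsProjector T) (κ : ℤ) :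
    Good T.M π.M (P.pure.gr κ) :=
  (goodTerm hp.M).mono le_top (hT.pure κ) (hπ.pure κ)

omit [CharZero Ω] in
lemma good_z {κ : ℤ} (hT : T.IsCompatible) (hπ : π.IsCompatible) (hp : π.IsProjector T)
    (hκ : κ ≤ 0) : Good (T.act (q : Ω) κ) (π.act 1 κ) (P.cocycles κ) := by
  rw [act_one, cocycles_eq hκ]
  exact good_terms ((good1 hp κ).smul _) ((good2 hT hπ hp κ).smul _) ((good3 hp κ).smul _)
    (good4 hT hπ hp κ)

omit [CharZero Ω] in
lemma good_b {κ : ℤ} (hT : T.IsCompatible) (hπ : π.IsCompatible) (hp : π.IsProjector T) :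
    Good (T.act (q : Ω) κ) (π.act 1 κ) (P.coboundaries κ) := by
  rw [act_one]
  exact good_terms ((good1' hT hπ hp κ).smul _) ((good2' hT hπ hp κ).smul _)
    ((good3' hT hπ hp κ).smul _) Good.bot

/-- The characteristic polynomial on the cocycles. -/
lemma cpf_z {κ : ℤ} (hq : q ≠ 0) (hT : T.IsCompatible) (hπ : π.IsCompatible)
    (hp : π.IsProjector T) (hS : S.Describes T π) (hinj : Function.Injective (algebraMap 𝒪 Ω))
    (hC : P.mult.IsComplex) (hd : Function.Injective P.mult.d) (hκ : κ ≤ 0)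
    (hκ' : -(P.k + 1) ≤ κ) :
    cpf (T.act (q : Ω) κ) (π.act 1 κ) (P.cocycles κ) = (S.z q κ).map (algebraMap 𝒪 Ω) := by
  have hqΩ : (q : Ω) ≠ 0 := Nat.cast_ne_zero.2 hq
  rw [act_one, cocycles_eq hκ]
  refine (cpf_terms ((good1 hp κ).smul _) ((good2 hT hπ hp κ).smul _) ((good3 hp κ).smul _)
    (good4 hT hπ hp κ)).trans ?_
  rw [EulerData.z, Polynomial.map_mul, Polynomial.map_mul, Polynomial.map_mul]
  congr 1
  · congr 1
    · rw [hS.k]
      split_ifs with h
      · rw [h, show ((S.k : ℤ) + 1 + -(S.k + 1)) / 2 = 0 by omega, zpow_zero, one_smul]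
        exact hS.B.eq_cpf.symm
      · rw [cpf_bot, Polynomial.map_one]
    · by_cases h : P.InMid κ
      · have h' : |κ| < S.k ∧ 2 ∣ S.k + 1 + κ := by
          rw [← hS.k]
          exact h
        rw [if_pos h, if_pos h', cpf_smul (zpow_ne_zero _ hqΩ)
          (goodTerm_ker hp.mid _ hT.fromMid hπ.fromMid), cast_e hκ' hS.k,
          midKer hT hπ hp hS hinj hC hd, ← map_scale hinj]
        rw [← midKer hT hπ hp hS hinj hC hd]
        exact cpf_monic _ _ _
      · have h' : ¬ (|κ| < S.k ∧ 2 ∣ S.k + 1 + κ) := by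
          rw [← hS.k]
          exact h
        rw [if_neg h, if_neg h', cpf_bot, Polynomial.map_one]
  · congr 1
    · split_ifs with h
      · rw [h, show ((-1 : ℤ) + 1) / 2 = 0 by norm_num, zpow_zero, one_smul]
        exact hS.goodB.eq_cpf.symm
      · rw [cpf_bot, Polynomial.map_one]
    · exact (hS.M κ).eq_cpf.symm

/-- The characteristic polynomial on the coboundaries. -/
lemma cpf_b {κ : ℤ} (hq : q ≠ 0) (hT : T.IsCompatible) (hπ : π.IsCompatible)
    (hp : π.IsProjector T) (hS : S.Describes T π) (hinj : Function.Injective (algebraMap 𝒪 Ω))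
    (hC : P.mult.IsComplex) (hd : Function.Injective P.mult.d) (hκ' : -(P.k + 1) ≤ κ) :
    cpf (T.act (q : Ω) κ) (π.act 1 κ) (P.coboundaries κ) = (S.b q κ).map (algebraMap 𝒪 Ω) := by
  have hqΩ : (q : Ω) ≠ 0 := Nat.cast_ne_zero.2 hq
  rw [act_one]
  refine (cpf_terms ((good1' hT hπ hp κ).smul _) ((good2' hT hπ hp κ).smul _)
    ((good3' hT hπ hp κ).smul _) Good.bot).trans ?_
  rw [EulerData.b, Polynomial.map_mul, Polynomial.map_mul, Polynomial.map_mul]
  congr 1
  · congr 1
    · rw [hS.k]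
      split_ifs with h
      · rw [h, show ((S.k : ℤ) + 1 + -(S.k + 1)) / 2 = 0 by omega, zpow_zero, one_smul]
        exact rangeD hT hπ hp hS hd
      · rw [cpf_bot, Polynomial.map_one]
    · by_cases h : P.InMid κ
      · have h' : |κ| < S.k ∧ 2 ∣ S.k + 1 + κ := by
          rw [← hS.k]
          exact h
        rw [if_pos h, if_pos h', cpf_smul (zpow_ne_zero _ hqΩ)
          (goodTerm_range hp.mid _ hT.toMid hπ.toMid), cast_e hκ' hS.k,
          midRange hT hπ hp hS hC hd, ← map_scale hinj]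
        rw [← midRange hT hπ hp hS hC hd]
        exact cpf_monic _ _ _
      · have h' : ¬ (|κ| < S.k ∧ 2 ∣ S.k + 1 + κ) := by
          rw [← hS.k]
          exact h
        rw [if_neg h, if_neg h', cpf_bot, Polynomial.map_one]
  · congr 1
    · split_ifs with h
      · rw [h, show ((-1 : ℤ) + 1) / 2 = 0 by norm_num, zpow_zero, one_smul]
        exact goodRange hT hπ hp hS hinj
      · rw [cpf_bot, Polynomial.map_one]
    · rw [cpf_bot, Polynomial.map_one]

end Page

/-! ### The weight filtration -/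

section Main

variable {Ω : Type u} [Field Ω] [CharZero Ω] {R : Type} [Field R] [LinearOrder R]
  [IsStrictOrderedRing R] [Algebra R Ω] {q₀ q : ℕ} {𝒪 : Type} [CommRing 𝒪] [Algebra 𝒪 Ω]
  {S : EulerData 𝒪} (X : Realization.{u, v} S Ω R q₀ q)
include X

omit [IsStrictOrderedRing R] in
lemma good_W (w : ℤ) : Good X.F X.π (X.P.W w) := by
  refine (goodTerm X.isProj).mono le_top ?_ ?_
  · intro v hv
    obtain ⟨x, hx⟩ := X.P.graded.sp_left _ v hv
    exact (X.P.graded.sp_mem _ _ _ (X.lifts.sp _ _ _ hx)).1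
  · intro v hv
    obtain ⟨x, hx⟩ := X.P.graded.sp_left _ v hv
    exact (X.P.graded.sp_mem _ _ _ (X.lifts'.sp _ _ _ hx)).1

lemma step {w : ℤ} (hw : w ≤ X.P.page.k + 1) :
    cpf X.F X.π (X.P.W w) * cpf (X.T.act (q : Ω) (w - (X.P.page.k + 1)))
        (X.T'.act 1 (w - (X.P.page.k + 1))) (X.P.page.coboundaries (w - (X.P.page.k + 1))) =
      cpf (X.T.act (q : Ω) (w - (X.P.page.k + 1))) (X.T'.act 1 (w - (X.P.page.k + 1)))
        (X.P.page.cocycles (w - (X.P.page.k + 1))) * cpf X.F X.π (X.P.W (w - 1)) :=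
  cpf_graded X.P.graded (WeightPage.coboundaries_le X.P.isGood _) (good_W X w)
    (good_W X (w - 1)) (good_z X.lifts.compatible X.lifts'.compatible X.isProjector (by omega))
    (good_b X.lifts.compatible X.lifts'.compatible X.isProjector)
    (fun v x hx => X.lifts.sp w v x hx) (fun v x hx => X.lifts'.sp w v x hx)

lemma cpf_low {w : ℤ} (hw : w < 0) : cpf X.F X.π (X.P.W w) = 1 := by
  have hT := X.lifts.compatible
  have hπ := X.lifts'.compatible
  have hp := X.isProjector
  have key : ∀ w : ℤ, w < 0 → cpf X.F X.π (X.P.W w) = cpf X.F X.π (X.P.W (w - 1)) := by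
    intro w hw
    have h := step X (w := w) (by omega)
    set κ := w - (X.P.page.k + 1) with hκ
    have hmid : ¬ X.P.page.InMid κ := by
      rintro ⟨h1, -⟩
      have := neg_le_abs κ
      omega
    have h1 : cpf (X.T.act (q : Ω) κ) (X.T'.act 1 κ) (X.P.page.coboundaries κ) = 1 := by
      rw [act_one]
      refine (cpf_terms ((good1' hT hπ hp κ).smul _) ((good2' hT hπ hp κ).smul _)
        ((good3' hT hπ hp κ).smul _) Good.bot).trans ?_
      rw [if_neg (by omega), if_neg hmid, if_neg (by omega), cpf_bot, cpf_bot, cpf_bot, cpf_bot,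
        one_mul, one_mul]
    have h2 : cpf (X.T.act (q : Ω) κ) (X.T'.act 1 κ) (X.P.page.cocycles κ) = 1 := by
      rw [act_one, cocycles_eq (by omega)]
      refine (cpf_terms ((good1 hp κ).smul _) ((good2 hT hπ hp κ).smul _)
        ((good3 hp κ).smul _) (good4 hT hπ hp κ)).trans ?_
      have hk := X.describes.k
      rw [if_neg (by omega), if_neg hmid, if_neg (by omega), cpf_bot, cpf_bot, cpf_bot,
        ← (X.describes.M κ).eq_cpf, X.describes.bound κ (by omega), Polynomial.map_one, one_mul,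
        one_mul]
    rwa [h1, h2, mul_one, one_mul] at h
  have key' : ∀ (n : ℕ), cpf X.F X.π (X.P.W w) = cpf X.F X.π (X.P.W (w - n)) := by
    intro n
    induction n with
    | zero => simp
    | succ n ih =>
      rw [ih, key (w - n) (by omega)]
      congr 2
      push_cast
      ring
  obtain ⟨a, ha⟩ := X.P.graded.W_bot
  rw [key' (w - a).toNat]
  have h1 : X.P.W (w - (w - a).toNat) = ⊥ := by
    rw [eq_bot_iff, ← ha]
    apply X.P.graded.W_mono
    have := Int.self_le_toNat (w - a)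
    omega
  rw [h1, cpf_bot]

lemma map_D (hq : q ≠ 0) (hinj : Function.Injective (algebraMap 𝒪 Ω)) (j : ℕ)
    (hj : j ≤ X.P.page.k + 2) :
    (S.D q j).map (algebraMap 𝒪 Ω) = cpf X.F X.π (X.P.W (j - 1)) := by
  have hT := X.lifts.compatible
  have hπ := X.lifts'.compatible
  have hp := X.isProjector
  have hC := X.P.isGood.mult.complex
  induction j with
  | zero =>
    rw [EulerData.D, Polynomial.map_one, cpf_low X (by norm_num)]
  | succ j ih =>
    have hk := X.describes.k
    have h := step X (w := (j : ℤ)) (by omega)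
    have e1 : (j : ℤ) - (X.P.page.k + 1) = -(S.k + 1) + j := by rw [← hk]; ring
    rw [e1] at h
    rw [cpf_z hq hT hπ hp X.describes hinj hC X.injective (by omega) (by omega),
      cpf_b hq hT hπ hp X.describes hinj hC X.injective (by omega), ← ih (by omega)] at h
    have e2 : ((j + 1 : ℕ) : ℤ) - 1 = j := by push_cast; ring
    rw [e2, EulerData.D]
    refine map_quot hinj ?_ ?_
    · rw [← cpf_b hq hT hπ hp X.describes hinj hC X.injective (by omega)]
      exact cpf_monic _ _ _
    · rw [Polynomial.map_mul, ← h, mul_comm]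

omit [IsStrictOrderedRing R] in
lemma good_ker : Good X.F X.π (LinearMap.ker X.P.N) := by
  have hN := X.lifts.N
  have hN' := X.lifts'.N
  refine (goodTerm X.isProj).mono le_top ?_ ?_
  · intro x hx
    rw [LinearMap.mem_ker] at hx ⊢
    rw [hN, hx, map_zero]
  · intro x hx
    rw [LinearMap.mem_ker] at hx ⊢
    rw [hN', hx, map_zero]

/-- The characteristic polynomial on the inertia invariants of the parabolic cohomology. -/
theorem euler (hq : q ≠ 0) (hinj : Function.Injective (algebraMap 𝒪 Ω)) :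
    (S.G q).map (algebraMap 𝒪 Ω) = cpf X.F X.π (LinearMap.ker X.P.N) := by
  have hqΩ : (q : Ω) ≠ 0 := Nat.cast_ne_zero.2 hq
  have hM := X.P.isMonodromyFiltration
  have h0 : Good X.F X.π (X.P.W (X.P.page.k + 1 + 0)) := good_W X _
  have h2 : Good X.F X.π (X.P.W (X.P.page.k + 1 + (-2))) := good_W X _
  have hN1 : ∀ x, X.P.N (X.π x) = X.π (X.P.N x) := fun x => by
    rw [X.lifts'.N, one_smul]
  have h := cpf_ker hM (F := X.F) (π := X.π) (c := (q : Ω)) (fun x => X.lifts.N x) hN1 h0 h2 hqΩ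
  have e1 := map_D X hq hinj (X.P.page.k + 2) le_rfl
  have e2 := map_D X hq hinj X.P.page.k (by omega)
  rw [show ((X.P.page.k + 2 : ℕ) : ℤ) - 1 = X.P.page.k + 1 + 0 by push_cast; ring] at e1
  rw [show (X.P.page.k : ℤ) - 1 = X.P.page.k + 1 + (-2) by ring] at e2
  have hmon : ((S.D q X.P.page.k).map (algebraMap 𝒪 Ω)).Monic := by
    rw [e2]
    exact cpf_monic _ _ _
  rw [EulerData.G, ← X.describes.k]
  refine map_quot hinj ?_ ?_
  · rw [map_scale hinj hmon, Polynomial.monic_scaleRoots_iff]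
    exact hmon
  · rw [map_scale hinj hmon, e1, e2, map_natCast, mul_comm]
    exact h

end Main

end Pool.Agent.Y143.Par
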