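import Pool.Agent.Y143.Par.EulerSum

/-!
# The Weil-Deligne representation: the kernels of the powers of `N`
-/

namespace Pool.Agent.Y143.Par

universe u v

open Module Polynomial

section General

variable {Ω : Type u} [Field Ω] [CharZero Ω] {V : Type v} [AddCommGroup V] [Module Ω V]
  [Module.Finite Ω V] {N : Module.End Ω V} {M : ℤ → Submodule Ω V} {F π : Module.End Ω V} {c : Ω}

omit [CharZero Ω] [Module.Finite Ω V] in
lemma pow_comm' (hN : ∀ x, N (F x) = c • F (N x)) (n : ℕ) (x : V) :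
    (N ^ n) (F x) = c ^ n • F ((N ^ n) x) := by
  induction n with
  | zero => rw [pow_zero, pow_zero, one_smul]; rfl
  | succ n ih =>
    rw [pow_succ', Module.End.mul_apply, ih, map_smul, hN, smul_smul, ← pow_succ]
    rfl

omit [CharZero Ω] [Module.Finite Ω V] in
lemma pow_comm (hπ : ∀ x, N (π x) = π (N x)) (n : ℕ) (x : V) :
    (N ^ n) (π x) = π ((N ^ n) x) := by
  induction n with
  | zero => rfl
  | succ n ih =>
    rw [pow_succ', Module.End.mul_apply, ih, hπ]
    rfl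

/-- The kernel of `N ^ (n + 1)`. -/
theorem cpf_ker_pow (hM : IsMonodromyFiltration N M) (hN : ∀ x, N (F x) = c • F (N x))
    (hπ : ∀ x, N (π x) = π (N x)) (hg : ∀ a, Good F π (M a)) (hc : c ≠ 0) (n : ℕ) :
    cpf F π (M n) = cpf F π (LinearMap.ker (N ^ (n + 1))) *
      (cpf F π (M (-(n + 2 : ℕ)))).scaleRoots (c ^ (n + 1)) := by
  rw [← cpf_smul (pow_ne_zero _ hc) (hg _)]
  refine cpf_exact (N ^ (n + 1)) (hg _) ((hg _).smul _) ?_ ?_ (fun x _ => pow_comm' hN _ x)
    (fun x _ => pow_comm hπ _ x) ?_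
  · intro x hx
    have := hM.on.pow_map (n + 1) n x hx
    rwa [show (n : ℤ) - 2 * ((n + 1 : ℕ) : ℤ) = -((n + 2 : ℕ) : ℤ) by push_cast; ring] at this
  · intro y hy
    obtain ⟨x, hx, hxy⟩ := hM.on.surj_exact (n + 2) y hy
    refine ⟨N x, ?_, ?_⟩
    · have := hM.map _ x hx
      rwa [show ((n + 2 : ℕ) : ℤ) - 2 = n by push_cast; ring] at this
    · rw [← hxy, pow_succ]
      rfl
  · intro x
    exact ⟨fun hx => ⟨hM.on.ker_le n (y := x) trivial hx, hx⟩, fun h => h.2⟩

/-- The next piece of the monodromy filtration. -/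
theorem cpf_next (hM : IsMonodromyFiltration N M) (hN : ∀ x, N (F x) = c • F (N x))
    (hπ : ∀ x, N (π x) = π (N x)) (hg : ∀ a, Good F π (M a)) (hc : c ≠ 0) (n : ℕ) :
    cpf F π (M (n + 1 : ℕ)) = cpf F π (LinearMap.ker (N ^ (n + 1))) *
      (cpf F π (M (-(n + 1 : ℕ)))).scaleRoots (c ^ (n + 1)) := by
  rw [← cpf_smul (pow_ne_zero _ hc) (hg _)]
  refine cpf_exact (N ^ (n + 1)) (hg _) ((hg _).smul _) ?_ ?_ (fun x _ => pow_comm' hN _ x)
    (fun x _ => pow_comm hπ _ x) ?_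
  · intro x hx
    have := hM.on.pow_map (n + 1) _ x hx
    rwa [show ((n + 1 : ℕ) : ℤ) - 2 * ((n + 1 : ℕ) : ℤ) = -((n + 1 : ℕ) : ℤ) by ring] at this
  · intro y hy
    exact hM.on.surj_exact (n + 1) y hy
  · intro x
    exact ⟨fun hx => ⟨hM.mono (by push_cast; omega) (hM.on.ker_le n (y := x) trivial hx), hx⟩,
      fun h => h.2⟩

end General

namespace EulerData

variable {𝒪 : Type} [CommRing 𝒪] (S : EulerData 𝒪) (q : ℕ)

/-- The characteristic polynomial on `M_n`, `n ≥ 0`. -/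
noncomputable def Mp : ℕ → Polynomial 𝒪
  | 0 => S.D q (S.k + 2)
  | n + 1 => (Mp n /ₘ (S.D q (S.k + 2 - (n + 2))).scaleRoots ((q : 𝒪) ^ (n + 1))) *
      (S.D q (S.k + 2 - (n + 1))).scaleRoots ((q : 𝒪) ^ (n + 1))

/-- The characteristic polynomial on the kernel of `N ^ (n + 1)`. -/
noncomputable def K (n : ℕ) : Polynomial 𝒪 :=
  S.Mp q n /ₘ (S.D q (S.k + 2 - (n + 2))).scaleRoots ((q : 𝒪) ^ (n + 1))

end EulerData

section Main

variable {Ω : Type u} [Field Ω] [CharZero Ω] {R : Type} [Field R] [LinearOrder R]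
  [IsStrictOrderedRing R] [Algebra R Ω] {q₀ q : ℕ} {𝒪 : Type} [CommRing 𝒪] [Algebra 𝒪 Ω]
  {S : EulerData 𝒪} (X : Realization.{u, v} S Ω R q₀ q)
include X

lemma map_D_low (hq : q ≠ 0) (hinj : Function.Injective (algebraMap 𝒪 Ω)) (n : ℕ) :
    (S.D q (S.k + 2 - n)).map (algebraMap 𝒪 Ω) =
      cpf X.F X.π (X.P.W (X.P.page.k + 1 + -(n : ℕ))) := by
  have hk := X.describes.k
  rw [← hk]
  rcases le_or_gt n (X.P.page.k + 2) with h | h
  · rw [map_D X hq hinj _ (by omega)]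
    congr 2
    omega
  · rw [show X.P.page.k + 2 - n = 0 by omega, EulerData.D, Polynomial.map_one,
      cpf_low X (by omega)]

lemma map_Mp (hq : q ≠ 0) (hinj : Function.Injective (algebraMap 𝒪 Ω)) (n : ℕ) :
    (S.Mp q n).map (algebraMap 𝒪 Ω) = cpf X.F X.π (X.P.W (X.P.page.k + 1 + n)) ∧
      (S.K q n).map (algebraMap 𝒪 Ω) = cpf X.F X.π (LinearMap.ker (X.P.N ^ (n + 1))) := by
  have hqΩ : (q : Ω) ≠ 0 := Nat.cast_ne_zero.2 hq
  have hM := X.P.isMonodromyFiltration
  have hN1 : ∀ x, X.P.N (X.π x) = X.π (X.P.N x) := fun x => by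
    rw [X.lifts'.N, one_smul]
  have hg : ∀ a : ℤ, Good X.F X.π (X.P.W (X.P.page.k + 1 + a)) := fun a => good_W X _
  have hKn : ∀ n, (S.Mp q n).map (algebraMap 𝒪 Ω) =
      cpf X.F X.π (X.P.W (X.P.page.k + 1 + n)) →
      (S.K q n).map (algebraMap 𝒪 Ω) = cpf X.F X.π (LinearMap.ker (X.P.N ^ (n + 1))) := by
    intro n hn
    have h1 := cpf_ker_pow hM (F := X.F) (π := X.π) (c := (q : Ω)) (fun x => X.lifts.N x) hN1 hg
      hqΩ n
    have h2 := map_D_low X hq hinj (n + 2)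
    have hmon : ((S.D q (S.k + 2 - (n + 2))).map (algebraMap 𝒪 Ω)).Monic := by
      rw [h2]
      exact cpf_monic _ _ _
    rw [EulerData.K]
    refine map_quot hinj ?_ ?_
    · rw [map_scale hinj hmon, Polynomial.monic_scaleRoots_iff]
      exact hmon
    · rw [map_scale hinj hmon, h2, hn, map_pow, map_natCast, mul_comm]
      exact h1
  induction n with
  | zero =>
    have h0 : (S.Mp q 0).map (algebraMap 𝒪 Ω) =
        cpf X.F X.π (X.P.W (X.P.page.k + 1 + (0 : ℕ))) := by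
      have h1 := map_D X hq hinj (X.P.page.k + 2) le_rfl
      rw [EulerData.Mp, ← X.describes.k, h1]
      congr 2
      push_cast
      ring
    exact ⟨h0, hKn 0 h0⟩
  | succ n ih =>
    have h1 := cpf_next hM (F := X.F) (π := X.π) (c := (q : Ω)) (fun x => X.lifts.N x) hN1 hg
      hqΩ n
    have h2 := map_D_low X hq hinj (n + 1)
    have hmon : ((S.D q (S.k + 2 - (n + 1))).map (algebraMap 𝒪 Ω)).Monic := by
      rw [h2]
      exact cpf_monic _ _ _
    have h0 : (S.Mp q (n + 1)).map (algebraMap 𝒪 Ω) =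
        cpf X.F X.π (X.P.W (X.P.page.k + 1 + (n + 1 : ℕ))) := by
      rw [EulerData.Mp, Polynomial.map_mul, map_scale hinj hmon, h2, map_pow, map_natCast]
      have h3 := ih.2
      rw [EulerData.K] at h3
      rw [h3]
      exact h1.symm
    exact ⟨h0, hKn (n + 1) h0⟩

omit [IsStrictOrderedRing R] in
lemma good_ker_pow (n : ℕ) : Good X.F X.π (LinearMap.ker (X.P.N ^ n)) := by
  have hN1 : ∀ x, X.P.N (X.π x) = X.π (X.P.N x) := fun x => by
    rw [X.lifts'.N, one_smul]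
  refine (goodTerm X.isProj).mono le_top ?_ ?_
  · intro x hx
    rw [LinearMap.mem_ker] at hx ⊢
    rw [pow_comm' (c := (q : Ω)) (fun x => X.lifts.N x), hx, map_zero, smul_zero]
  · intro x hx
    rw [LinearMap.mem_ker] at hx ⊢
    rw [pow_comm hN1, hx, map_zero]

end Main

section Sum

variable {Ω : Type u} [Field Ω] [CharZero Ω] {R : Type} [Field R] [LinearOrder R]
  [IsStrictOrderedRing R] [Algebra R Ω] {q₀ q : ℕ} {𝒪 : Type} [CommRing 𝒪] [Algebra 𝒪 Ω]

/-- The characteristic polynomial on the kernel of `N ^ (n + 1)` of a sum of Tate twists. -/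
theorem euler_sum_pow {ι : Type} [Fintype ι] {S : ι → EulerData 𝒪}
    (X : ∀ i, Realization.{u, v} (S i) Ω R q₀ q) {t : ι → ℕ} {A : Polynomial 𝒪} {V₀ V : Type v}
    [AddCommGroup V₀] [Module Ω V₀] [Module.Finite Ω V₀] [AddCommGroup V] [Module Ω V]
    [Module.Finite Ω V] {F₀ π₀ : Module.End Ω V₀} {F N π : Module.End Ω V} (h₀ : IsProj π₀ F₀)
    (hA : HasPoly F₀ π₀ ⊤ A) (hV : IsTwistedSum q (fun i => (X i).P.H) (fun i => (X i).F)
      (fun i => (X i).P.N) (fun i => (X i).π) t F₀ π₀ F N π) (hq : q ≠ 0)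
    (hinj : Function.Injective (algebraMap 𝒪 Ω)) (n : ℕ) :
    HasPoly F π (LinearMap.ker (N ^ (n + 1)))
      (A * ∏ i, ((S i).K q n).scaleRoots ((q : 𝒪) ^ t i)) := by
  classical
  have hqΩ : (q : Ω) ≠ 0 := Nat.cast_ne_zero.2 hq
  obtain ⟨e₀, e, hbij, hF₀, hN₀, hπ₀, hi⟩ := hV
  set F' : ∀ i, Module.End Ω (X i).P.H := fun i => ((q : Ω) ^ t i) • (X i).F with hF'
  set π' : ∀ i, Module.End Ω (X i).P.H := fun i => (X i).π with hπ'
  set U : ∀ i, Submodule Ω (X i).P.H := fun i => LinearMap.ker ((X i).P.N ^ (n + 1)) with hU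
  let E : V →ₗ[Ω] V₀ × ∀ i, (X i).P.H := e₀.prod (LinearMap.pi e)
  have hE : Function.Bijective E := hbij
  have hgood : ∀ i, Good (F' i) (π' i) (U i) := fun i => (good_ker_pow (X i) (n + 1)).smul _
  have hg : Good (F₀.prodMap (piEnd F')) (π₀.prodMap (piEnd π'))
      ((⊤ : Submodule Ω V₀).prod (piSub U Finset.univ)) :=
    (goodTerm h₀).prod (Good.pi hgood _)
  have hNi : ∀ (n : ℕ) (x : V) (i : ι), e i ((N ^ n) x) = ((X i).P.N ^ n) (e i x) := by
    intro n
    induction n with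
    | zero => intro x i; rfl
    | succ n ih =>
      intro x i
      rw [pow_succ', Module.End.mul_apply, (hi i).2.1, ih, pow_succ', Module.End.mul_apply]
  have hN₀' : ∀ (x : V), e₀ ((N ^ (n + 1)) x) = 0 := by
    intro x
    rw [pow_succ', Module.End.mul_apply, hN₀]
    rfl
  have hmem : ∀ x, x ∈ LinearMap.ker (N ^ (n + 1)) ↔
      E x ∈ (⊤ : Submodule Ω V₀).prod (piSub U Finset.univ) := by
    intro x
    constructor
    · intro hx
      refine ⟨trivial, fun i => ?_, fun i hi => absurd (Finset.mem_univ i) hi⟩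
      rw [LinearMap.mem_ker] at hx
      have h1 := hNi (n + 1) x i
      rw [hx, map_zero] at h1
      exact h1.symm
    · rintro ⟨-, h1, -⟩
      rw [LinearMap.mem_ker]
      apply hE.1
      rw [map_zero]
      exact Prod.ext (hN₀' x) (funext fun i => (hNi (n + 1) x i).trans (h1 i))
  have heF : ∀ x, E (F x) = (F₀.prodMap (piEnd F')) (E x) := fun x =>
    Prod.ext (hF₀ x) (funext fun i => (hi i).1 x)
  have heπ : ∀ x, E (π x) = (π₀.prodMap (piEnd π')) (E x) := fun x =>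
    Prod.ext (hπ₀ x) (funext fun i => (hi i).2.2 x)
  have hker : Good F π (LinearMap.ker (N ^ (n + 1))) := by
    refine ⟨fun x hx => ?_, fun x hx => ?_, fun x hx => ?_, fun x hx => ?_⟩
    · rw [hmem] at hx ⊢
      rw [heF]
      exact hg.stab _ hx
    · rw [hmem] at hx ⊢
      rw [heπ]
      exact hg.stab' _ hx
    · rw [hmem] at hx
      apply hE.1
      rw [heπ, heπ]
      exact hg.idem _ hx
    · rw [hmem] at hx
      apply hE.1
      rw [heπ, heF, heF, heπ]
      exact hg.comm _ hx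
  have h1 : cpf F π (LinearMap.ker (N ^ (n + 1))) =
      cpf (F₀.prodMap (piEnd F')) (π₀.prodMap (piEnd π'))
        ((⊤ : Submodule Ω V₀).prod (piSub U Finset.univ)) := by
    refine cpf_iso E hker hg (fun x hx => (hmem x).1 hx) ?_ (fun x _ => heF x)
      (fun x _ => heπ x) (fun x _ hx => ?_)
    · intro y hy
      obtain ⟨x, rfl⟩ := hE.2 y
      exact ⟨x, (hmem x).2 hy, rfl⟩
    · exact hE.1 (hx.trans (map_zero E).symm)
  have h2 : ∀ i, cpf (F' i) (π' i) (U i) =
      (((S i).K q n).scaleRoots ((q : 𝒪) ^ t i)).map (algebraMap 𝒪 Ω) := by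
    intro i
    have h3 := (map_Mp (X i) hq hinj n).2
    rw [hF', cpf_smul (pow_ne_zero _ hqΩ) (good_ker_pow (X i) (n + 1)), map_scale hinj, ← h3,
      map_pow, map_natCast]
    rw [h3]
    exact cpf_monic _ _ _
  apply hasPoly_of_cpf hker
  rw [Polynomial.map_mul, hA.eq_cpf, Polynomial.map_prod, ← Finset.prod_congr rfl fun i _ => h2 i,
    ← cpf_piSub hgood, ← cpf_prod (goodTerm h₀) (Good.pi hgood _), ← h1]

end Sum

end Pool.Agent.Y143.Par
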