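import Pool.Agent.Y143.Par.Euler
import Pool.Agent.Y143.Par.CpPi

/-!
# The local Euler factor of sums of Tate twists
-/

namespace Pool.Agent.Y143.Par

universe u v

open Module Polynomial

variable {Ω : Type u} [Field Ω] [CharZero Ω] {R : Type} [Field R] [LinearOrder R]
  [IsStrictOrderedRing R] [Algebra R Ω] {q₀ q : ℕ} {𝒪 : Type} [CommRing 𝒪] [Algebra 𝒪 Ω]

/-- The characteristic polynomial on the inertia invariants of a sum of Tate twists. -/
theorem euler_sum {ι : Type} [Fintype ι] {S : ι → EulerData 𝒪}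
    (X : ∀ i, Realization.{u, v} (S i) Ω R q₀ q) {t : ι → ℕ} {A : Polynomial 𝒪} {V₀ V : Type v}
    [AddCommGroup V₀] [Module Ω V₀] [Module.Finite Ω V₀] [AddCommGroup V] [Module Ω V]
    [Module.Finite Ω V] {F₀ π₀ : Module.End Ω V₀} {F N π : Module.End Ω V} (h₀ : IsProj π₀ F₀)
    (hA : HasPoly F₀ π₀ ⊤ A) (hV : IsTwistedSum q (fun i => (X i).P.H) (fun i => (X i).F)
      (fun i => (X i).P.N) (fun i => (X i).π) t F₀ π₀ F N π) (hq : q ≠ 0)
    (hinj : Function.Injective (algebraMap 𝒪 Ω)) :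
    HasPoly F π (LinearMap.ker N) (A * ∏ i, ((S i).G q).scaleRoots ((q : 𝒪) ^ t i)) := by
  classical
  have hqΩ : (q : Ω) ≠ 0 := Nat.cast_ne_zero.2 hq
  obtain ⟨e₀, e, hbij, hF₀, hN₀, hπ₀, hi⟩ := hV
  set F' : ∀ i, Module.End Ω (X i).P.H := fun i => ((q : Ω) ^ t i) • (X i).F with hF'
  set π' : ∀ i, Module.End Ω (X i).P.H := fun i => (X i).π with hπ'
  set U : ∀ i, Submodule Ω (X i).P.H := fun i => LinearMap.ker (X i).P.N with hU
  let E : V →ₗ[Ω] V₀ × ∀ i, (X i).P.H := e₀.prod (LinearMap.pi e)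
  have hE : Function.Bijective E := hbij
  have hgood : ∀ i, Good (F' i) (π' i) (U i) := fun i => (good_ker (X i)).smul _
  have hg : Good (F₀.prodMap (piEnd F')) (π₀.prodMap (piEnd π'))
      ((⊤ : Submodule Ω V₀).prod (piSub U Finset.univ)) :=
    (goodTerm h₀).prod (Good.pi hgood _)
  have hmem : ∀ x, x ∈ LinearMap.ker N ↔
      E x ∈ (⊤ : Submodule Ω V₀).prod (piSub U Finset.univ) := by
    intro x
    constructor
    · intro hx
      refine ⟨trivial, fun i => ?_, fun i hi => absurd (Finset.mem_univ i) hi⟩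
      rw [LinearMap.mem_ker] at hx
      have h1 := (hi i).2.1 x
      rw [hx, map_zero] at h1
      exact h1.symm
    · rintro ⟨-, h1, -⟩
      rw [LinearMap.mem_ker]
      apply hE.1
      rw [map_zero]
      exact Prod.ext (hN₀ x) (funext fun i => ((hi i).2.1 x).trans (h1 i))
  have heF : ∀ x, E (F x) = (F₀.prodMap (piEnd F')) (E x) := fun x =>
    Prod.ext (hF₀ x) (funext fun i => (hi i).1 x)
  have heπ : ∀ x, E (π x) = (π₀.prodMap (piEnd π')) (E x) := fun x =>
    Prod.ext (hπ₀ x) (funext fun i => (hi i).2.2 x)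
  have hker : Good F π (LinearMap.ker N) := by
    refine ⟨fun x hx => ?_, fun x hx => ?_, fun x hx => ?_, fun x hx => ?_⟩
    · rw [hmem] at hx ⊢
      rw [heF]
      exact hg.stab _ hx
    · rw [hmem] at hx ⊢
      rw [heπ]
      exact hg.stab' _ hx
    · rw [hmem] at hx
      apply hE.1
      rw [heπ, heπ]
      exact hg.idem _ hx
    · rw [hmem] at hx
      apply hE.1
      rw [heπ, heF, heF, heπ]
      exact hg.comm _ hx
  have h1 : cpf F π (LinearMap.ker N) = cpf (F₀.prodMap (piEnd F')) (π₀.prodMap (piEnd π'))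
      ((⊤ : Submodule Ω V₀).prod (piSub U Finset.univ)) := by
    refine cpf_iso E hker hg (fun x hx => (hmem x).1 hx) ?_ (fun x _ => heF x)
      (fun x _ => heπ x) (fun x _ hx => ?_)
    · intro y hy
      obtain ⟨x, rfl⟩ := hE.2 y
      exact ⟨x, (hmem x).2 hy, rfl⟩
    · exact hE.1 (hx.trans (map_zero E).symm)
  have h2 : ∀ i, cpf (F' i) (π' i) (U i) =
      (((S i).G q).scaleRoots ((q : 𝒪) ^ t i)).map (algebraMap 𝒪 Ω) := by
    intro i
    have h3 := euler (X i) hq hinj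
    rw [hF', cpf_smul (pow_ne_zero _ hqΩ) (good_ker (X i)), map_scale hinj, ← h3, map_pow,
      map_natCast]
    rw [h3]
    exact cpf_monic _ _ _
  apply hasPoly_of_cpf hker
  rw [Polynomial.map_mul, hA.eq_cpf, Polynomial.map_prod, ← Finset.prod_congr rfl fun i _ => h2 i,
    ← cpf_piSub hgood, ← cpf_prod (goodTerm h₀) (Good.pi hgood _), ← h1]

end Pool.Agent.Y143.Par
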