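import Mathlib

/-!
# Characteristic polynomials on the part fixed by a projector
-/

namespace Pool.Agent.Y143.Par

universe u v

open Module

variable {Ω : Type u} [Field Ω] {V : Type v} [AddCommGroup V] [Module Ω V]

/-- The elements of the subspace `U` which are fixed by `π`. -/
def fixed (π : Module.End Ω V) (U : Submodule Ω V) : Submodule Ω V where
  carrier := {x | x ∈ U ∧ π x = x}
  add_mem' := fun {x y} hx hy => ⟨add_mem hx.1 hy.1, by rw [map_add, hx.2, hy.2]⟩
  zero_mem' := ⟨zero_mem _, map_zero _⟩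
  smul_mem' := fun c x hx => ⟨U.smul_mem c hx.1, by rw [map_smul, hx.2]⟩

/-- The part of the subspace `U` fixed by `π` is stable under `F`, and the characteristic polynomial
of `F` on it is the polynomial `p` with coefficients in `𝒪`. -/
def HasPoly [Module.Finite Ω V] {𝒪 : Type} [CommRing 𝒪] [Algebra 𝒪 Ω] (F π : Module.End Ω V)
    (U : Submodule Ω V) (p : Polynomial 𝒪) : Prop :=
  ∃ h : ∀ x ∈ fixed π U, F x ∈ fixed π U, (F.restrict h).charpoly = p.map (algebraMap 𝒪 Ω)

/-- `π` is idempotent and commutes with `F`. -/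
def IsProj (π F : Module.End Ω V) : Prop := (∀ x, π (π x) = π x) ∧ ∀ x, π (F x) = F (π x)

/-- `U` is stable under `F`. -/
def IsStable (F : Module.End Ω V) (U : Submodule Ω V) : Prop := ∀ x ∈ U, F x ∈ U

/-- `f` transforms `F` into `F'`. -/
def Commutes {V' : Type v} [AddCommGroup V'] [Module Ω V'] (f : V →ₗ[Ω] V') (F : Module.End Ω V)
    (F' : Module.End Ω V') : Prop := ∀ x, f (F x) = F' (f x)

/-- The relation `S` between `V` and `V'` is preserved by `F` and `F'`. -/
def Acts {V' : Type v} [AddCommGroup V'] [Module Ω V'] (S : Submodule Ω (V × V'))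
    (F : Module.End Ω V) (F' : Module.End Ω V') : Prop := ∀ v x, (v, x) ∈ S → (F v, F' x) ∈ S

/-- `(V, F, N, π)` is isomorphic to the direct sum of the Tate twists `(H i, F' i, N' i, π' i)(- t i)`
and of `(V₀, F₀, 0, π₀)`. -/
def IsTwistedSum (q : ℕ) {ι : Type} (H : ι → Type v) [∀ i, AddCommGroup (H i)]
    [∀ i, Module Ω (H i)] (F' N' π' : ∀ i, Module.End Ω (H i)) (t : ι → ℕ) {V₀ : Type v}
    [AddCommGroup V₀] [Module Ω V₀] (F₀ π₀ : Module.End Ω V₀) (F N π : Module.End Ω V) : Prop :=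
  ∃ (e₀ : V →ₗ[Ω] V₀) (e : ∀ i, V →ₗ[Ω] H i), Function.Bijective (fun x => (e₀ x, fun i => e i x)) ∧
    Commutes e₀ F F₀ ∧ Commutes e₀ N 0 ∧ Commutes e₀ π π₀ ∧
    ∀ i, Commutes (e i) F ((q : Ω) ^ t i • F' i) ∧ Commutes (e i) N (N' i) ∧
      Commutes (e i) π (π' i)

end Pool.Agent.Y143.Par
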