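import Pool.Agent.Y143.Par.Defs
import Pool.Agent.Y143.Pure
import Pool.Agent.Y143.Mon

/-!
# From the graded pieces of the weight filtration to mw purity
-/

namespace Pool.Agent.Y143.Par

universe u v

open Module

variable {Ω : Type u} [Field Ω] {V C : Type v} [AddCommGroup V] [Module Ω V] [AddCommGroup C]
  [Module Ω C]

/-- The iterate of the operators `N' κ`, `N' (κ - 2)`, ... -/
def itN (N' : ℤ → Module.End Ω C) (κ : ℤ) : ℕ → Module.End Ω C
  | 0 => 1
  | j + 1 => N' (κ - 2 * j) * itN N' κ j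

variable {W : ℤ → Submodule Ω V} {S : ℤ → Submodule Ω (V × C)} {Z B : ℤ → Submodule Ω C}
  {Φ N : Module.End Ω V} {F' N' : ℤ → Module.End Ω C} {m : ℤ}

lemma W_cast {w w' : ℤ} (h : w = w') {v : V} (hv : v ∈ W w) : v ∈ W w' := by subst h; exact hv

lemma S_cast {w w' : ℤ} (h : w = w') {v : V × C} (hv : v ∈ S w) : v ∈ S w' := by
  subst h; exact hv

lemma pow_S (hN : ∀ w v x, (v, x) ∈ S w → (N v, N' (w - m) x) ∈ S (w - 2)) {κ : ℤ} {v : V} {x : C}
    (h : (v, x) ∈ S (m + κ)) (j : ℕ) : ((N ^ j) v, itN N' κ j x) ∈ S (m + κ - 2 * j) := by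
  induction j with
  | zero => simpa [itN] using h
  | succ j ih =>
    have h1 := hN _ _ _ ih
    rw [← Module.End.mul_apply, ← pow_succ', show m + κ - 2 * (j : ℤ) - m = κ - 2 * j by ring,
      ← Module.End.mul_apply] at h1
    exact S_cast (by push_cast; ring) h1

/-- mw purity from the properties of the `E_2`-term. -/
theorem isMWPure_of_page [CharZero Ω] [FiniteDimensional Ω C] {q : ℕ}
    (hG : HasGraded W S (fun w => Z (w - m)) (fun w => B (w - m)))
    (hF : ∀ w v x, (v, x) ∈ S w → (Φ v, F' (w - m) x) ∈ S w)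
    (hN : ∀ w v x, (v, x) ∈ S w → (N v, N' (w - m) x) ∈ S (w - 2))
    (hBZ : ∀ κ, B κ ≤ Z κ) (hFB : ∀ κ x, x ∈ B κ → F' κ x ∈ B κ)
    (hinj : ∀ a : ℕ, 1 ≤ a → ∀ x ∈ Z a, itN N' a a x ∈ B (-a) → x ∈ B a)
    (hsurj : ∀ a : ℕ, 1 ≤ a → ∀ y ∈ Z (-a), ∃ x ∈ Z a, y - itN N' a a x ∈ B (-a))
    (hweil : ∀ (κ : ℤ) (α : Ω) (x : C), x ∈ Z κ → x ≠ 0 → F' κ x = α • x → IsWeilNumber q (m + κ) α) :
    IsMWPure q m Φ N := by
  refine ⟨fun a => W (m + a), ⟨fun a b hab => hG.W_mono (by omega), ?_, ?_, ?_, ?_, ?_⟩, ?_, ?_⟩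
  · obtain ⟨w, hw⟩ := hG.W_bot
    refine ⟨w - m, ?_⟩
    show W (m + (w - m)) = ⊥
    rw [show m + (w - m) = w by ring, hw]
  · obtain ⟨w, hw⟩ := hG.W_top
    refine ⟨w - m, ?_⟩
    show W (m + (w - m)) = ⊤
    rw [show m + (w - m) = w by ring, hw]
  · intro a v hv
    obtain ⟨x, hx⟩ := hG.sp_left _ v hv
    exact W_cast (by ring) (hG.sp_mem _ _ _ (hN _ _ _ hx)).1
  · intro a v hv hNv
    obtain ⟨x, hx⟩ := hG.sp_left _ v hv
    rcases Nat.eq_zero_or_pos a with rfl | ha
    · rw [pow_zero] at hNv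
      exact W_cast (by push_cast; ring) hNv
    · have h1 := pow_S hN hx a
      have h2 := (hG.sp_ker _ _ _ h1).1 (W_cast (by ring) hNv)
      have h3 := (hG.sp_mem _ _ _ hx).2
      try simp only at h2 h3
      rw [show m + (a : ℤ) - 2 * a - m = -a by ring] at h2
      rw [show m + (a : ℤ) - m = a by ring] at h3
      have h5 := hinj a ha x h3 h2
      refine W_cast (by ring) ((hG.sp_ker _ _ _ hx).2 ?_)
      rwa [show m + (a : ℤ) - m = a by ring]
  · intro a v hv
    obtain ⟨y, hy⟩ := hG.sp_left _ v hv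
    rcases Nat.eq_zero_or_pos a with rfl | ha
    · refine ⟨v, W_cast (by push_cast; ring) hv, ?_⟩
      rw [pow_zero, Module.End.one_apply, sub_self]
      exact Submodule.zero_mem _
    · have h1 := (hG.sp_mem _ _ _ hy).2
      try simp only at h1
      rw [show m + -(a : ℤ) - m = -a by ring] at h1
      obtain ⟨x, hx, hxy⟩ := hsurj a ha y h1
      obtain ⟨v', hv'⟩ := hG.sp_right (m + a) x (by
        rwa [show m + (a : ℤ) - m = a by ring])
      refine ⟨v', (hG.sp_mem _ _ _ hv').1, ?_⟩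
      have h2 := pow_S hN hv' a
      have h3 : (v - (N ^ a) v', y - itN N' a a x) ∈ S (m + -(a : ℤ)) :=
        Submodule.sub_mem _ hy (S_cast (show m + (a : ℤ) - 2 * a = m + -a by ring) h2)
      have h6 := (hG.sp_ker _ _ _ h3).2 (by
        try simp only
        rwa [show m + -(a : ℤ) - m = -a by ring])
      exact W_cast (by ring) h6
  · intro a v hv
    obtain ⟨x, hx⟩ := hG.sp_left _ v hv
    exact (hG.sp_mem _ _ _ (hF _ v x hx)).1
  · intro a α v hv hv' hα
    obtain ⟨x, hx⟩ := hG.sp_left _ v hv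
    have h1 := (hG.sp_mem _ _ _ hx).2
    try simp only at h1
    rw [show m + a - m = a by ring] at h1
    have h2 : x ∉ B a := by
      intro hc
      apply hv'
      refine W_cast (by ring) ((hG.sp_ker _ _ _ hx).2 ?_)
      try simp only
      rwa [show m + a - m = a by ring]
    have h3 : (Φ v - α • v, F' a x - α • x) ∈ S (m + a) := by
      have h4 := hF _ v x hx
      rw [show m + a - m = a by ring] at h4
      exact Submodule.sub_mem _ h4 (Submodule.smul_mem _ α hx)
    have h5 : F' a x - α • x ∈ B a := by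
      have := (hG.sp_ker _ _ _ h3).1 (W_cast (by ring) hα)
      try simp only at this
      rwa [show m + a - m = a by ring] at this
    obtain ⟨y, hy, hy0, hyα⟩ := exists_eigen (S := F' a) (hBZ a) (hFB a) h1 h2 h5
    have h6 := hweil a α y hy hy0 hyα
    rwa [add_comm] at h6

end Pool.Agent.Y143.Par
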