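import Pool.Agent.Y143.Par.General

/-!
# The parabolic cohomology is mw pure
-/

namespace Pool.Agent.Y143.Par

universe u v

open Module Matrix

variable {Ω : Type u} [Field Ω] [CharZero Ω] {R : Type} [Field R] [LinearOrder R]
  [IsStrictOrderedRing R] [Algebra R Ω] {q k : ℕ}

omit [CharZero Ω] [IsStrictOrderedRing R] in
lemma matMap_smul_diag {E : Type*} [Fintype E] [DecidableEq E] {T : Type v} [AddCommGroup T]
    [Module Ω T] (l : E → R) (x : E → T) :
    matMap Ω T (Matrix.diagonal l) x = fun e => algebraMap R Ω (l e) • x e := by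
  funext e
  rw [matMap_apply, Finset.sum_eq_single e]
  · rw [Matrix.diagonal_apply_eq]
  · intro b _ hb
    rw [Matrix.diagonal_apply_ne _ hb.symm, map_zero, zero_smul]
  · intro h
    exact absurd (Finset.mem_univ e) h

lemma isPosDef_diag {E : Type*} [Fintype E] [DecidableEq E] (l : E → R) (hl : ∀ e, 0 < l e) :
    IsPosDef (Matrix.diagonal l) := by
  refine ⟨Matrix.isSymm_diagonal l, fun x hx => ?_⟩
  obtain ⟨e, he⟩ := Function.ne_iff.1 hx
  rw [dotProduct]
  apply Finset.sum_pos'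
  · intro i _
    rw [Matrix.mulVec_diagonal]
    nlinarith [mul_nonneg (hl i).le (mul_self_nonneg (x i))]
  · refine ⟨e, Finset.mem_univ e, ?_⟩
    rw [Matrix.mulVec_diagonal]
    have : 0 < x e * x e := by
      have h0 : x e ≠ 0 := he
      exact mul_self_pos.2 h0
    nlinarith [mul_pos (hl e) this]

namespace MultiplicativePart

variable (P : MultiplicativePart.{u, v} Ω R)

omit [CharZero Ω] [IsStrictOrderedRing R] in
lemma d_apply (f : P.A) (c : P.Cl) :
    P.d f c = matMap Ω (P.T c) ((P.graph c).inc R) (f c) := rfl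

omit [CharZero Ω] [IsStrictOrderedRing R] in
lemma d'_apply (f : P.B) (c : P.Cl) :
    P.d' f c = matMap Ω (P.T c) ((P.graph c).inc R)ᵀ (f c) := rfl

omit [CharZero Ω] [IsStrictOrderedRing R] in
lemma frob_d (f : P.A) : P.frobB (P.d f) = P.d (P.frobA f) := by
  refine funext fun c => funext fun e => ?_
  exact (matMap_comp ((P.graph c).inc R) (P.frob c) (f c) e).symm

variable {P}

omit [CharZero Ω] in
lemma endVal_nonneg (h : ∀ c v, 0 < P.val c v) (c : P.Cl) (o : Option (P.graph c).Vert) :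
    0 ≤ Graph.endVal (P.val c) o := by
  cases o with
  | none => exact le_rfl
  | some v => exact (h c v).le

lemma IsGood.len_pos (h : P.IsGood q k) (c : P.Cl) (e : (P.graph c).Edge) : 0 < P.len k c e := by
  have h1 := endVal_nonneg h.positive.val_pos c ((P.graph c).fst e)
  have h2 := endVal_nonneg h.positive.val_pos c ((P.graph c).snd e)
  rw [MultiplicativeTerms.len]
  apply Finset.sum_pos'
  · intro i _
    exact mul_nonneg (pow_nonneg h1 _) (pow_nonneg h2 _)
  · rcases hf : (P.graph c).fst e with _ | v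
    · rcases hs : (P.graph c).snd e with _ | w
      · exact absurd ⟨hf, hs⟩ (h.positive.not_open c e)
      · refine ⟨0, Finset.mem_range.2 (Nat.succ_pos k), ?_⟩
        rw [pow_zero, one_mul]
        exact pow_pos (h.positive.val_pos c w) _
    · refine ⟨k, Finset.mem_range.2 (Nat.lt_succ_self k), ?_⟩
      rw [Nat.sub_self, pow_zero, mul_one]
      exact pow_pos (h.positive.val_pos c v) _

lemma IsGood.inj (h : P.IsGood q k) {x : P.B} (hx : P.d' x = 0) {f : P.A}
    (hf : P.down (P.up x) = P.d f) : x = 0 := by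
  classical
  refine funext fun c => ?_
  set M := (P.graph c).inc R
  set l : (P.graph c).Edge → R := fun e => (P.len k c e)⁻¹ with hl
  have hpos : ∀ e, 0 < l e := fun e => inv_pos.2 (h.len_pos c e)
  have h1 : x c = matMap Ω (P.T c) (Matrix.diagonal l * M) (f c) := by
    rw [matMap_mul, matMap_smul_diag]
    funext e
    have h2 : matMap Ω (P.T c) M (f c) e = algebraMap R Ω (P.len k c e) • x c e := by
      have h3 := h.down_up x
      rw [hf] at h3
      exact congrFun (congrFun h3 c) e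
    rw [h2, smul_smul, ← map_mul, hl]
    simp only
    rw [inv_mul_cancel₀ (h.len_pos c e).ne', map_one, one_smul]
  change x c = 0
  rw [h1]
  apply matMap_inj M (isPosDef_diag l hpos)
  rw [← matMap_mul, Matrix.mul_assoc, matMap_mul, ← h1]
  exact congrFun hx c

lemma IsGood.surj (h : P.IsGood q k) (y : P.B) :
    ∃ (x : P.B) (f : P.A), P.d' x = 0 ∧ y = P.down (P.up x) + P.d f := by
  classical
  have key : ∀ c, ∃ f : (P.graph c).Vert → P.T c,
      matMap Ω (P.T c) (((P.graph c).inc R)ᵀ * Matrix.diagonal fun e => (P.len k c e)⁻¹)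
        (y c - matMap Ω (P.T c) ((P.graph c).inc R) f) = 0 := fun c =>
    matMap_surj _ (isPosDef_diag _ fun e => inv_pos.2 (h.len_pos c e)) _
  choose f hf using key
  refine ⟨fun c => matMap Ω (P.T c) (Matrix.diagonal fun e => (P.len k c e)⁻¹)
    (y c - matMap Ω (P.T c) ((P.graph c).inc R) (f c)), f, ?_, ?_⟩
  · refine funext fun c => ?_
    rw [d'_apply, ← matMap_mul]
    exact hf c
  · rw [h.down_up]
    refine funext fun c => funext fun e => ?_
    set z : (P.graph c).Edge → P.T c := y c - matMap Ω (P.T c) ((P.graph c).inc R) (f c) with hz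
    change y c e = algebraMap R Ω (P.len k c e) •
      (matMap Ω (P.T c) (Matrix.diagonal fun e => (P.len k c e)⁻¹) z e) +
      matMap Ω (P.T c) ((P.graph c).inc R) (f c) e
    have h5 : matMap Ω (P.T c) (Matrix.diagonal fun e => (P.len k c e)⁻¹) z e =
        algebraMap R Ω (P.len k c e)⁻¹ • z e := by
      rw [matMap_smul_diag]
    have h6 : z e + matMap Ω (P.T c) ((P.graph c).inc R) (f c) e = y c e := by
      rw [hz]
      exact sub_add_cancel _ _
    rw [h5, smul_smul, ← map_mul, mul_inv_cancel₀ (h.len_pos c e).ne', map_one, one_smul, h6]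

end MultiplicativePart

namespace GoodPart

variable (P : GoodPart.{u, v} Ω R)

omit [CharZero Ω] [IsStrictOrderedRing R] in
lemma frob_d (f : P.A) : P.frobB (P.d f) ∈ LinearMap.range P.d := by
  refine ⟨fun τ v => P.frob τ (f τ v), ?_⟩
  refine funext fun τ => funext fun e => ?_
  exact matMap_comp (P.res τ) (P.frob τ) (f τ) e

variable {P}

lemma _root_.Pool.Agent.Y143.Par.IsPosDef.isUnit {E : Type*} [Fintype E] [DecidableEq E]
    {S : Matrix E E R} (hS : IsPosDef S) : ∃ S' : Matrix E E R, S' * S = 1 := by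
  have hinj : Function.Injective S.mulVec := by
    have : Function.Injective S.mulVecLin := by
      rw [← LinearMap.ker_eq_bot, LinearMap.ker_eq_bot']
      intro x hx
      by_contra hne
      have h1 := hS.pos x hne
      rw [Matrix.mulVecLin_apply] at hx
      rw [hx, dotProduct_zero] at h1
      exact lt_irrefl _ h1
    exact this
  have hu : IsUnit S := Matrix.mulVec_injective_iff_isUnit.1 hinj
  obtain ⟨u, rfl⟩ := hu
  exact ⟨(u⁻¹ : (Matrix E E R)ˣ), u.inv_mul⟩

omit [CharZero Ω] [IsStrictOrderedRing R] in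
lemma matMap_one {E : Type*} [Fintype E] [DecidableEq E] {T : Type v} [AddCommGroup T]
    [Module Ω T] (x : E → T) : matMap Ω T (1 : Matrix E E R) x = x := by
  rw [← Matrix.diagonal_one, matMap_smul_diag]
  simp

lemma IsGood.inj (h : P.IsGood q k) {f : P.A} (hf : P.d' (P.d f) = 0) : P.d f = 0 := by
  classical
  refine funext fun τ => ?_
  obtain ⟨S', hS'⟩ := (h.posDef τ).isUnit
  have h1 := matMap_inj (Ω := Ω) (T := P.T τ) (P.res τ) (h.posDef τ) (f τ) (congrFun hf τ)
  have h2 : P.d f τ = matMap Ω (P.T τ) S' (matMap Ω (P.T τ) (P.form τ * P.res τ) (f τ)) := by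
    rw [← matMap_mul, ← Matrix.mul_assoc, hS', Matrix.one_mul]
    rfl
  rw [h2, h1, map_zero]
  rfl

lemma IsGood.surj (h : P.IsGood q k) (y : P.B) : ∃ f : P.A, P.d' (y - P.d f) = 0 := by
  have key : ∀ τ, ∃ f : P.Vert τ → P.T τ,
      matMap Ω (P.T τ) ((P.res τ)ᵀ * P.form τ) (y τ - matMap Ω (P.T τ) (P.res τ) f) = 0 :=
    fun τ => matMap_surj _ (h.posDef τ) _
  choose f hf using key
  exact ⟨f, funext fun τ => hf τ⟩

end GoodPart

namespace WeightPage

variable (P : WeightPage.{u, v} Ω R)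

omit [CharZero Ω] [IsStrictOrderedRing R] in
lemma NC_fst_fst (κ : ℤ) (c : P.C) :
    (P.NC κ c).1.1 = if κ = 1 - P.k then P.mult.down c.1.2 else 0 := by
  change (if κ = 1 - P.k then P.mult.down else 0 : P.mult.mid →ₗ[Ω] P.mult.B) c.1.2 = _
  split_ifs <;> rfl

omit [CharZero Ω] [IsStrictOrderedRing R] in
lemma NC_fst_snd (κ : ℤ) (c : P.C) :
    (P.NC κ c).1.2 = (if κ = P.k + 1 then P.mult.up c.1.1 else 0) +
      (if κ = 1 - P.k then 0 else c.1.2) := by
  change (if κ = P.k + 1 then P.mult.up else 0 : P.mult.B →ₗ[Ω] P.mult.mid) c.1.1 +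
    (if κ = 1 - P.k then 0 else 1 : Module.End Ω P.mult.mid) c.1.2 = _
  split_ifs <;> rfl

omit [CharZero Ω] [IsStrictOrderedRing R] in
lemma NC_snd_fst (κ : ℤ) (c : P.C) : (P.NC κ c).2.1 = if κ = 1 then c.2.1 else 0 := by
  change (if κ = 1 then 1 else 0 : Module.End Ω P.good.B) c.2.1 = _
  split_ifs <;> rfl

omit [CharZero Ω] [IsStrictOrderedRing R] in
lemma NC_snd_snd (κ : ℤ) (c : P.C) : (P.NC κ c).2.2 = P.pure.N c.2.2 := rfl

omit [CharZero Ω] [IsStrictOrderedRing R] in
lemma it_pure (κ : ℤ) (j : ℕ) (c : P.C) : (itN P.NC κ j c).2.2 = (P.pure.N ^ j) c.2.2 := by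
  induction j with
  | zero => rfl
  | succ j ih => rw [itN, Module.End.mul_apply, NC_snd_snd, ih, pow_succ', Module.End.mul_apply]

omit [CharZero Ω] [IsStrictOrderedRing R] in
lemma it_good_zero (κ : ℤ) (j : ℕ) {c : P.C} (h : c.2.1 = 0) : (itN P.NC κ j c).2.1 = 0 := by
  induction j with
  | zero => exact h
  | succ j ih => rw [itN, Module.End.mul_apply, NC_snd_fst, ih, ite_self]

omit [CharZero Ω] [IsStrictOrderedRing R] in
lemma it_good_one (c : P.C) : (itN P.NC 1 1 c).2.1 = c.2.1 := by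
  rw [itN, Module.End.mul_apply, NC_snd_fst]
  simp [itN]

omit [CharZero Ω] [IsStrictOrderedRing R] in
lemma it_mid (κ : ℤ) (j : ℕ) {c : P.C} (h : c.1.1 = 0)
    (hj : ∀ i : ℕ, i < j → κ - 2 * i ≠ 1 - P.k) :
    (itN P.NC κ j c).1.1 = 0 ∧ (itN P.NC κ j c).1.2 = c.1.2 := by
  induction j with
  | zero => exact ⟨h, rfl⟩
  | succ j ih =>
    obtain ⟨h1, h2⟩ := ih fun i hi => hj i (by omega)
    have h3 := hj j (by omega)
    rw [itN, Module.End.mul_apply, NC_fst_fst, NC_fst_snd, h1, h2, if_neg h3, if_neg h3, map_zero,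
      ite_self, zero_add]
    exact ⟨rfl, rfl⟩

omit [CharZero Ω] [IsStrictOrderedRing R] in
lemma it_top (hk : 1 ≤ P.k) {c : P.C} (h : c.1.2 = 0) (j : ℕ) (hj1 : 1 ≤ j) (hj : j ≤ P.k) :
    (itN P.NC (P.k + 1) j c).1.1 = 0 ∧ (itN P.NC (P.k + 1) j c).1.2 = P.mult.up c.1.1 := by
  induction j with
  | zero => omega
  | succ j ih =>
    rcases Nat.eq_zero_or_pos j with rfl | hj0
    · rw [itN, Module.End.mul_apply, NC_fst_fst, NC_fst_snd]
      have h3 : ¬ ((P.k : ℤ) + 1 - 2 * (0 : ℕ) = 1 - P.k) := by push_cast; omega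
      have h4 : (P.k : ℤ) + 1 - 2 * (0 : ℕ) = P.k + 1 := by push_cast; ring
      rw [if_neg h3, if_neg h3, if_pos h4]
      simp only [itN, Module.End.one_apply, h, add_zero, true_and]
    · obtain ⟨h1, h2⟩ := ih hj0 (by omega)
      have h3 : ¬ ((P.k : ℤ) + 1 - 2 * (j : ℕ) = 1 - P.k) := by omega
      have h4 : ¬ ((P.k : ℤ) + 1 - 2 * (j : ℕ) = P.k + 1) := by omega
      rw [itN, Module.End.mul_apply, NC_fst_fst, NC_fst_snd, h1, h2, if_neg h3, if_neg h3,
        if_neg h4, zero_add]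
      exact ⟨rfl, rfl⟩

omit [CharZero Ω] [IsStrictOrderedRing R] in
lemma it_top' (hk : 1 ≤ P.k) {c : P.C} (h : c.1.2 = 0) :
    (itN P.NC (P.k + 1) (P.k + 1) c).1.1 = P.mult.down (P.mult.up c.1.1) ∧
      (itN P.NC (P.k + 1) (P.k + 1) c).1.2 = 0 := by
  obtain ⟨-, h2⟩ := P.it_top hk h P.k hk le_rfl
  have h3 : (P.k : ℤ) + 1 - 2 * (P.k : ℕ) = 1 - P.k := by ring
  have h4 : ¬ ((P.k : ℤ) + 1 - 2 * (P.k : ℕ) = P.k + 1) := by omega
  rw [itN, Module.End.mul_apply, NC_fst_fst, NC_fst_snd, h2, if_pos h3, if_pos h3, if_neg h4,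
    add_zero]
  exact ⟨rfl, rfl⟩

omit [CharZero Ω] [IsStrictOrderedRing R] [Algebra R Ω] in
lemma _root_.Pool.Agent.Y143.Par.inMid_neg {k : ℕ} {κ : ℤ} (h : |κ| < k ∧ 2 ∣ (k : ℤ) + 1 + κ) :
    |(-κ)| < k ∧ 2 ∣ (k : ℤ) + 1 + -κ := ⟨by rw [abs_neg]; exact h.1, by omega⟩

end WeightPage

end Pool.Agent.Y143.Par
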