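import Mathlib

/-!
# Matrices over an ordered field acting on families of vectors
-/

namespace Pool.Agent.Y143.Par

universe u v

open Matrix

section Ordered

variable {R : Type*} [Field R] [LinearOrder R] [IsStrictOrderedRing R]
  {E V : Type*} [Fintype E] [Fintype V]

/-- A symmetric positive definite matrix. -/
structure IsPosDef (S : Matrix E E R) : Prop where
  symm : S.IsSymm
  pos : ∀ x : E → R, x ≠ 0 → 0 < x ⬝ᵥ S *ᵥ x

/-- The normal equations have a solution. -/
theorem exists_normal [DecidableEq E] [DecidableEq V] (M : Matrix E V R) {S : Matrix E E R}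
    (hS : IsPosDef S) : ∃ G : Matrix V E R, Mᵀ * S * M * G = Mᵀ * S := by
  classical
  have hker : ∀ x : V → R, (Mᵀ * S * M) *ᵥ x = 0 → M *ᵥ x = 0 := by
    intro x hx
    by_contra hne
    have h1 := hS.pos (M *ᵥ x) hne
    have h2 : (M *ᵥ x) ⬝ᵥ S *ᵥ (M *ᵥ x) = x ⬝ᵥ (Mᵀ * S * M) *ᵥ x := by
      rw [Matrix.mulVec_mulVec, Matrix.dotProduct_mulVec, Matrix.dotProduct_mulVec,
        ← Matrix.vecMul_vecMul, ← Matrix.vecMul_vecMul]
      rw [← Matrix.vecMul_vecMul, Matrix.vecMul_transpose]
    rw [h2, hx, dotProduct_zero] at h1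
    exact lt_irrefl _ h1
  have hrank : (Mᵀ * S).rank ≤ (Mᵀ * S * M).rank := by
    have h1 : (Mᵀ * S).rank ≤ M.rank := by
      rw [← Matrix.rank_transpose (R := R) M]
      exact Matrix.rank_mul_le_left _ _
    have h2 : M.rank ≤ (Mᵀ * S * M).rank := by
      have e1 := LinearMap.finrank_range_add_finrank_ker M.mulVecLin
      have e2 := LinearMap.finrank_range_add_finrank_ker (Mᵀ * S * M).mulVecLin
      have h3 : LinearMap.ker (Mᵀ * S * M).mulVecLin ≤ LinearMap.ker M.mulVecLin := by
        intro x hx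
        rw [LinearMap.mem_ker, Matrix.mulVecLin_apply] at hx ⊢
        exact hker x hx
      have h4 := Submodule.finrank_mono h3
      unfold Matrix.rank
      omega
    exact h1.trans h2
  have hle : LinearMap.range (Mᵀ * S * M).mulVecLin ≤ LinearMap.range (Mᵀ * S).mulVecLin := by
    rintro _ ⟨x, rfl⟩
    exact ⟨M *ᵥ x, by simp [Matrix.mulVec_mulVec]⟩
  have heq := Submodule.eq_of_le_of_finrank_le hle hrank
  have hcol : ∀ e : E, ∃ x : V → R, (Mᵀ * S * M) *ᵥ x = (Mᵀ * S) *ᵥ (Pi.single e 1) := by
    intro e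
    have : (Mᵀ * S) *ᵥ (Pi.single e 1) ∈ LinearMap.range (Mᵀ * S * M).mulVecLin := by
      rw [heq]
      exact ⟨Pi.single e 1, rfl⟩
    obtain ⟨x, hx⟩ := this
    exact ⟨x, hx⟩
  choose g hg using hcol
  refine ⟨Matrix.of fun v e => g e v, ?_⟩
  ext v e
  have h1 := congrFun (hg e) v
  rw [Matrix.mulVec_single_one] at h1
  rw [Matrix.mul_apply]
  exact h1

end Ordered

section Action

variable (Ω : Type u) [Field Ω] {R : Type*} [CommRing R] [Algebra R Ω]
  {E V W : Type*} [Fintype E] [Fintype V] [Fintype W]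
  (T : Type v) [AddCommGroup T] [Module Ω T]

/-- The action of a matrix with entries in `R` on families of elements of the vector space `T`. -/
def matMap (M : Matrix E V R) : (V → T) →ₗ[Ω] (E → T) where
  toFun f e := ∑ v, algebraMap R Ω (M e v) • f v
  map_add' f g := by
    ext e
    simp [smul_add, Finset.sum_add_distrib]
  map_smul' c f := by
    ext e
    simp only [Pi.smul_apply, RingHom.id_apply, Finset.smul_sum]
    exact Finset.sum_congr rfl fun v _ => by rw [smul_comm]

variable {Ω T}

lemma matMap_apply (M : Matrix E V R) (f : V → T) (e : E) :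
    matMap Ω T M f e = ∑ v, algebraMap R Ω (M e v) • f v := rfl

omit [Fintype W] in
lemma matMap_mul (M : Matrix W E R) (M' : Matrix E V R) (f : V → T) :
    matMap Ω T (M * M') f = matMap Ω T M (matMap Ω T M' f) := by
  ext w
  simp only [matMap_apply, Matrix.mul_apply, map_sum, map_mul, Finset.sum_smul, Finset.smul_sum,
    mul_smul]
  rw [Finset.sum_comm]

omit [Fintype E] in
lemma matMap_comp (M : Matrix E V R) (φ : Module.End Ω T) (f : V → T) (e : E) :
    matMap Ω T M (fun v => φ (f v)) e = φ (matMap Ω T M f e) := by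
  simp only [matMap_apply, map_sum, map_smul]

end Action

section Splitting

variable {Ω : Type u} [Field Ω] {R : Type*} [Field R] [LinearOrder R] [IsStrictOrderedRing R]
  [Algebra R Ω] {E V : Type*} [Fintype E] [Fintype V] {T : Type v} [AddCommGroup T] [Module Ω T]

/-- The kernel of `Mᵀ S` meets the image of `M` in zero. -/
theorem matMap_inj (M : Matrix E V R) {S : Matrix E E R} (hS : IsPosDef S) (f : V → T)
    (h : matMap Ω T (Mᵀ * S) (matMap Ω T M f) = 0) : matMap Ω T (S * M) f = 0 := by
  classical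
  obtain ⟨G, hG⟩ := exists_normal M hS
  have h1 : Gᵀ * (Mᵀ * S * M) = S * M := by
    have := congrArg Matrix.transpose hG
    simp only [Matrix.transpose_mul, Matrix.transpose_transpose, hS.symm.eq] at this
    rw [← this]
    simp only [Matrix.mul_assoc]
  rw [← h1, matMap_mul, Matrix.mul_assoc Mᵀ S M, ← Matrix.mul_assoc Mᵀ S M, matMap_mul, h, map_zero]

/-- Every family is the sum of an element of the kernel of `Mᵀ S` and of the image of `M`. -/
theorem matMap_surj (M : Matrix E V R) {S : Matrix E E R} (hS : IsPosDef S) (y : E → T) :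
    ∃ f : V → T, matMap Ω T (Mᵀ * S) (y - matMap Ω T M f) = 0 := by
  classical
  obtain ⟨G, hG⟩ := exists_normal M hS
  refine ⟨matMap Ω T G y, ?_⟩
  rw [map_sub, ← matMap_mul, ← matMap_mul, hG, sub_self]

end Splitting

end Pool.Agent.Y143.Par
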