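import Pool.Agent.Y143.Par.Sum

/-!
# `(φ, N)`-modules and the Hyodo-Kato version of the parabolic cohomology
-/

namespace Pool.Agent.Y143.Par

universe u v

open Module TensorProduct

/-- A `(φ, N)`-module over `K₀` (with Frobenius `σ`). -/
structure PhiNModule (K₀ : Type u) [Field K₀] (σ : K₀ →+* K₀) (p : ℕ) where
  D : Type v
  [addCommGroup : AddCommGroup D]
  [module : Module K₀ D]
  [finite : Module.Finite K₀ D]
  φ : D →ₛₗ[σ] D
  N : Module.End K₀ D
  bijective : Function.Bijective φ
  N_φ : ∀ x, N (φ x) = (p : K₀) • φ (N x)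

attribute [instance] PhiNModule.addCommGroup PhiNModule.module PhiNModule.finite

namespace PhiNModule

variable {K₀ : Type u} [Field K₀] {σ : K₀ →+* K₀} {p : ℕ} (E : PhiNModule.{u, v} K₀ σ p)

lemma iterate_add (f : ℕ) (x y : E.D) : E.φ^[f] (x + y) = E.φ^[f] x + E.φ^[f] y := by
  induction f with
  | zero => rfl
  | succ f ih => rw [Function.iterate_succ_apply', Function.iterate_succ_apply',
      Function.iterate_succ_apply', ih, map_add]

lemma iterate_smul (f : ℕ) (a : K₀) (x : E.D) : E.φ^[f] (a • x) = (σ^[f] a) • E.φ^[f] x := by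
  induction f with
  | zero => rfl
  | succ f ih => rw [Function.iterate_succ_apply', Function.iterate_succ_apply',
      Function.iterate_succ_apply', ih, LinearMap.map_smulₛₗ]

/-- The linear operator `φ ^ f`, if `σ ^ f` is the identity. -/
def frob (f : ℕ) (hσ : ∀ a, σ^[f] a = a) : Module.End K₀ E.D where
  toFun x := E.φ^[f] x
  map_add' := E.iterate_add f
  map_smul' a x := by rw [E.iterate_smul, hσ, RingHom.id_apply]

/-- The weight-monodromy property for the `(φ, N)`-module `D` over `K₀` (and the weight `m`): `D` has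
a monodromy filtration `M`, it is stable under `φ`, and every eigenvalue `α ∈ Ω` of the linear
operator `φ ^ f` on the graded piece `gr^M_a D` is a Weil number of weight `a + m` for `q = p ^ f`. -/
def IsPure (Ω : Type u) [Field Ω] [CharZero Ω] [Algebra K₀ Ω] (f : ℕ) (hσ : ∀ a, σ^[f] a = a)
    (m : ℤ) : Prop :=
  ∃ M : ℤ → Submodule K₀ E.D, IsMonodromyFiltration E.N M ∧ (∀ a x, x ∈ M a → E.φ x ∈ M a) ∧
    ∀ (a : ℤ) (α : Ω) (x : Ω ⊗[K₀] E.D), x ∈ (M a).baseChange Ω → x ∉ (M (a - 1)).baseChange Ω →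
      (E.frob f hσ).baseChange Ω x - α • x ∈ (M (a - 1)).baseChange Ω →
        IsWeilNumber (p ^ f) (a + m) α

end PhiNModule

/-! ### Base change of monodromy filtrations -/

section BaseChange

variable {K : Type u} [Field K] (Ω : Type u) [Field Ω] [Algebra K Ω] {D : Type v} [AddCommGroup D]
  [Module K D]

lemma baseChange_induction {S : Submodule K D} {P : Ω ⊗[K] D → Prop} (h0 : P 0)
    (ht : ∀ (a : Ω) (s : D), s ∈ S → P (a ⊗ₜ s)) (ha : ∀ x y, P x → P y → P (x + y)) :
    ∀ x ∈ S.baseChange Ω, P x := by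
  rintro _ ⟨y, rfl⟩
  induction y using TensorProduct.induction_on with
  | zero => rwa [map_zero]
  | tmul a s => exact ht a s s.2
  | add y z hy hz => rw [map_add]; exact ha _ _ hy hz

open Classical in
/-- The coordinates of an element of `Ω ⊗ D`. -/
noncomputable def cor (i : Basis.ofVectorSpaceIndex K Ω) : Ω ⊗[K] D →ₗ[K] D :=
  Finsupp.lapply i ∘ₗ (TensorProduct.equivFinsuppOfBasisLeft (Basis.ofVectorSpace K Ω)).toLinearMap

open Classical in
lemma cor_tmul (i : Basis.ofVectorSpaceIndex K Ω) (a : Ω) (x : D) :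
    cor Ω i (a ⊗ₜ[K] x) = (Basis.ofVectorSpace K Ω).repr a i • x := by
  unfold cor
  rw [LinearMap.comp_apply, LinearEquiv.coe_coe, Finsupp.lapply_apply,
    TensorProduct.equivFinsuppOfBasisLeft_apply_tmul_apply]

open Classical in
lemma mem_baseChange_iff (S : Submodule K D) (x : Ω ⊗[K] D) :
    x ∈ S.baseChange Ω ↔ ∀ i, cor Ω i x ∈ S := by
  constructor
  · intro hx i
    revert x
    apply baseChange_induction
    · rw [map_zero]; exact zero_mem _
    · intro a s hs
      rw [cor_tmul]
      exact S.smul_mem _ hs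
    · intro x y hx hy
      rw [map_add]
      exact add_mem hx hy
  · intro h
    have h1 : x = (TensorProduct.equivFinsuppOfBasisLeft (Basis.ofVectorSpace K Ω) x).sum
        fun i n => (Basis.ofVectorSpace K Ω) i ⊗ₜ n := by
      rw [← TensorProduct.equivFinsuppOfBasisLeft_symm_apply, LinearEquiv.symm_apply_apply]
    rw [h1]
    apply Submodule.sum_mem
    intro i _
    exact Submodule.tmul_mem_baseChange_of_mem _ (h i)

lemma cor_map (N : Module.End K D) (i : Basis.ofVectorSpaceIndex K Ω) (x : Ω ⊗[K] D) :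
    cor Ω i (N.baseChange Ω x) = N (cor Ω i x) := by
  induction x using TensorProduct.induction_on with
  | zero => simp
  | tmul a s => rw [LinearMap.baseChange_tmul, cor_tmul, cor_tmul, map_smul]
  | add y z hy hz => simp only [map_add, hy, hz]

lemma cor_map_pow (N : Module.End K D) (j : ℕ) (i : Basis.ofVectorSpaceIndex K Ω)
    (x : Ω ⊗[K] D) : cor Ω i (((N.baseChange Ω) ^ j) x) = (N ^ j) (cor Ω i x) := by
  induction j with
  | zero => rfl
  | succ j ih => rw [pow_succ', Module.End.mul_apply, pow_succ', Module.End.mul_apply, ← ih,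
      cor_map]

lemma eq_zero_of_cor (x : Ω ⊗[K] D) (h : ∀ i, cor Ω i x = 0) : x = 0 := by
  have : x ∈ (⊥ : Submodule K D).baseChange Ω := by
    rw [mem_baseChange_iff]
    intro i
    rw [h i]
    exact zero_mem _
  rwa [Submodule.baseChange_bot, Submodule.mem_bot] at this

/-- The base change of a monodromy filtration is a monodromy filtration. -/
lemma monBaseChange {N : Module.End K D} {M : ℤ → Submodule K D}
    (h : IsMonodromyFiltration N M) :
    IsMonodromyFiltration (N.baseChange Ω) (fun a => (M a).baseChange Ω) := by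
  refine ⟨fun a b hab => Submodule.baseChange_mono Ω (h.mono hab), ?_, ?_, ?_, ?_, ?_⟩
  · obtain ⟨a, ha⟩ := h.bot
    exact ⟨a, by rw [ha, Submodule.baseChange_bot]⟩
  · obtain ⟨a, ha⟩ := h.top
    exact ⟨a, by rw [ha, Submodule.baseChange_top]⟩
  · intro a x hx
    rw [mem_baseChange_iff] at hx ⊢
    intro i
    rw [cor_map]
    exact h.map a _ (hx i)
  · intro a x hx hN
    rw [mem_baseChange_iff] at hx hN ⊢
    intro i
    have := hN i
    rw [cor_map_pow] at this
    exact h.inj a _ (hx i) this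
  · intro a
    apply baseChange_induction
    · exact ⟨0, zero_mem _, by rw [map_zero, sub_zero]; exact zero_mem _⟩
    · intro b s hs
      obtain ⟨x, hx, hx'⟩ := h.surj a s hs
      refine ⟨b ⊗ₜ x, Submodule.tmul_mem_baseChange_of_mem _ hx, ?_⟩
      have h1 : ((N.baseChange Ω) ^ a) (b ⊗ₜ[K] x) = b ⊗ₜ (N ^ a) x := by
        rw [← LinearMap.baseChange_pow, LinearMap.baseChange_tmul]
      rw [h1, ← TensorProduct.tmul_sub]
      exact Submodule.tmul_mem_baseChange_of_mem _ hx'
    · rintro x y ⟨x', hx, hx'⟩ ⟨y', hy, hy'⟩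
      refine ⟨x' + y', add_mem hx hy, ?_⟩
      rw [map_add, add_sub_add_comm]
      exact add_mem hx' hy'

lemma nilpotent_of_baseChange {N : Module.End K D} {r : ℕ} (h : (N.baseChange Ω) ^ r = 0) :
    N ^ r = 0 := by
  ext x
  have h1 : (1 : Ω) ⊗ₜ[K] ((N ^ r) x) = 0 := by
    rw [← LinearMap.baseChange_tmul, LinearMap.baseChange_pow, h]
    rfl
  obtain ⟨i, hi⟩ : ∃ i, (Basis.ofVectorSpace K Ω).repr 1 i ≠ 0 := by
    by_contra hcon
    push Not at hcon
    exact one_ne_zero ((Basis.ofVectorSpace K Ω).ext_elem (fun i => by rw [hcon i, map_zero]; rfl))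
  have h3 := congrArg (cor Ω i) h1
  rw [cor_tmul, map_zero] at h3
  exact (smul_eq_zero.1 h3).resolve_left hi

/-- The operator of a monodromy filtration is nilpotent. -/
lemma monNilpotent {N : Module.End K D} {M : ℤ → Submodule K D}
    (h : IsMonodromyFiltration N M) : ∃ r : ℕ, N ^ r = 0 := by
  obtain ⟨b, hb⟩ := h.bot
  obtain ⟨t, ht⟩ := h.top
  refine ⟨(t - b).toNat, ?_⟩
  ext x
  have h1 := h.on.pow_map (t - b).toNat t x (by rw [ht]; trivial)
  have h2 : (N ^ (t - b).toNat) x ∈ M b := by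
    apply h.mono _ h1
    have := Int.self_le_toNat (t - b)
    omega
  rw [hb, Submodule.mem_bot] at h2
  exact h2

/-- The uniqueness of the monodromy filtration. -/
lemma monLe {N : Module.End K D} {M M' : ℤ → Submodule K D}
    (h : IsMonodromyFiltration N M) (h' : IsMonodromyFiltration N M') (a : ℤ) : M a ≤ M' a :=
  fun x hx => IsMonodromyFiltrationOn.functorial h.on h'.on LinearMap.id (fun _ _ => trivial)
    one_ne_zero (fun _ _ => by rw [one_smul]; rfl) a hx

end BaseChange

/-- The monodromy filtration is stable under `φ`. -/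
lemma PhiNModule.stable {K₀ : Type u} [Field K₀] {σ : K₀ →+* K₀} {p : ℕ}
    (E : PhiNModule.{u, v} K₀ σ p) (hp : (p : K₀) ≠ 0) {M : ℤ → Submodule K₀ E.D}
    (h : IsMonodromyFiltration E.N M) (a : ℤ) (x : E.D) (hx : x ∈ M a) : E.φ x ∈ M a := by
  have hN : ∀ (j : ℕ) (x : E.D), (E.N ^ j) (E.φ x) = (p : K₀) ^ j • E.φ ((E.N ^ j) x) := by
    intro j
    induction j with
    | zero => intro x; rw [pow_zero, pow_zero, one_smul]; rfl
    | succ j ih =>
      intro x
      rw [pow_succ', Module.End.mul_apply, ih, map_smul, E.N_φ, smul_smul, ← pow_succ]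
      rfl
  have h1 : IsMonodromyFiltration E.N (fun a => (M a).comap E.φ) := by
    refine ⟨fun a b hab => Submodule.comap_mono (h.mono hab), ?_, ?_, ?_, ?_, ?_⟩
    · obtain ⟨b, hb⟩ := h.bot
      refine ⟨b, ?_⟩
      rw [hb, eq_bot_iff]
      intro x hx
      rw [Submodule.mem_comap, Submodule.mem_bot] at hx
      rw [Submodule.mem_bot]
      exact E.bijective.1 (by rw [hx, map_zero])
    · obtain ⟨b, hb⟩ := h.top
      exact ⟨b, by rw [hb, Submodule.comap_top]⟩
    · intro a x hx
      rw [Submodule.mem_comap] at hx ⊢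
      have := h.map a _ hx
      rw [E.N_φ] at this
      exact (Submodule.smul_mem_iff _ hp).1 this
    · intro a x hx hx'
      rw [Submodule.mem_comap] at hx hx' ⊢
      refine h.inj a _ hx ?_
      rw [hN]
      exact Submodule.smul_mem _ _ hx'
    · intro a y hy
      rw [Submodule.mem_comap] at hy
      obtain ⟨z, hz, hz'⟩ := h.surj a _ hy
      obtain ⟨x, hx⟩ := E.bijective.2 ((p : K₀) ^ a • z)
      refine ⟨x, ?_, ?_⟩
      · rw [Submodule.mem_comap, hx]
        exact Submodule.smul_mem _ _ hz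
      · have h2 : E.φ ((E.N ^ a) x) = (E.N ^ a) z := by
          have h3 := hN a x
          rw [hx, map_smul] at h3
          exact (smul_right_injective _ (pow_ne_zero a hp) h3).symm
        rw [Submodule.mem_comap, map_sub, h2]
        exact hz'
  exact monLe h h1 a hx

/-- The descent of mw purity from `Ω` to `K₀`. -/
theorem PhiNModule.isPure_of_isMWPure {K₀ : Type u} [Field K₀] [CharZero K₀] {σ : K₀ →+* K₀}
    {p : ℕ} (hp : p ≠ 0) (E : PhiNModule.{u, v} K₀ σ p) (Ω : Type u) [Field Ω] [CharZero Ω]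
    [Algebra K₀ Ω] (f : ℕ) (hσ : ∀ a, σ^[f] a = a) (m : ℤ)
    (h : IsMWPure (p ^ f) m ((E.frob f hσ).baseChange Ω) (E.N.baseChange Ω)) :
    E.IsPure Ω f hσ m := by
  obtain ⟨M', hM', -, hw⟩ := h
  obtain ⟨r, hr⟩ := monNilpotent hM'
  have hM := isMonodromyFiltration_monFil (N := E.N) ⟨r, nilpotent_of_baseChange Ω hr⟩
  have hMΩ := monBaseChange Ω hM
  refine ⟨monFil E.N, hM, fun a x hx => E.stable (Nat.cast_ne_zero.2 hp) hM a x hx, ?_⟩
  intro a α x hx hx' hα
  exact hw a α x (monLe hMΩ hM' a hx) (fun h => hx' (monLe hM' hMΩ _ h)) (monLe hMΩ hM' _ hα)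

end Pool.Agent.Y143.Par
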