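import Pool.Agent.Y143.Par.Main

/-!
# The parabolic cohomology is mw pure (end of the proof)
-/

namespace Pool.Agent.Y143.Par

universe u v

open Module Matrix

variable {Ω : Type u} [Field Ω] [CharZero Ω] {R : Type} [Field R] [LinearOrder R]
  [IsStrictOrderedRing R] [Algebra R Ω] {q : ℕ}

namespace WeightPage

variable (P : WeightPage.{u, v} Ω R)

omit [CharZero Ω] [IsStrictOrderedRing R] in
lemma mem_cocycles {κ : ℤ} {c : P.C} : c ∈ P.cocycles κ ↔
    (c.1.1 ∈ (if κ = P.k + 1 then LinearMap.ker P.mult.d' else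
      if κ = -(P.k + 1) then ⊤ else ⊥ : Submodule Ω P.mult.B) ∧
    c.1.2 ∈ (if P.InMid κ then LinearMap.ker P.mult.fromMid else ⊥ : Submodule Ω P.mult.mid)) ∧
    (c.2.1 ∈ (if κ = 1 then LinearMap.ker P.good.d' else
      if κ = -1 then ⊤ else ⊥ : Submodule Ω P.good.B) ∧ c.2.2 ∈ P.pure.gr κ) := Iff.rfl

omit [CharZero Ω] [IsStrictOrderedRing R] in
lemma mem_coboundaries {κ : ℤ} {c : P.C} : c ∈ P.coboundaries κ ↔
    (c.1.1 ∈ (if κ = -(P.k + 1) then LinearMap.range P.mult.d else ⊥ : Submodule Ω P.mult.B) ∧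
    c.1.2 ∈ (if P.InMid κ then LinearMap.range P.mult.toMid else ⊥ : Submodule Ω P.mult.mid)) ∧
    (c.2.1 ∈ (if κ = -1 then LinearMap.range P.good.d else ⊥ : Submodule Ω P.good.B) ∧
      c.2.2 ∈ (⊥ : Submodule Ω P.pure.M)) := Iff.rfl

variable {P}

section

variable (h : P.IsGood q)
include h

lemma coboundaries_le (κ : ℤ) : P.coboundaries κ ≤ P.cocycles κ := by
  classical
  intro c hc
  rw [mem_coboundaries] at hc
  rw [mem_cocycles]
  obtain ⟨⟨h1, h2⟩, h3, h4⟩ := hc
  refine ⟨⟨?_, ?_⟩, ?_, ?_⟩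
  · by_cases ha : κ = P.k + 1
    · rw [if_neg (by omega)] at h1
      rw [(Submodule.mem_bot _).1 h1]
      exact zero_mem _
    · rw [if_neg ha]
      by_cases hb : κ = -(P.k + 1)
      · rw [if_pos hb]; trivial
      · rw [if_neg hb] at h1 ⊢
        exact h1
  · by_cases ha : P.InMid κ
    · rw [if_pos ha] at h2 ⊢
      obtain ⟨f, hf⟩ := h2
      rw [LinearMap.mem_ker, ← hf, h.mult.complex.from_to]
    · rw [if_neg ha] at h2 ⊢
      exact h2
  · by_cases ha : κ = 1
    · rw [if_neg (by omega)] at h3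
      rw [(Submodule.mem_bot _).1 h3]
      exact zero_mem _
    · rw [if_neg ha]
      by_cases hb : κ = -1
      · rw [if_pos hb]; trivial
      · rw [if_neg hb] at h3 ⊢
        exact h3
  · rw [(Submodule.mem_bot _).1 h4]
    exact zero_mem _

lemma frobC_coboundaries (κ : ℤ) (c : P.C) (hc : c ∈ P.coboundaries κ) :
    P.frobC q κ c ∈ P.coboundaries κ := by
  classical
  rw [mem_coboundaries] at hc ⊢
  obtain ⟨⟨h1, h2⟩, h3, h4⟩ := hc
  refine ⟨⟨?_, ?_⟩, ?_, ?_⟩
  · change (((q : Ω) ^ ((P.k + 1 + κ) / 2)) • P.mult.frobB) c.1.1 ∈ _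
    by_cases hb : κ = -(P.k + 1)
    · rw [if_pos hb] at h1 ⊢
      obtain ⟨f, hf⟩ := h1
      rw [← hf, LinearMap.smul_apply, P.mult.frob_d]
      exact Submodule.smul_mem _ _ ⟨_, rfl⟩
    · rw [if_neg hb] at h1 ⊢
      rw [(Submodule.mem_bot _).1 h1, map_zero]
      exact zero_mem _
  · change (((q : Ω) ^ ((P.k + 1 + κ) / 2)) • P.mult.frobMid) c.1.2 ∈ _
    by_cases ha : P.InMid κ
    · rw [if_pos ha] at h2 ⊢
      obtain ⟨f, hf⟩ := h2
      rw [← hf, LinearMap.smul_apply, h.mult.frob_to]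
      exact Submodule.smul_mem _ _ ⟨_, rfl⟩
    · rw [if_neg ha] at h2 ⊢
      rw [(Submodule.mem_bot _).1 h2, map_zero]
      exact zero_mem _
  · change (((q : Ω) ^ ((κ + 1) / 2)) • P.good.frobB) c.2.1 ∈ _
    by_cases ha : κ = -1
    · rw [if_pos ha] at h3 ⊢
      obtain ⟨f, hf⟩ := h3
      rw [← hf, LinearMap.smul_apply]
      exact Submodule.smul_mem _ _ (P.good.frob_d f)
    · rw [if_neg ha] at h3 ⊢
      rw [(Submodule.mem_bot _).1 h3, map_zero]
      exact zero_mem _
  · change P.pure.frob c.2.2 ∈ _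
    rw [(Submodule.mem_bot _).1 h4, map_zero]
    exact zero_mem _

lemma multB_zero (hk : P.k = 0) (x : P.mult.B) : x = 0 := by
  funext c
  exact ((h.isEmpty hk).false c).elim

lemma it_inj (a : ℕ) (ha : 1 ≤ a) (c : P.C) (hc : c ∈ P.cocycles a)
    (hN : itN P.NC a a c ∈ P.coboundaries (-a)) : c ∈ P.coboundaries a := by
  classical
  rw [mem_cocycles] at hc
  rw [mem_coboundaries] at hN ⊢
  obtain ⟨⟨h1, h2⟩, h3, h4⟩ := hc
  obtain ⟨⟨n1, n2⟩, n3, n4⟩ := hN
  have hmult : c.1.1 ∈ (if (a : ℤ) = -(P.k + 1) then LinearMap.range P.mult.d else ⊥ :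
      Submodule Ω P.mult.B) ∧ c.1.2 ∈ (if P.InMid a then LinearMap.range P.mult.toMid else ⊥ :
        Submodule Ω P.mult.mid) := by
    rw [if_neg (by omega : ¬ (a : ℤ) = -(P.k + 1))]
    by_cases hA : a = P.k + 1
    · have hnm : ¬ P.InMid (a : ℤ) := by
        rintro ⟨hm, -⟩
        rw [hA, Nat.abs_cast] at hm
        push_cast at hm
        omega
      rw [if_neg hnm] at h2 ⊢
      refine ⟨?_, h2⟩
      rcases Nat.eq_zero_or_pos P.k with hk | hk
      · rw [multB_zero h hk c.1.1]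
        exact zero_mem _
      · subst hA
        rw [if_pos (by push_cast; ring)] at h1
        rw [if_pos (by push_cast; ring)] at n1
        have e := (P.it_top' hk ((Submodule.mem_bot _).1 h2)).1
        rw [show ((P.k + 1 : ℕ) : ℤ) = P.k + 1 by push_cast; ring, e] at n1
        obtain ⟨f, hf⟩ := n1
        rw [Submodule.mem_bot]
        exact h.mult.inj (LinearMap.mem_ker.1 h1) hf.symm
    · rw [if_neg (by omega), if_neg (by omega)] at h1
      refine ⟨h1, ?_⟩
      by_cases hB : P.InMid a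
      · rw [if_pos hB]
        have hB' : P.InMid (-a) := inMid_neg hB
        rw [if_pos hB'] at n2
        have e := (P.it_mid a a ((Submodule.mem_bot _).1 h1) (fun i hi => by
          have := hB.1
          rw [Nat.abs_cast] at this
          omega)).2
        rwa [e] at n2
      · rw [if_neg hB] at h2 ⊢
        exact h2
  refine ⟨hmult, ?_, ?_⟩
  · rw [if_neg (by omega)]
    by_cases hA : a = 1
    · subst hA
      rw [if_pos (by norm_num)] at h3 n3
      have e := P.it_good_one c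
      rw [show ((1 : ℕ) : ℤ) = 1 by norm_num, e] at n3
      obtain ⟨f, hf⟩ := n3
      rw [← hf] at h3 ⊢
      rw [Submodule.mem_bot]
      exact h.good.inj (LinearMap.mem_ker.1 h3)
    · rw [if_neg (by omega), if_neg (by omega)] at h3
      exact h3
  · rw [Submodule.mem_bot, P.it_pure] at n4
    rw [Submodule.mem_bot]
    exact h.pure.inj a _ h4 n4

lemma it_surj (a : ℕ) (ha : 1 ≤ a) (y : P.C) (hy : y ∈ P.cocycles (-a)) :
    ∃ c ∈ P.cocycles a, y - itN P.NC a a c ∈ P.coboundaries (-a) := by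
  classical
  rw [mem_cocycles] at hy
  obtain ⟨⟨h1, h2⟩, h3, h4⟩ := hy
  -- the pure part
  obtain ⟨x4, hx4, hxy4⟩ := h.pure.surj a _ h4
  -- the good part
  have hgood : ∃ g : P.good.B, g ∈ (if (a : ℤ) = 1 then LinearMap.ker P.good.d' else
      if (a : ℤ) = -1 then ⊤ else ⊥ : Submodule Ω P.good.B) ∧
      (a ≠ 1 → g = 0) ∧
      y.2.1 - g ∈ (if -(a : ℤ) = -1 then LinearMap.range P.good.d else ⊥ :
        Submodule Ω P.good.B) := by
    by_cases hA : a = 1
    · obtain ⟨f, hf⟩ := h.good.surj y.2.1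
      refine ⟨y.2.1 - P.good.d f, ?_, fun h' => absurd hA h', ?_⟩
      · rw [if_pos (by omega)]
        exact hf
      · rw [if_pos (by omega), sub_sub_cancel]
        exact ⟨f, rfl⟩
    · rw [if_neg (by omega), if_neg (by omega)] at h3
      refine ⟨0, zero_mem _, fun _ => rfl, ?_⟩
      rw [if_neg (by omega), sub_zero]
      exact h3
  obtain ⟨g, hg1, hg2, hg3⟩ := hgood
  have hitg : ∀ c : P.C, c.2.1 = g → (itN P.NC a a c).2.1 = g := by
    intro c hc
    by_cases hA : a = 1
    · subst hA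
      have := P.it_good_one c
      rw [hc] at this
      exact this
    · rw [hg2 hA] at hc ⊢
      exact P.it_good_zero _ _ hc
  -- the multiplicative part
  have hmult : ∃ e : P.mult.B × P.mult.mid,
      (e.1 ∈ (if (a : ℤ) = P.k + 1 then LinearMap.ker P.mult.d' else
        if (a : ℤ) = -(P.k + 1) then ⊤ else ⊥ : Submodule Ω P.mult.B) ∧
      e.2 ∈ (if P.InMid a then LinearMap.ker P.mult.fromMid else ⊥ : Submodule Ω P.mult.mid)) ∧
      ∀ c : P.C, c.1 = e →
        (y.1.1 - (itN P.NC a a c).1.1 ∈ (if -(a : ℤ) = -(P.k + 1) then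
            LinearMap.range P.mult.d else ⊥ : Submodule Ω P.mult.B) ∧
          y.1.2 - (itN P.NC a a c).1.2 ∈ (if P.InMid (-a) then LinearMap.range P.mult.toMid
            else ⊥ : Submodule Ω P.mult.mid)) := by
    by_cases hA : a = P.k + 1
    · have hnm' : ¬ P.InMid (-(a : ℤ)) := by
        rintro ⟨hm, -⟩
        rw [hA, abs_neg, Nat.abs_cast] at hm
        push_cast at hm
        omega
      rw [if_neg hnm'] at h2
      rcases Nat.eq_zero_or_pos P.k with hk | hk
      · refine ⟨0, ⟨zero_mem _, zero_mem _⟩, fun c hc => ?_⟩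
        rw [multB_zero h hk (y.1.1 - _), if_neg hnm', (Submodule.mem_bot _).1 h2]
        refine ⟨zero_mem _, ?_⟩
        have h0 : (itN P.NC a a c).1.2 = 0 := by
          have : a = 1 := by omega
          subst this
          rw [itN, Module.End.mul_apply, NC_fst_snd]
          have e1 : (itN P.NC ((1 : ℕ) : ℤ) 0 c).1.2 = 0 := by
            rw [itN, Module.End.one_apply, hc]
            rfl
          have e2 : (itN P.NC ((1 : ℕ) : ℤ) 0 c).1.1 = 0 := multB_zero h hk _
          rw [e1, e2, map_zero, ite_self, ite_self, add_zero]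
        rw [h0, sub_zero]
        exact zero_mem _
      · subst hA
        obtain ⟨x, f, hx, hxf⟩ := h.mult.surj y.1.1
        refine ⟨(x, 0), ⟨?_, zero_mem _⟩, fun c hc => ?_⟩
        · rw [if_pos (by push_cast; ring)]
          exact hx
        · have hc1 : c.1.1 = x := by rw [hc]
          have hc2 : c.1.2 = 0 := by rw [hc]
          obtain ⟨e1, e2⟩ := P.it_top' hk hc2
          rw [show ((P.k + 1 : ℕ) : ℤ) = P.k + 1 by push_cast; ring, e1, e2, if_pos rfl]
          have hnm'' : ¬ P.InMid (-((P.k : ℤ) + 1)) := by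
            have := hnm'
            push_cast at this
            exact this
          rw [if_neg hnm'', sub_zero, hc1]
          refine ⟨⟨f, ?_⟩, h2⟩
          rw [hxf]
          abel
    · rw [if_neg (by omega), if_neg (by omega)] at h1
      rw [if_neg (by omega), if_neg (by omega)]
      by_cases hB : P.InMid (a : ℤ)
      · have hB' : P.InMid (-(a : ℤ)) := inMid_neg hB
        rw [if_pos hB'] at h2
        refine ⟨(0, y.1.2), ⟨zero_mem _, ?_⟩, fun c hc => ?_⟩
        · rw [if_pos hB]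
          exact h2
        · have hc1 : c.1.1 = 0 := by rw [hc]
          have hc2 : c.1.2 = y.1.2 := by rw [hc]
          obtain ⟨e1, e2⟩ := P.it_mid a a hc1 (fun i hi => by
            have := hB.1
            rw [Nat.abs_cast] at this
            omega)
          rw [e1, e2, hc2, sub_zero, sub_self, if_neg (by omega)]
          exact ⟨h1, zero_mem _⟩
      · have hB' : ¬ P.InMid (-(a : ℤ)) := fun hc => hB (by
          have h5 : P.InMid (-(-(a : ℤ))) := inMid_neg hc
          rwa [neg_neg] at h5)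
        rw [if_neg hB'] at h2
        refine ⟨0, ⟨zero_mem _, zero_mem _⟩, fun c hc => ?_⟩
        have hc1 : c.1.1 = 0 := by rw [hc]; rfl
        have hc2 : c.1.2 = 0 := by rw [hc]; rfl
        have key : ∀ j : ℕ, (itN P.NC a j c).1.1 = 0 ∧ (itN P.NC a j c).1.2 = 0 := by
          intro j
          induction j with
          | zero => exact ⟨hc1, hc2⟩
          | succ j ih =>
            rw [itN, Module.End.mul_apply, NC_fst_fst, NC_fst_snd, ih.1, ih.2, map_zero, map_zero,
              ite_self, ite_self, ite_self, add_zero]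
            exact ⟨rfl, rfl⟩
        rw [(key a).1, (key a).2, sub_zero, sub_zero, if_neg (by omega), if_neg hB']
        exact ⟨h1, h2⟩
  obtain ⟨e, he1, he2⟩ := hmult
  refine ⟨(e, (g, x4)), ?_, ?_⟩
  · rw [mem_cocycles]
    exact ⟨he1, hg1, hx4⟩
  · rw [mem_coboundaries]
    obtain ⟨m1, m2⟩ := he2 (e, (g, x4)) rfl
    refine ⟨⟨m1, m2⟩, ?_, ?_⟩
    · change y.2.1 - (itN P.NC a a (e, (g, x4))).2.1 ∈ _
      rw [hitg (e, (g, x4)) rfl]
      exact hg3
    · change y.2.2 - (itN P.NC a a (e, (g, x4))).2.2 ∈ _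
      rw [P.it_pure, Submodule.mem_bot]
      change y.2.2 - (P.pure.N ^ a) x4 = 0
      rw [hxy4, sub_self]

lemma weil_page (hq : q ≠ 0) (κ : ℤ) (α : Ω) (c : P.C) (hc : c ∈ P.cocycles κ) (hne : c ≠ 0)
    (hα : P.frobC q κ c = α • c) : IsWeilNumber q (P.k + 1 + κ) α := by
  classical
  rw [mem_cocycles] at hc
  obtain ⟨⟨h1, h2⟩, h3, h4⟩ := hc
  have hqΩ : (q : Ω) ≠ 0 := Nat.cast_ne_zero.2 hq
  have e1 : (((q : Ω) ^ ((P.k + 1 + κ) / 2)) • P.mult.frobB) c.1.1 = α • c.1.1 :=
    congrArg (fun z : P.C => z.1.1) hα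
  have e2 : (((q : Ω) ^ ((P.k + 1 + κ) / 2)) • P.mult.frobMid) c.1.2 = α • c.1.2 :=
    congrArg (fun z : P.C => z.1.2) hα
  have e3 : (((q : Ω) ^ ((κ + 1) / 2)) • P.good.frobB) c.2.1 = α • c.2.1 :=
    congrArg (fun z : P.C => z.2.1) hα
  have e4 : P.pure.frob c.2.2 = α • c.2.2 := congrArg (fun z : P.C => z.2.2) hα
  have key : ∀ {T : Type v} [AddCommGroup T] [Module Ω T] (F : Module.End Ω T) (x : T) (s : ℤ),
      ((q : Ω) ^ s) • F x = α • x → F x = (((q : Ω) ^ s)⁻¹ * α) • x := by
    intro T _ _ F x s hx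
    rw [mul_smul, ← hx, smul_smul, inv_mul_cancel₀ (zpow_ne_zero _ hqΩ), one_smul]
  by_cases z1 : c.1.1 = 0
  · by_cases z2 : c.1.2 = 0
    · by_cases z3 : c.2.1 = 0
      · have z4 : c.2.2 ≠ 0 := by
          intro z4
          exact hne (Prod.ext (Prod.ext z1 z2) (Prod.ext z3 z4))
        exact h.pure.weil κ α _ h4 z4 e4
      · obtain ⟨τ, hτ⟩ := Function.ne_iff.1 z3
        obtain ⟨e, he⟩ := Function.ne_iff.1 hτ
        have hκ : κ = 1 ∨ κ = -1 := by
          by_contra hcon
          push Not at hcon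
          rw [if_neg hcon.1, if_neg hcon.2] at h3
          exact z3 ((Submodule.mem_bot _).1 h3)
        have h5 := key (P.good.frob τ) (c.2.1 τ e) _ (congrFun (congrFun e3 τ) e)
        have h6 := (h.good.weil τ _ _ he h5).twist hq ((κ + 1) / 2)
        rw [← mul_assoc, mul_inv_cancel₀ (zpow_ne_zero _ hqΩ), one_mul] at h6
        have h7 : (P.k : ℤ) + 2 * ((κ + 1) / 2) = P.k + 1 + κ := by omega
        rwa [h7] at h6
    · have hκ : P.InMid κ := by
        by_contra hcon
        rw [if_neg hcon] at h2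
        exact z2 ((Submodule.mem_bot _).1 h2)
      have h5 := key P.mult.frobMid c.1.2 _ e2
      have h6 := (h.mult.isPure.weil_mid _ _ z2 h5).twist hq ((P.k + 1 + κ) / 2)
      rw [← mul_assoc, mul_inv_cancel₀ (zpow_ne_zero _ hqΩ), one_mul] at h6
      have h8 := hκ.2
      have h7 : (0 : ℤ) + 2 * ((P.k + 1 + κ) / 2) = P.k + 1 + κ := by omega
      rwa [h7] at h6
  · obtain ⟨c', hc'⟩ := Function.ne_iff.1 z1
    obtain ⟨e, he⟩ := Function.ne_iff.1 hc'
    have hκ : κ = P.k + 1 ∨ κ = -(P.k + 1) := by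
      by_contra hcon
      push Not at hcon
      rw [if_neg hcon.1, if_neg hcon.2] at h1
      exact z1 ((Submodule.mem_bot _).1 h1)
    have h5 := key (P.mult.frob c') (c.1.1 c' e) _ (congrFun (congrFun e1 c') e)
    have h6 := (h.mult.isPure.weil c' _ _ he h5).twist hq ((P.k + 1 + κ) / 2)
    rw [← mul_assoc, mul_inv_cancel₀ (zpow_ne_zero _ hqΩ), one_mul] at h6
    have h7 : (0 : ℤ) + 2 * ((P.k + 1 + κ) / 2) = P.k + 1 + κ := by omega
    rwa [h7] at h6

end

end WeightPage

/-- The parabolic cohomology `H^1(C_{\bar K}, j_* S)` is mw pure of weight `k + 1`. -/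
theorem ParabolicCohomology.isMWPure (hq : q ≠ 0) (P : ParabolicCohomology.{u, v} Ω R q) :
    IsMWPure q (P.page.k + 1) P.frob P.N :=
  isMWPure_of_page (Z := P.page.cocycles) (B := P.page.coboundaries) (F' := P.page.frobC q) (N' := P.page.NC)
    P.graded (fun w v x hx => P.compatible.sp_act w v x () hx) P.compatible.sp_N
    (WeightPage.coboundaries_le P.isGood) (WeightPage.frobC_coboundaries P.isGood)
    (fun a ha x hx hN => WeightPage.it_inj P.isGood a ha x hx hN)
    (fun a ha y hy => WeightPage.it_surj P.isGood a ha y hy)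
    (fun κ α x hx hne hα => WeightPage.weil_page P.isGood hq κ α x hx hne hα)

end Pool.Agent.Y143.Par
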