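import Pool.Agent.Y143.Par.Pure

/-!
# Sums, Tate twists and direct summands
-/

namespace Pool.Agent.Y143.Par

universe u v

open Module

variable {Ω : Type u} [Field Ω] [CharZero Ω] {q : ℕ}

/-- `(V, Φ, N)` is a direct summand of the sum of the Tate twists `(H i, F i, N' i)(- t i)`. -/
def IsSummand (q : ℕ) {ι : Type} (H : ι → Type v) [∀ i, AddCommGroup (H i)] [∀ i, Module Ω (H i)]
    (F N' : ∀ i, Module.End Ω (H i)) (t : ι → ℤ) {V : Type v} [AddCommGroup V] [Module Ω V]
    (Φ N : Module.End Ω V) : Prop :=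
  ∃ (f : V →ₗ[Ω] ∀ i, H i) (g : (∀ i, H i) →ₗ[Ω] V), (∀ x, g (f x) = x) ∧
    (∀ x i, f (Φ x) i = (q : Ω) ^ t i • F i (f x i)) ∧ (∀ x i, f (N x) i = N' i (f x i)) ∧
    (∀ y, g (fun i => (q : Ω) ^ t i • F i (y i)) = Φ (g y)) ∧
    ∀ y, g (fun i => N' i (y i)) = N (g y)

/-- Direct sums of Tate twists of mw pure representations are mw pure. -/
theorem isMWPure_pi {ι : Type} [Finite ι] (hq : q ≠ 0) (H : ι → Type v)
    [∀ i, AddCommGroup (H i)] [∀ i, Module Ω (H i)] (F N' : ∀ i, Module.End Ω (H i)) (t : ι → ℤ)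
    (w : ι → ℤ) (m : ℤ) (hm : ∀ i, w i + 2 * t i = m) (h : ∀ i, IsMWPure q (w i) (F i) (N' i)) :
    IsMWPure q m (LinearMap.pi fun i => ((q : Ω) ^ t i • F i) ∘ₗ LinearMap.proj i :
      Module.End Ω (∀ i, H i)) (LinearMap.pi fun i => N' i ∘ₗ LinearMap.proj i) := by
  classical
  have hqΩ : (q : Ω) ≠ 0 := Nat.cast_ne_zero.2 hq
  cases nonempty_fintype ι
  choose M hM hF hw using h
  have hpow : ∀ (a : ℕ) (x : ∀ i, H i) (i : ι),
      (((LinearMap.pi fun i => N' i ∘ₗ LinearMap.proj i : Module.End Ω (∀ i, H i)) ^ a) x) i =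
        (N' i ^ a) (x i) := by
    intro a
    induction a with
    | zero => intro x i; rfl
    | succ a ih =>
      intro x i
      rw [pow_succ', Module.End.mul_apply, pow_succ', Module.End.mul_apply, ← ih]
      rfl
  refine ⟨fun a => Submodule.pi Set.univ fun i => M i a, ⟨?_, ?_, ?_, ?_, ?_, ?_⟩, ?_, ?_⟩
  · intro a b hab x hx i hi
    exact (hM i).mono hab (hx i hi)
  · choose b hb using fun i => (hM i).bot
    obtain ⟨c, hc⟩ := (Set.finite_range b).bddBelow
    refine ⟨c, eq_bot_iff.2 fun x hx => ?_⟩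
    rw [Submodule.mem_bot]
    funext i
    have h1 := (hM i).mono (hc ⟨i, rfl⟩) (hx i trivial)
    rw [hb i] at h1
    exact (Submodule.mem_bot _).1 h1
  · choose b hb using fun i => (hM i).top
    obtain ⟨c, hc⟩ := (Set.finite_range b).bddAbove
    refine ⟨c, eq_top_iff.2 fun x _ i _ => ?_⟩
    apply (hM i).mono (hc ⟨i, rfl⟩)
    rw [hb i]
    trivial
  · intro a x hx i hi
    exact (hM i).map a _ (hx i hi)
  · intro a x hx hN i hi
    have := hN i hi
    rw [hpow] at this
    exact (hM i).inj a _ (hx i hi) this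
  · intro a y hy
    choose x hx hxy using fun i => (hM i).surj a (y i) (hy i trivial)
    refine ⟨x, fun i _ => hx i, fun i _ => ?_⟩
    rw [Pi.sub_apply, hpow]
    exact hxy i
  · intro a x hx i hi
    exact Submodule.smul_mem _ _ (hF i a _ (hx i hi))
  · intro a α x hx hx' hα
    obtain ⟨i, hi⟩ : ∃ i, x i ∉ M i (a - 1) := by
      by_contra hcon
      push Not at hcon
      exact hx' fun i _ => hcon i
    have h1 : (q : Ω) ^ t i • F i (x i) - α • x i ∈ M i (a - 1) := hα i trivial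
    have h2 : F i (x i) - (((q : Ω) ^ t i)⁻¹ * α) • x i ∈ M i (a - 1) := by
      have := Submodule.smul_mem _ ((q : Ω) ^ t i)⁻¹ h1
      rwa [smul_sub, smul_smul, smul_smul, inv_mul_cancel₀ (zpow_ne_zero _ hqΩ), one_smul] at this
    have h3 := (hw i a _ _ (hx i trivial) hi h2).twist hq (t i)
    rw [← mul_assoc, mul_inv_cancel₀ (zpow_ne_zero _ hqΩ), one_mul] at h3
    rwa [show a + w i + 2 * t i = a + m by rw [← hm i]; ring] at h3

/-- Direct summands of mw pure representations are mw pure. -/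
theorem isMWPure_summand {m : ℤ} {V V' : Type v} [AddCommGroup V] [Module Ω V] [AddCommGroup V']
    [Module Ω V'] {Φ N : Module.End Ω V} {Φ' N' : Module.End Ω V'} (f : V →ₗ[Ω] V')
    (g : V' →ₗ[Ω] V) (hgf : ∀ x, g (f x) = x) (hfΦ : ∀ x, f (Φ x) = Φ' (f x))
    (hfN : ∀ x, f (N x) = N' (f x)) (hgN : ∀ y, g (N' y) = N (g y)) (h : IsMWPure q m Φ' N') :
    IsMWPure q m Φ N := by
  obtain ⟨M, hM, hF, hw⟩ := h
  have hpow : ∀ (a : ℕ) (x : V), f ((N ^ a) x) = (N' ^ a) (f x) := by
    intro a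
    induction a with
    | zero => intro x; rfl
    | succ a ih => intro x; rw [pow_succ', Module.End.mul_apply, pow_succ', Module.End.mul_apply,
        hfN, ih]
  have hfun : ∀ (s : ℤ) (x : V'), x ∈ M s → f (g x) ∈ M s := fun s x hx =>
    IsMonodromyFiltrationOn.functorial hM.on hM.on (f ∘ₗ g) (fun _ _ => trivial) one_ne_zero
      (fun y _ => by
        rw [one_smul, LinearMap.comp_apply, LinearMap.comp_apply, hgN, hfN]) s hx
  have hinjf : ∀ x, f x = 0 → x = 0 := fun x hx => by rw [← hgf x, hx, map_zero]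
  refine ⟨fun a => (M a).comap f, ⟨?_, ?_, ?_, ?_, ?_, ?_⟩, ?_, ?_⟩
  · intro a b hab
    exact Submodule.comap_mono (hM.mono hab)
  · obtain ⟨b, hb⟩ := hM.bot
    refine ⟨b, eq_bot_iff.2 fun x hx => ?_⟩
    rw [Submodule.mem_comap, hb, Submodule.mem_bot] at hx
    exact (Submodule.mem_bot _).2 (hinjf x hx)
  · obtain ⟨b, hb⟩ := hM.top
    refine ⟨b, eq_top_iff.2 fun x _ => ?_⟩
    rw [Submodule.mem_comap, hb]
    trivial
  · intro a x hx
    rw [Submodule.mem_comap] at hx ⊢
    rw [hfN]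
    exact hM.map a _ hx
  · intro a x hx hNx
    rw [Submodule.mem_comap] at hx hNx ⊢
    rw [hpow] at hNx
    exact hM.inj a _ hx hNx
  · intro a y hy
    obtain ⟨z, hz, hyz⟩ := hM.surj a (f y) hy
    refine ⟨g z, hfun a z hz, ?_⟩
    have h1 := hfun _ _ hyz
    have hpow' : ∀ (b : ℕ) (x : V'), g ((N' ^ b) x) = (N ^ b) (g x) := by
      intro b
      induction b with
      | zero => intro x; rfl
      | succ b ih => intro x; rw [pow_succ', Module.End.mul_apply, pow_succ',
          Module.End.mul_apply, hgN, ih]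
    rw [Submodule.mem_comap]
    rwa [map_sub, hgf, hpow'] at h1
  · intro a x hx
    rw [Submodule.mem_comap] at hx ⊢
    rw [hfΦ]
    exact hF a _ hx
  · intro a α x hx hx' hα
    rw [Submodule.mem_comap] at hx hx' hα
    rw [map_sub, map_smul, hfΦ] at hα
    exact hw a α _ hx hx' hα

/-- Direct summands of sums of Tate twists of mw pure representations are mw pure. -/
theorem IsSummand.isMWPure {ι : Type} [Finite ι] (hq : q ≠ 0) {H : ι → Type v}
    [∀ i, AddCommGroup (H i)] [∀ i, Module Ω (H i)] {F N' : ∀ i, Module.End Ω (H i)} {t : ι → ℤ}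
    {V : Type v} [AddCommGroup V] [Module Ω V] {Φ N : Module.End Ω V}
    (hS : IsSummand q H F N' t Φ N) {w : ι → ℤ} {m : ℤ} (hm : ∀ i, w i + 2 * t i = m)
    (h : ∀ i, IsMWPure q (w i) (F i) (N' i)) : IsMWPure q m Φ N := by
  obtain ⟨f, g, h1, h2, h3, -, h5⟩ := hS
  exact isMWPure_summand f g h1 (fun x => funext fun i => h2 x i) (fun x => funext fun i => h3 x i)
    h5 (isMWPure_pi hq H F N' t w m hm h)

end Pool.Agent.Y143.Par
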